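import Pool.Agent.Lib.MR.Defs

/-!
# Module Lev (35 minutes): the top level, numerics

`lev q = ⌈100 log log q⌉₊`. `lev_ok`: `ex E (E^3) = e^(E^2)`; `e^(2E^2) E ≤ q` for `q` large (`E ≤ 101 loglog q`).
`topn`: `E = lev q`, `l = ⌈log q/(u + 1/E)⌉₊ ≤ log q/E + 1 ≤ log q`, `l(u+1/E) ≤ log q + u + 1/E ≤ log q + E^2 + 1`, `l u ≥ l (u + 1/E) - l/E`:
the left side is at most `log 4 + l log l + (2/5) l (u + 1/E) + (8/5) l/E + 3 log E ≤ log 4 + (log q/E + 1) loglog q + (2/5)(log q + E^2 + 1) + (8/5)(log q/E^2 + 1) + 3 log E`, and `log q loglog q/E ≤ log q/100`, so it is `≤ (2/5 + 1/100 + o(1)) log q`.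
-/

set_option autoImplicit false

open Finset

namespace Pool.Agent.Lib.MR

/-- the top level -/
noncomputable def lev (q : ℕ) : ℕ := ⌈100 * Real.log (Real.log q)⌉₊

private theorem Lev_tend : Filter.Tendsto (fun q : ℕ => Real.log (Real.log (q : ℝ)))
    Filter.atTop Filter.atTop :=
  Real.tendsto_log_atTop.comp (Real.tendsto_log_atTop.comp tendsto_natCast_atTop_atTop)

/-- the size of `lev q` -/
private theorem Lev_base (K : ℝ) (hK : 1 ≤ K) : ∃ q0 : ℕ, ∀ q : ℕ, q0 ≤ q →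
    ∃ T W : ℝ, T = Real.log (Real.log q) ∧ W = Real.log q ∧ K ≤ T ∧ Real.exp T = W ∧
      T ^ 3 ≤ W ∧ Real.exp W = q ∧ 100 * T ≤ lev q ∧ (lev q : ℝ) ≤ 101 * T := by
  have e1 := Lev_tend.eventually_ge_atTop K
  have e2 := Lev_tend.eventually ((Real.isLittleO_pow_exp_atTop (n := 3)).bound (one_pos))
  obtain ⟨q0, hq0⟩ := Filter.eventually_atTop.1 (e1.and e2)
  refine ⟨max 3 q0, fun q hq => ?_⟩
  have hq3 : 3 ≤ q := (le_max_left _ _).trans hq
  obtain ⟨f1, f2⟩ := hq0 q ((le_max_right _ _).trans hq)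
  have hq1 : (1 : ℝ) < q := by exact_mod_cast (by omega : 1 < q)
  have hqp : (0 : ℝ) < q := by linarith
  have hlog : 0 < Real.log (q : ℝ) := Real.log_pos hq1
  have hT0 : 0 ≤ Real.log (Real.log (q : ℝ)) := by linarith
  have hexp : Real.exp (Real.log (Real.log (q : ℝ))) = Real.log q := Real.exp_log hlog
  refine ⟨Real.log (Real.log q), Real.log q, rfl, rfl, f1, hexp, ?_, Real.exp_log hqp, ?_, ?_⟩
  · rw [Real.norm_of_nonneg (by positivity), Real.norm_of_nonneg (Real.exp_pos _).le,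
      one_mul, hexp] at f2
    exact f2
  · exact Nat.le_ceil _
  · have h1 := Nat.ceil_lt_add_one (show 0 ≤ 100 * Real.log (Real.log (q : ℝ)) by linarith)
    unfold lev
    linarith

theorem lev_ok : ∃ q0 : ℕ, ∀ q : ℕ, q0 ≤ q → ex (lev q) (lev q ^ 3) ^ 2 ≤ (q : ℝ) / lev q := by
  obtain ⟨q0, hq0⟩ := Lev_base 20503 (by norm_num)
  refine ⟨q0, fun q hq => ?_⟩
  obtain ⟨T, W, -, -, hT, hTW, hT3, hWq, hE1, hE2⟩ := hq0 q hq
  obtain ⟨E, hE⟩ : ∃ E : ℝ, E = lev q := ⟨_, rfl⟩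
  rw [← hE] at hE1 hE2
  have hE0 : 0 < E := by linarith
  have hex : ex (lev q) (lev q ^ 3) = Real.exp (E ^ 2) := by
    unfold ex
    congr 1
    push_cast
    rw [← hE]
    field_simp
  rw [hex, ← hE, le_div_iff₀ hE0, ← hWq]
  have h1 : Real.exp (E ^ 2) ^ 2 * E = Real.exp (2 * E ^ 2 + Real.log E) := by
    rw [Real.exp_add, Real.exp_log hE0, ← Real.exp_nat_mul]
    norm_num
  rw [h1]
  apply Real.exp_le_exp.2
  have h2 : Real.log E ≤ E := by
    have := Real.log_le_sub_one_of_pos hE0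
    linarith
  have h3 : E ^ 2 ≤ 10201 * T ^ 2 := by
    calc E ^ 2 ≤ (101 * T) ^ 2 := pow_le_pow_left₀ hE0.le hE2 2
      _ = 10201 * T ^ 2 := by ring
  have h4 : T ≤ T ^ 2 := by nlinarith
  calc 2 * E ^ 2 + Real.log E ≤ 20503 * T ^ 2 := by linarith
    _ ≤ T * T ^ 2 := mul_le_mul_of_nonneg_right hT (sq_nonneg T)
    _ = T ^ 3 := by ring
    _ ≤ W := hT3

theorem lev_large (E0 : ℕ) : ∃ q0 : ℕ, ∀ q : ℕ, q0 ≤ q → E0 ≤ lev q := by
  obtain ⟨q0, hq0⟩ := Lev_base (E0 + 1) (by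
    have : (0 : ℝ) ≤ E0 := Nat.cast_nonneg _
    linarith)
  refine ⟨q0, fun q hq => ?_⟩
  obtain ⟨T, W, -, -, hT, -, -, -, hE1, -⟩ := hq0 q hq
  have h0 : (0 : ℝ) ≤ E0 := Nat.cast_nonneg _
  have h1 : (E0 : ℝ) ≤ lev q := by linarith
  exact_mod_cast h1

theorem topn : ∃ q0 : ℕ, ∀ q : ℕ, q0 ≤ q → ∀ u : ℝ, (lev q : ℝ) ≤ u → u ≤ (lev q : ℝ) ^ 2 →
    Real.log 4 + ⌈Real.log q / (u + 1 / lev q)⌉₊ * Real.log ⌈Real.log q / (u + 1 / lev q)⌉₊ +
      2 * ⌈Real.log q / (u + 1 / lev q)⌉₊ * (u + 1 / lev q) - 8 / 5 * ⌈Real.log q / (u + 1 / lev q)⌉₊ * u +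
      3 * Real.log (lev q) ≤ 9 / 20 * Real.log q := by
  obtain ⟨q0, hq0⟩ := Lev_base 150000 (by norm_num)
  refine ⟨q0, fun q hq u hu1 hu2 => ?_⟩
  obtain ⟨T, W, -, hW, hT, hTW, hT3, hWq, hE1, hE2⟩ := hq0 q hq
  obtain ⟨E, hE⟩ : ∃ E : ℝ, E = lev q := ⟨_, rfl⟩
  rw [← hE] at hE1 hE2 hu1 hu2 ⊢
  rw [← hW]
  have hE0 : 0 < E := by linarith
  have hE100 : 100 ≤ E := by linarith
  have hinv : 0 < 1 / E := by positivity
  have hinv1 : 1 / E ≤ 1 := by
    rw [div_le_one hE0]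
    linarith
  have hW0 : 0 < W := by rw [← hTW]; exact Real.exp_pos T
  have hWbig : 150000 ≤ W := by
    have h1 : T ≤ T ^ 3 := by nlinarith [sq_nonneg T, mul_nonneg (show 0 ≤ T by linarith) (sq_nonneg T)]
    linarith
  obtain ⟨a, ha⟩ : ∃ a : ℝ, a = u + 1 / E := ⟨_, rfl⟩
  rw [← ha]
  have haE : E ≤ a := by linarith
  have ha0 : 0 < a := by linarith
  have haE2 : a ≤ E ^ 2 + 1 := by linarith
  obtain ⟨l, hl⟩ : ∃ l : ℝ, l = ⌈W / a⌉₊ := ⟨_, rfl⟩
  rw [← hl]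
  have hWa : 0 < W / a := by positivity
  have hl1 : l ≤ W / a + 1 := by
    rw [hl]
    exact (Nat.ceil_lt_add_one hWa.le).le
  have hl0 : 1 ≤ l := by
    rw [hl]
    exact_mod_cast Nat.one_le_iff_ne_zero.2 (Nat.ceil_pos.2 hWa).ne'
  have hl2 : l ≤ W / E + 1 := by
    have : W / a ≤ W / E := div_le_div_of_nonneg_left hW0.le hE0 haE
    linarith
  have hWE : W / E ≤ W / 100 := div_le_div_of_nonneg_left hW0.le (by norm_num) hE100
  have hlW : l ≤ W := by linarith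
  have hlogl : Real.log l ≤ T := by
    have h1 := Real.log_le_log (by linarith) hlW
    rw [← hTW, Real.log_exp] at h1
    exact h1
  have hlogl0 : 0 ≤ Real.log l := Real.log_nonneg hl0
  have hT0 : 0 < T := by linarith
  have k1 : l * Real.log l ≤ W / 100 + T := by
    calc l * Real.log l ≤ (W / E + 1) * T := mul_le_mul hl2 hlogl hlogl0 (by positivity)
      _ = W * T / E + T := by ring
      _ ≤ W / 100 + T := by
        have h1 : W * T / E ≤ W / 100 := by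
          rw [div_le_div_iff₀ hE0 (by norm_num)]
          nlinarith
        linarith
  have k2 : l * a ≤ W + (E ^ 2 + 1) := by
    calc l * a ≤ (W / a + 1) * a := mul_le_mul_of_nonneg_right hl1 ha0.le
      _ = W + a := by field_simp
      _ ≤ W + (E ^ 2 + 1) := by linarith
  have k3 : l * (1 / E) ≤ W / 10000 + 1 := by
    calc l * (1 / E) ≤ (W / E + 1) * (1 / E) := mul_le_mul_of_nonneg_right hl2 hinv.le
      _ = W / E / E + 1 / E := by ring
      _ ≤ W / 10000 + 1 := by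
        have h1 : W / E / E ≤ W / 100 / 100 := by
          apply div_le_div₀ (by positivity) hWE (by norm_num) hE100
        linarith
  have k4 : Real.log 4 ≤ 1.4 := by
    have : Real.log 4 = 2 * Real.log 2 := by
      rw [show (4 : ℝ) = 2 ^ 2 by norm_num, Real.log_pow]
      norm_num
    rw [this]
    linarith [Real.log_two_lt_d9]
  have k5 : Real.log E ≤ E := by
    have := Real.log_le_sub_one_of_pos hE0
    linarith
  have k6 : E ^ 2 ≤ 10201 * T ^ 2 := by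
    calc E ^ 2 ≤ (101 * T) ^ 2 := pow_le_pow_left₀ hE0.le hE2 2
      _ = 10201 * T ^ 2 := by ring
  have k7 : T ≤ T ^ 2 := by nlinarith
  have k8 : 150000 * T ^ 2 ≤ W := by
    calc 150000 * T ^ 2 ≤ T * T ^ 2 := mul_le_mul_of_nonneg_right hT (sq_nonneg T)
      _ = T ^ 3 := by ring
      _ ≤ W := hT3
  have k9 : (1 : ℝ) ≤ T ^ 2 := by nlinarith
  have hu : u = a - 1 / E := by rw [ha]; ring
  have k10 : 2 * l * a - 8 / 5 * l * u = 2 / 5 * (l * a) + 8 / 5 * (l * (1 / E)) := by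
    rw [hu]
    ring
  have k11 : Real.log 4 + l * Real.log l + 2 * l * a - 8 / 5 * l * u + 3 * Real.log E =
      Real.log 4 + l * Real.log l + (2 / 5 * (l * a) + 8 / 5 * (l * (1 / E))) +
        3 * Real.log E := by
    rw [← k10]
    ring
  rw [k11]
  linarith

end Pool.Agent.Lib.MR
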