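import Pool.Agent.Lib.MR.Defs
import Pool.Agent.Lib.BV.Orth

/-!
# Module MV (25 minutes): the mean value inequality for the characters of one modulus

PROOF. `BV.orth` with `c x = ∑_{n ∈ Icc 1 N, n = x in ZMod q} a n`: the left side is `φ(q) ∑_{x unit} |c x|^2 ≤ q ∑_x |c x|^2`; Cauchy: `|c x|^2 ≤ #{n ≤ N : n = x} ∑_{n = x} |a n|^2` and
every class has at most `N/q + 1` elements in `Icc 1 N` (`Nat.count_modEq_card`, or `n ↦ n / q` is injective on a class with values `≤ N/q`), so the total is at most `q (N/q + 1) ∑ |a n|^2 ≤ (q + N) ∑ |a n|^2`.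
`mvS`: `a n = f n`, `N = ⌊y⌋₊`.
-/

set_option autoImplicit false

open Finset

namespace Pool.Agent.Lib.MR

variable {q : ℕ} [NeZero q]

private theorem mv_card (N : ℕ) (x : ZMod q) :
    (q : ℝ) * ((Icc 1 N).filter fun n : ℕ => (n : ZMod q) = x).card ≤ q + N := by
  have h1 : ((Icc 1 N).filter fun n : ℕ => (n : ZMod q) = x).card ≤ (range (N / q + 1)).card := by
    refine card_le_card_of_injOn (fun n => n / q) (fun n hn => ?_) (fun n hn m hm hnm => ?_)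
    · rw [mem_coe, mem_filter, mem_Icc] at hn
      rw [mem_coe, mem_range]
      exact Nat.lt_succ_of_le (Nat.div_le_div_right hn.1.2)
    · rw [mem_coe, mem_filter] at hn hm
      have h2 : (n : ZMod q) = (m : ZMod q) := hn.2.trans hm.2.symm
      rw [ZMod.natCast_eq_natCast_iff'] at h2
      have h3 := Nat.div_add_mod n q
      have h4 := Nat.div_add_mod m q
      have h5 : n / q = m / q := hnm
      rw [h5, h2] at h3
      omega
  rw [card_range] at h1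
  have h2 : q * ((Icc 1 N).filter fun n : ℕ => (n : ZMod q) = x).card ≤ q + N := by
    have h3 := Nat.mul_le_mul_left q h1
    have h4 := Nat.mul_div_le N q
    have h5 : q * (N / q + 1) = q * (N / q) + q := by ring
    omega
  exact_mod_cast h2

theorem mv (N : ℕ) (a : ℕ → ℂ) :
    ∑ χ : DirichletCharacter ℂ q, ‖∑ n ∈ Icc 1 N, a n * χ (n : ZMod q)‖ ^ 2 ≤
      ((q : ℝ) + N) * ∑ n ∈ Icc 1 N, ‖a n‖ ^ 2 := by
  classical
  obtain ⟨c, hc⟩ : ∃ c : ZMod q → ℂ, c = fun x =>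
      ∑ n ∈ (Icc 1 N).filter (fun n : ℕ => (n : ZMod q) = x), a n := ⟨_, rfl⟩
  have h1 : ∀ χ : DirichletCharacter ℂ q, ∑ n ∈ Icc 1 N, a n * χ (n : ZMod q) =
      ∑ x : ZMod q, χ x * c x := by
    intro χ
    rw [← sum_fiberwise (Icc 1 N) (fun n : ℕ => (n : ZMod q)) (fun n => a n * χ (n : ZMod q))]
    refine sum_congr rfl fun x _ => ?_
    rw [hc]
    simp only
    rw [mul_sum]
    refine sum_congr rfl fun n hn => ?_
    rw [(mem_filter.1 hn).2, mul_comm]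
  have h2 : ∑ χ : DirichletCharacter ℂ q, ‖∑ n ∈ Icc 1 N, a n * χ (n : ZMod q)‖ ^ 2 =
      ∑ χ : DirichletCharacter ℂ q, ‖∑ x : ZMod q, χ x * c x‖ ^ 2 :=
    sum_congr rfl fun χ _ => by rw [h1]
  rw [h2, BV.orth]
  have h3 : ∀ x : ZMod q, (q : ℝ) * ‖c x‖ ^ 2 ≤
      ((q : ℝ) + N) * ∑ n ∈ (Icc 1 N).filter (fun n : ℕ => (n : ZMod q) = x), ‖a n‖ ^ 2 := by
    intro x
    have h4 : ‖c x‖ ^ 2 ≤ ((Icc 1 N).filter (fun n : ℕ => (n : ZMod q) = x)).card *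
        ∑ n ∈ (Icc 1 N).filter (fun n : ℕ => (n : ZMod q) = x), ‖a n‖ ^ 2 := by
      have h5 : ‖c x‖ ≤ ∑ n ∈ (Icc 1 N).filter (fun n : ℕ => (n : ZMod q) = x), ‖a n‖ := by
        rw [hc]
        exact norm_sum_le _ _
      exact (pow_le_pow_left₀ (norm_nonneg _) h5 2).trans sq_sum_le_card_mul_sum_sq
    have h6 := mul_le_mul_of_nonneg_left h4 (Nat.cast_nonneg (α := ℝ) q)
    have h7 : 0 ≤ ∑ n ∈ (Icc 1 N).filter (fun n : ℕ => (n : ZMod q) = x), ‖a n‖ ^ 2 :=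
      sum_nonneg fun _ _ => by positivity
    have h8 := mul_le_mul_of_nonneg_right (mv_card N x) h7
    linarith
  have h4 : (q.totient : ℝ) * ∑ x ∈ univ.filter (fun x : ZMod q => IsUnit x), ‖c x‖ ^ 2 ≤
      ∑ x : ZMod q, (q : ℝ) * ‖c x‖ ^ 2 := by
    rw [← mul_sum]
    refine mul_le_mul (by exact_mod_cast Nat.totient_le q)
      (sum_le_sum_of_subset_of_nonneg (filter_subset _ _) (fun _ _ _ => by positivity))
      (sum_nonneg fun _ _ => by positivity) (Nat.cast_nonneg q)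
  refine (h4.trans (sum_le_sum fun x _ => h3 x)).trans (le_of_eq ?_)
  rw [← mul_sum]
  congr 1
  exact sum_fiberwise (Icc 1 N) (fun n : ℕ => (n : ZMod q)) (fun n => ‖a n‖ ^ 2)

theorem mvS {f : ℕ → ℂ} (hf : CM f) {y : ℝ} (hy : 0 ≤ y) :
    ∑ χ : DirichletCharacter ℂ q, ‖SS f y χ‖ ^ 2 ≤ ((q : ℝ) + y) * y := by
  have h1 := mv (q := q) ⌊y⌋₊ f
  have hfl := Nat.floor_le hy
  have h2 : ∑ n ∈ Icc 1 ⌊y⌋₊, ‖f n‖ ^ 2 ≤ (⌊y⌋₊ : ℝ) := by
    have h3 : ∑ n ∈ Icc 1 ⌊y⌋₊, ‖f n‖ ^ 2 ≤ ∑ _n ∈ Icc 1 ⌊y⌋₊, (1 : ℝ) :=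
      sum_le_sum fun n _ => pow_le_one₀ (norm_nonneg _) (hf.le n)
    rw [sum_const, Nat.card_Icc, nsmul_eq_mul, mul_one, Nat.add_sub_cancel] at h3
    exact h3
  unfold SS
  refine h1.trans ?_
  exact mul_le_mul (by linarith) (h2.trans hfl) (sum_nonneg fun _ _ => by positivity) (by positivity)

end Pool.Agent.Lib.MR
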