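import Pool.Agent.Lib.MR.Defs

/-!
# Module Omm (40 minutes): `∑_{m ≤ Y} 3^{Ω_P(m)} ≤ 2Y`

PROOF. Strong induction on `Y`. For `m ≥ 1`, `t = Om P m`: `3^t ≤ 1 + 2 t 3^(t-1)` (`t = 0`: equality; `t = 1`: `3 = 3`; `t ≥ 2`: `2t/3 ≥ 1`), and `t 3^(t-1) = ∑_{p ∈ P} ∑_{k ≥ 1, p^k ∣ m} 3^(k-1) 3^{Om P (m/p^k)}`
(`t` is the number of pairs `(p,k)`, `k ≥ 1`, `p^k ∣ m`; `Om P (m/p^k) = t - k`). Sum over `m ≤ Y`: with `G(Y) = ∑_{m ≤ Y} 3^{Om P m}` this gives `G(Y) ≤ Y + 2 ∑_p ∑_{k=1}^{K} 3^(k-1) G(⌊Y/p^k⌋)` (`K = Y` is enough)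
`≤ Y + 4 Y ∑_p ∑_k 3^(k-1)/p^k ≤ Y + 4Y ∑_p 1/(p-3) ≤ Y + 8 Y ∑ 1/p ≤ 2Y` (`p ≥ 7 ≥ 6`: `1/(p-3) ≤ 2/p`; geometric series; induction hypothesis for `⌊Y/p^k⌋ < Y`).
You may use another proof.
-/

set_option autoImplicit false

open Finset

namespace Pool.Agent.Lib.MR

private theorem Omm_step (p : ℕ) (hp : p.Prime) (h7 : 7 ≤ p) (h : ℕ → ℝ) (h0 : ∀ m, 0 ≤ h m)
    (hm : ∀ m, 1 ≤ m → h (p * m) = h m) (C : ℝ) (hC : ∀ Y : ℕ, ∑ m ∈ Icc 1 Y, h m ≤ C * Y) :
    ∀ Y : ℕ, ∑ m ∈ Icc 1 Y, (3 : ℝ) ^ (padicValNat p m) * h m ≤ C * (p / (p - 3)) * Y := by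
  haveI : Fact p.Prime := ⟨hp⟩
  have hp7 : (7 : ℝ) ≤ p := by exact_mod_cast h7
  have hp3 : (0 : ℝ) < (p : ℝ) - 3 := by linarith
  have hC0 : 0 ≤ C := by
    have h1 := hC 1
    rw [Icc_self, sum_singleton] at h1
    have := h0 1
    push_cast at h1
    linarith
  intro Y
  induction Y using Nat.strong_induction_on with
  | _ Y ih =>
    rcases Nat.eq_zero_or_pos Y with hY | hY
    · subst hY
      simp
    · have hsplit := sum_filter_add_sum_filter_not (Icc 1 Y) (fun m => p ∣ m)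
        (fun m => (3 : ℝ) ^ (padicValNat p m) * h m)
      rw [← hsplit]
      have e1 : ∑ m ∈ (Icc 1 Y).filter (fun m => ¬ p ∣ m), (3 : ℝ) ^ (padicValNat p m) * h m ≤
          C * Y := by
        calc ∑ m ∈ (Icc 1 Y).filter (fun m => ¬ p ∣ m), (3 : ℝ) ^ (padicValNat p m) * h m =
              ∑ m ∈ (Icc 1 Y).filter (fun m => ¬ p ∣ m), h m := by
              refine sum_congr rfl fun m hm' => ?_
              rw [mem_filter] at hm'
              rw [padicValNat.eq_zero_of_not_dvd hm'.2, pow_zero, one_mul]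
          _ ≤ ∑ m ∈ Icc 1 Y, h m :=
              sum_le_sum_of_subset_of_nonneg (filter_subset _ _) (fun m _ _ => h0 m)
          _ ≤ C * Y := hC Y
      have e2 : (Icc 1 Y).filter (fun m => p ∣ m) = (Icc 1 (Y / p)).image (fun m => p * m) := by
        ext m
        rw [mem_filter, mem_image, mem_Icc]
        constructor
        · rintro ⟨⟨h1, h2⟩, k, rfl⟩
          refine ⟨k, ?_, rfl⟩
          rw [mem_Icc]
          refine ⟨?_, ?_⟩
          · rcases Nat.eq_zero_or_pos k with hk | hk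
            · subst hk
              omega
            · exact hk
          · rw [Nat.le_div_iff_mul_le hp.pos, mul_comm]
            exact h2
        · rintro ⟨k, hk, rfl⟩
          rw [mem_Icc] at hk
          refine ⟨⟨Nat.mul_pos hp.pos hk.1, ?_⟩, dvd_mul_right p k⟩
          have := (Nat.le_div_iff_mul_le hp.pos).1 hk.2
          rw [mul_comm]
          exact this
      have e3 : ∑ m ∈ (Icc 1 Y).filter (fun m => p ∣ m), (3 : ℝ) ^ (padicValNat p m) * h m =
          3 * ∑ m ∈ Icc 1 (Y / p), (3 : ℝ) ^ (padicValNat p m) * h m := by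
        rw [e2, sum_image (fun a _ b _ hab => Nat.eq_of_mul_eq_mul_left hp.pos hab), mul_sum]
        refine sum_congr rfl fun m hm' => ?_
        rw [mem_Icc] at hm'
        rw [padicValNat.mul hp.ne_zero (by omega), padicValNat_self, hm m hm'.1, pow_add, pow_one]
        ring
      have hlt : Y / p < Y := Nat.div_lt_self hY hp.one_lt
      have e4 := ih (Y / p) hlt
      have e5 : ((Y / p : ℕ) : ℝ) ≤ Y / p := Nat.cast_div_le
      have e6 : C * (p / (p - 3)) * ((Y / p : ℕ) : ℝ) ≤ C * (p / (p - 3)) * (Y / p) := by gcongr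
      have e7 : C * (p / (p - 3)) * (Y / p) * 3 + C * Y = C * (p / (p - 3)) * (Y : ℝ) := by
        field_simp
        ring
      rw [e3]
      linarith

private theorem Omm_prod (P : Finset ℕ) (hP : ∀ p ∈ P, p.Prime ∧ 7 ≤ p) :
    ∀ Y : ℕ, ∑ m ∈ Icc 1 Y, (3 : ℝ) ^ (Om P m) ≤ (∏ p ∈ P, ((p : ℝ) / (p - 3))) * Y := by
  induction P using Finset.induction_on with
  | empty =>
    intro Y
    simp [Om]
  | insert a s ha ih =>
    have has := hP a (mem_insert_self a s)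
    have ih' := ih (fun p hp => hP p (mem_insert_of_mem hp))
    intro Y
    have h1 := Omm_step a has.1 has.2 (fun m => (3 : ℝ) ^ (Om s m)) (fun m => by positivity) (by
      intro m hm
      congr 1
      unfold Om
      refine sum_congr rfl fun p hp => ?_
      have hpp := (hP p (mem_insert_of_mem hp)).1
      haveI : Fact p.Prime := ⟨hpp⟩
      haveI : Fact a.Prime := ⟨has.1⟩
      have hne : p ≠ a := fun h => ha (h ▸ hp)
      rw [padicValNat.mul has.1.ne_zero (by omega), padicValNat_primes hne, zero_add]) _ ih' Y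
    rw [prod_insert ha]
    calc ∑ m ∈ Icc 1 Y, (3 : ℝ) ^ (Om (insert a s) m) =
          ∑ m ∈ Icc 1 Y, (3 : ℝ) ^ (padicValNat a m) * 3 ^ (Om s m) := by
          refine sum_congr rfl fun m _ => ?_
          rw [← pow_add]
          unfold Om
          rw [sum_insert ha]
      _ ≤ _ := h1
      _ = _ := by ring

theorem omm (P : Finset ℕ) (hP : ∀ p ∈ P, p.Prime ∧ 7 ≤ p) (hS : ∑ p ∈ P, (1 : ℝ) / p ≤ 1 / 8) (Y : ℕ) :
    ∑ m ∈ Icc 1 Y, (3 : ℝ) ^ (Om P m) ≤ 2 * Y := by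
  refine (Omm_prod P hP Y).trans ?_
  have h1 : ∏ p ∈ P, ((p : ℝ) / (p - 3)) ≤ ∏ p ∈ P, Real.exp (21 / 4 * (1 / (p : ℝ))) := by
    refine prod_le_prod (fun p hp => ?_) (fun p hp => ?_)
    · have h7 : (7 : ℝ) ≤ p := by exact_mod_cast (hP p hp).2
      exact div_nonneg (by linarith) (by linarith)
    · have h7 : (7 : ℝ) ≤ p := by exact_mod_cast (hP p hp).2
      have h2 : (p : ℝ) / (p - 3) ≤ 21 / 4 * (1 / (p : ℝ)) + 1 := by
        rw [mul_one_div, div_add_one (by linarith), div_le_div_iff₀ (by linarith) (by linarith)]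
        nlinarith
      exact h2.trans (Real.add_one_le_exp _)
  have h3 : ∏ p ∈ P, Real.exp (21 / 4 * (1 / (p : ℝ))) ≤ 2 := by
    rw [← Real.exp_sum, ← mul_sum, ← Real.le_log_iff_exp_le (by norm_num)]
    have := Real.log_two_gt_d9
    linarith
  have h4 := h1.trans h3
  gcongr

end Pool.Agent.Lib.MR
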