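import Pool.Agent.Lib.MR.Defs

/-!
# Module WinB (25 minutes): the size of a window

`Pw_card`: the integers in `(z, z e^(1/H)]`, `z = ex H v`, number at most `z (e^(1/H) - 1) + 1 ≤ 2z/H + 1` (`e^t ≤ 1 + 2t` for `0 ≤ t ≤ 1`; `Pw ⊆ Ioc ⌊z⌋₊ ⌊z e^(1/H)⌋₊`).
`Pw_recip`: each `1/p ≤ 1/z`.  `Pw_good`: numerics from these (`2z/32 + 1 ≤ z`, `2/32 + 1/16 = 1/8`, `p > z ≥ 16`).
-/

set_option autoImplicit false

open Finset

namespace Pool.Agent.Lib.MR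

theorem ex_succ (H v : ℕ) : ex H (v + 1) = ex H v * ex H 1 := by
  unfold ex
  rw [← Real.exp_add, ← add_div]
  push_cast
  rfl

theorem ex_one {H : ℕ} (hH : 1 ≤ H) : ex H 1 ≤ 1 + 2 / H ∧ ex H 1 ≤ 3 := by
  have hH' : (1 : ℝ) ≤ H := by exact_mod_cast hH
  obtain ⟨t, ht⟩ : ∃ t : ℝ, t = 1 / H := ⟨_, rfl⟩
  have ht0 : 0 ≤ t := by rw [ht]; positivity
  have ht1 : t ≤ 1 := by
    rw [ht, div_le_one (by linarith)]
    exact hH'
  have h1 : ex H 1 = Real.exp t := by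
    unfold ex
    rw [ht, Nat.cast_one]
  have h2 := Real.abs_exp_sub_one_sub_id_le (x := t) (by rw [abs_of_nonneg ht0]; exact ht1)
  have h3 := (abs_le.1 h2).2
  have h4 : t ^ 2 ≤ t := by nlinarith
  have h5 : (2 : ℝ) / H = 2 * t := by rw [ht]; ring
  rw [h1, h5]
  constructor <;> linarith

theorem Pw_card (q : ℕ) {H : ℕ} (v : ℕ) (hH : 1 ≤ H) : ((Pw q H v).card : ℝ) ≤ ex H v * (2 / H) + 1 := by
  have hz := ex_pos H v
  have h1 : Pw q H v ⊆ Ioc ⌊ex H v⌋₊ ⌊ex H (v + 1)⌋₊ := by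
    intro p hp
    rw [mem_Pw] at hp
    obtain ⟨_, _, h3, h4⟩ := hp
    rw [mem_Ioc]
    exact ⟨(Nat.floor_lt hz.le).2 h3, Nat.le_floor h4⟩
  have h2 := card_le_card h1
  rw [Nat.card_Ioc] at h2
  have h3 : ⌊ex H v⌋₊ ≤ ⌊ex H (v + 1)⌋₊ := Nat.floor_le_floor (ex_mono (Nat.le_succ v))
  have h4 : ((Pw q H v).card : ℝ) ≤ (⌊ex H (v + 1)⌋₊ : ℝ) - ⌊ex H v⌋₊ := by
    rw [← Nat.cast_sub h3]
    exact_mod_cast h2
  have h5 := Nat.floor_le (ex_pos H (v + 1)).le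
  have h6 := Nat.lt_floor_add_one (ex H v)
  have h7 := ex_succ H v
  have h8 := mul_le_mul_of_nonneg_left (ex_one hH).1 hz.le
  linarith

theorem Pw_recip (q : ℕ) {H : ℕ} (v : ℕ) (hH : 1 ≤ H) :
    ∑ p ∈ Pw q H v, (1 : ℝ) / p ≤ 2 / H + 1 / ex H v := by
  have hz := ex_pos H v
  have h1 : ∑ p ∈ Pw q H v, (1 : ℝ) / p ≤ ∑ _p ∈ Pw q H v, 1 / ex H v := by
    refine sum_le_sum fun p hp => ?_
    rw [mem_Pw] at hp
    exact one_div_le_one_div_of_le hz hp.2.2.1.le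
  rw [sum_const, nsmul_eq_mul] at h1
  have h2 := mul_le_mul_of_nonneg_right (Pw_card q v hH) (one_div_pos.2 hz).le
  have h3 : (ex H v * (2 / H) + 1) * (1 / ex H v) = 2 / H + 1 / ex H v := by
    field_simp
  linarith

theorem Pw_good (q : ℕ) {H v : ℕ} (hH : 32 ≤ H) (hv : 16 ≤ ex H v) :
    (∀ p ∈ Pw q H v, p.Prime ∧ 7 ≤ p ∧ (p : ℝ) ≤ ex H (v + 1)) ∧ ((Pw q H v).card : ℝ) ≤ ex H (v + 1) ∧
      ∑ p ∈ Pw q H v, (1 : ℝ) / p ≤ 1 / 8 := by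
  have hz := ex_pos H v
  have hH' : (32 : ℝ) ≤ H := by exact_mod_cast hH
  have h2H : (2 : ℝ) / H ≤ 1 / 16 := by
    rw [div_le_div_iff₀ (by linarith) (by norm_num)]
    linarith
  refine ⟨fun p hp => ?_, ?_, ?_⟩
  · rw [mem_Pw] at hp
    obtain ⟨h1, _, h3, h4⟩ := hp
    refine ⟨h1, ?_, h4⟩
    have h5 : (7 : ℝ) ≤ p := by linarith
    exact_mod_cast h5
  · have h1 := Pw_card q v (by omega : 1 ≤ H)
    have h2 := mul_le_mul_of_nonneg_left h2H hz.le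
    have h3 := ex_mono (H := H) (Nat.le_succ v)
    have h4 : ex H v.succ = ex H (v + 1) := rfl
    linarith
  · have h1 := Pw_recip q v (by omega : 1 ≤ H)
    have h2 : 1 / ex H v ≤ 1 / 16 := one_div_le_one_div_of_le (by norm_num) hv
    linarith

end Pool.Agent.Lib.MR
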