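import Pool.Agent.Lib.MR.MomB
import Pool.Agent.Lib.MR.Omm
import Pool.Agent.Lib.MR.MV
import Pool.Agent.Lib.MR.WinB

/-!
# Module Mom (30 minutes): moments and counting

`moment`: replace `b` by `b` cut off outside `Icc 1 ⌊y⌋₊` and let `Z0 = ⌊Z⌋₊`, `Y = ⌊y⌋₊`; `cc_expand`, `mv` with `N = Z0^l Y ≤ Z^l y`, `cc_sq`, and `(w + l)^l ≤ l^l 3^w` (`l = 0`: `1 ≤ 3^w`; `l ≥ 1`: `(1 + w/l)^l ≤ e^w ≤ 3^w`), `omm`: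
`∑ |cc|^2 ≤ |P|^l l^l 2Y ≤ 2 l^l Z^l y`.
`cnt`: `moment` with `y = 1`, `b = 1`: the second factor is `|χ(1)|^2 = 1`; each `χ ∈ U` contributes at least `T^(2l)`; `(q + Z^l) 2 l^l Z^l ≤ 4 l^l Z^(2l)`.
`momw`, `cntw`: for the windows (`Pw_good`).
-/

set_option autoImplicit false

open Finset

namespace Pool.Agent.Lib.MR

variable {q : ℕ} [NeZero q]

private theorem mom_aux1 (w l : ℕ) : ((w : ℝ) + l) ^ l ≤ (l : ℝ) ^ l * 3 ^ w := by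
  rcases Nat.eq_zero_or_pos l with h | h
  · subst h
    simp only [pow_zero, one_mul]
    exact one_le_pow₀ (by norm_num)
  · have hl : (0 : ℝ) < l := by exact_mod_cast h
    have h1 : ((w : ℝ) + l) = l * (1 + w / l) := by
      field_simp
      ring
    rw [h1, mul_pow]
    refine mul_le_mul_of_nonneg_left ?_ (by positivity)
    have h2 : (1 + (w : ℝ) / l) ≤ Real.exp (w / l) := by
      have := Real.add_one_le_exp ((w : ℝ) / l)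
      linarith
    calc (1 + (w : ℝ) / l) ^ l ≤ Real.exp (w / l) ^ l := pow_le_pow_left₀ (by positivity) h2 l
      _ = Real.exp 1 ^ w := by
          rw [← Real.exp_nat_mul, ← Real.exp_nat_mul]
          congr 1
          field_simp
      _ ≤ 3 ^ w := by
          refine pow_le_pow_left₀ (Real.exp_pos _).le ?_ w
          have := Real.exp_one_lt_d9
          linarith

theorem moment {P : Finset ℕ} {Z : ℝ} (hP : ∀ p ∈ P, p.Prime ∧ 7 ≤ p ∧ (p : ℝ) ≤ Z) (hc : (P.card : ℝ) ≤ Z)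
    (hS : ∑ p ∈ P, (1 : ℝ) / p ≤ 1 / 8) (hZ : 1 ≤ Z) {a b : ℕ → ℂ} (ha : ∀ n, ‖a n‖ ≤ 1) (hb : ∀ n, ‖b n‖ ≤ 1)
    (l : ℕ) {y : ℝ} (hy : 0 ≤ y) :
    ∑ χ : DirichletCharacter ℂ q, ‖∑ p ∈ P, a p * χ (p : ZMod q)‖ ^ (2 * l) *
        ‖∑ m ∈ Icc 1 ⌊y⌋₊, b m * χ (m : ZMod q)‖ ^ 2 ≤
      ((q : ℝ) + Z ^ l * y) * (2 * (l : ℝ) ^ l * Z ^ l * y) := by
  classical
  set Y := ⌊y⌋₊ with hY
  set Z0 := ⌊Z⌋₊ with hZ0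
  have hZ' : 0 ≤ Z := by linarith
  have hYy : (Y : ℝ) ≤ y := Nat.floor_le hy
  have hZ0Z : (Z0 : ℝ) ≤ Z := Nat.floor_le hZ'
  let b' : ℕ → ℂ := fun n => if n ∈ Icc 1 Y then b n else 0
  have hb0 : ∀ n, n ∉ Icc 1 Y → b' n = 0 := fun n hn => by simp only [b', if_neg hn]
  have hb1 : ∀ n, ‖b' n‖ ≤ 1 := fun n => by
    simp only [b']
    split_ifs with h
    · exact hb n
    · simp
  have hP0 : ∀ p ∈ P, p.Prime ∧ p ≤ Z0 := fun p hp =>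
    ⟨(hP p hp).1, Nat.le_floor (hP p hp).2.2⟩
  have h1 : ∀ χ : DirichletCharacter ℂ q, ‖∑ p ∈ P, a p * χ (p : ZMod q)‖ ^ (2 * l) *
        ‖∑ m ∈ Icc 1 Y, b m * χ (m : ZMod q)‖ ^ 2 =
        ‖∑ n ∈ Icc 1 (Z0 ^ l * Y), cc P a b' l n * χ (n : ZMod q)‖ ^ 2 := by
    intro χ
    rw [← cc_expand hP0 hb0 χ l, norm_mul, norm_pow, mul_pow, ← pow_mul, mul_comm l 2]
    congr 3
    refine sum_congr rfl fun m hm => ?_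
    simp only [b', if_pos hm]
  rw [sum_congr rfl fun χ _ => h1 χ]
  have h2 := mv (q := q) (Z0 ^ l * Y) (cc P a b' l)
  have h3 := cc_sq (Y := Y) hP0 hb0 ha hb1 l
  have h4 : ∑ m ∈ Icc 1 Y, ((Om P m : ℝ) + l) ^ l ≤ (l : ℝ) ^ l * (2 * Y) := by
    calc ∑ m ∈ Icc 1 Y, ((Om P m : ℝ) + l) ^ l ≤ ∑ m ∈ Icc 1 Y, (l : ℝ) ^ l * 3 ^ (Om P m) :=
          sum_le_sum fun m _ => mom_aux1 _ _
      _ = (l : ℝ) ^ l * ∑ m ∈ Icc 1 Y, (3 : ℝ) ^ (Om P m) := by rw [mul_sum]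
      _ ≤ (l : ℝ) ^ l * (2 * Y) :=
          mul_le_mul_of_nonneg_left (omm P (fun p hp => ⟨(hP p hp).1, (hP p hp).2.1⟩) hS Y) (by positivity)
  have h5 : ∑ n ∈ Icc 1 (Z0 ^ l * Y), ‖cc P a b' l n‖ ^ 2 ≤ 2 * (l : ℝ) ^ l * Z ^ l * y := by
    calc ∑ n ∈ Icc 1 (Z0 ^ l * Y), ‖cc P a b' l n‖ ^ 2 ≤
          (P.card : ℝ) ^ l * ∑ m ∈ Icc 1 Y, ((Om P m : ℝ) + l) ^ l := h3
      _ ≤ Z ^ l * ((l : ℝ) ^ l * (2 * Y)) :=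
          mul_le_mul (pow_le_pow_left₀ (Nat.cast_nonneg _) hc l) h4
            (sum_nonneg fun _ _ => by positivity) (by positivity)
      _ ≤ Z ^ l * ((l : ℝ) ^ l * (2 * y)) := by gcongr
      _ = 2 * (l : ℝ) ^ l * Z ^ l * y := by ring
  refine h2.trans (mul_le_mul ?_ h5 (sum_nonneg fun _ _ => by positivity) (by positivity))
  push_cast
  have h6 : (Z0 : ℝ) ^ l * Y ≤ Z ^ l * y :=
    mul_le_mul (pow_le_pow_left₀ (Nat.cast_nonneg _) hZ0Z l) hYy (Nat.cast_nonneg _) (by positivity)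
  linarith

theorem cnt {P : Finset ℕ} {Z : ℝ} (hP : ∀ p ∈ P, p.Prime ∧ 7 ≤ p ∧ (p : ℝ) ≤ Z) (hc : (P.card : ℝ) ≤ Z)
    (hS : ∑ p ∈ P, (1 : ℝ) / p ≤ 1 / 8) (hZ : 1 ≤ Z) {a : ℕ → ℂ} (ha : ∀ n, ‖a n‖ ≤ 1)
    {l : ℕ} (hl : (q : ℝ) ≤ Z ^ l) {T : ℝ} (hT : 0 ≤ T) (U : Finset (DirichletCharacter ℂ q))
    (hU : ∀ χ ∈ U, T ≤ ‖∑ p ∈ P, a p * χ (p : ZMod q)‖) :
    (U.card : ℝ) * T ^ (2 * l) ≤ 4 * (l : ℝ) ^ l * Z ^ (2 * l) := by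
  classical
  have h1 := moment (q := q) hP hc hS hZ ha (b := fun _ => 1) (fun _ => by simp) l (y := 1) zero_le_one
  have h2 : ∀ χ : DirichletCharacter ℂ q, ‖∑ m ∈ Icc 1 ⌊(1 : ℝ)⌋₊, (fun _ => (1 : ℂ)) m * χ (m : ZMod q)‖ ^ 2 = 1 := by
    intro χ
    simp
  have h3 : (U.card : ℝ) * T ^ (2 * l) ≤ ∑ χ ∈ U, ‖∑ p ∈ P, a p * χ (p : ZMod q)‖ ^ (2 * l) := by
    rw [← nsmul_eq_mul]
    refine card_nsmul_le_sum _ _ _ fun χ hχ => ?_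
    exact pow_le_pow_left₀ hT (hU χ hχ) _
  have h4 : ∑ χ ∈ U, ‖∑ p ∈ P, a p * χ (p : ZMod q)‖ ^ (2 * l) ≤
      ∑ χ : DirichletCharacter ℂ q, ‖∑ p ∈ P, a p * χ (p : ZMod q)‖ ^ (2 * l) *
        ‖∑ m ∈ Icc 1 ⌊(1 : ℝ)⌋₊, (fun _ => (1 : ℂ)) m * χ (m : ZMod q)‖ ^ 2 := by
    calc ∑ χ ∈ U, ‖∑ p ∈ P, a p * χ (p : ZMod q)‖ ^ (2 * l) ≤
        ∑ χ : DirichletCharacter ℂ q, ‖∑ p ∈ P, a p * χ (p : ZMod q)‖ ^ (2 * l) :=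
          sum_le_sum_of_subset_of_nonneg (subset_univ _) fun _ _ _ => by positivity
      _ = _ := sum_congr rfl fun χ _ => by rw [h2 χ, mul_one]
  refine (h3.trans (h4.trans h1)).trans ?_
  have hZl : 0 ≤ Z ^ l := by positivity
  calc ((q : ℝ) + Z ^ l * 1) * (2 * (l : ℝ) ^ l * Z ^ l * 1) ≤
      (Z ^ l + Z ^ l * 1) * (2 * (l : ℝ) ^ l * Z ^ l * 1) := by gcongr
    _ = 4 * (l : ℝ) ^ l * Z ^ (2 * l) := by rw [mul_comm 2 l, pow_mul]; ring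

theorem momw {f : ℕ → ℂ} (hf : CM f) {H v : ℕ} (hH : 32 ≤ H) (hv : 16 ≤ ex H v) (l : ℕ) {y : ℝ} (hy : 0 ≤ y) :
    ∑ χ : DirichletCharacter ℂ q, ‖QQ f H v χ‖ ^ (2 * l) * ‖SS f y χ‖ ^ 2 ≤
      ((q : ℝ) + ex H (v + 1) ^ l * y) * (2 * (l : ℝ) ^ l * ex H (v + 1) ^ l * y) := by
  obtain ⟨h1, h2, h3⟩ := Pw_good q hH hv
  exact moment h1 h2 h3 (ex_one_le _ _) hf.le hf.le l hy

theorem cntw {f : ℕ → ℂ} (hf : CM f) {H v : ℕ} (hH : 32 ≤ H) (hv : 16 ≤ ex H v)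
    {l : ℕ} (hl : (q : ℝ) ≤ ex H (v + 1) ^ l) {T : ℝ} (hT : 0 ≤ T) (U : Finset (DirichletCharacter ℂ q))
    (hU : ∀ χ ∈ U, T ≤ ‖QQ f H v χ‖) :
    (U.card : ℝ) * T ^ (2 * l) ≤ 4 * (l : ℝ) ^ l * ex H (v + 1) ^ (2 * l) := by
  obtain ⟨h1, h2, h3⟩ := Pw_good q hH hv
  exact cnt h1 h2 h3 (ex_one_le _ _) hf.le hl hT U hU

end Pool.Agent.Lib.MR
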