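import Pool.Agent.Lib.MR.Defs

/-!
# Module TK (25 minutes): Turán's second moment

`V = ∑_{p ∈ P} 1/p`, `om P n = ∑_{p ∈ P} 1[p ∣ n]`.
`tk1`: `∑_{n ≤ x} om^2 = ∑_{p,p'} #{n ≤ x : p ∣ n, p' ∣ n} ≤ x V^2 + x V` (`p ≠ p'`: `p p' ∣ n`, number `⌊x/(pp')⌋ ≤ x/(p p')`; `p = p'`: `≤ x/p`), `∑_{n ≤ x} om = ∑_p ⌊x/p⌋ ≥ x V - |P|`.
`∑ (V - om)^2 = x V^2 - 2 V ∑ om + ∑ om^2 ≤ x V^2 - 2V(xV - |P|) + x V^2 + x V = xV + 2V|P|`. (`Nat.card_multiples`, `Nat.Ioc_filter_dvd_card_eq_div`.)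
`tk2`: on `(x, y]` the number of multiples of `d ≥ 1` is at most `(y-x)/d + 1` (it is `⌊y/d⌋ - ⌊x/d⌋`); sum over the `|P|^2` pairs.
-/

set_option autoImplicit false

open Finset

namespace Pool.Agent.Lib.MR

private theorem tk_om (P : Finset ℕ) (n : ℕ) : (om P n : ℝ) = ∑ p ∈ P, if p ∣ n then (1 : ℝ) else 0 := by
  unfold om
  rw [card_filter]
  push_cast
  rfl

private theorem tk_card (s : Finset ℕ) (d : ℕ) :
    (∑ n ∈ s, if d ∣ n then (1 : ℝ) else 0) = ((s.filter fun n => d ∣ n).card : ℝ) := by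
  rw [card_filter]
  push_cast
  rfl

/-- the sum of squares from the number of multiples -/
private theorem tk_sq (P : Finset ℕ) (hP : ∀ p ∈ P, p.Prime) (s : Finset ℕ) (c e : ℝ) (hc : 0 ≤ c)
    (hs : ∀ d : ℕ, 1 ≤ d → ((s.filter fun n => d ∣ n).card : ℝ) ≤ c / d + e) :
    ∑ n ∈ s, (om P n : ℝ) ^ 2 ≤
      c * ((∑ p ∈ P, (1 : ℝ) / p) ^ 2 + ∑ p ∈ P, (1 : ℝ) / p) + (P.card : ℝ) ^ 2 * e := by
  have h1 : ∑ n ∈ s, (om P n : ℝ) ^ 2 =
      ∑ p ∈ P, ∑ r ∈ P, ∑ n ∈ s, (if p ∣ n then (1 : ℝ) else 0) * (if r ∣ n then (1 : ℝ) else 0) := by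
    have h2 : ∀ n ∈ s, (om P n : ℝ) ^ 2 =
        ∑ p ∈ P, ∑ r ∈ P, (if p ∣ n then (1 : ℝ) else 0) * (if r ∣ n then (1 : ℝ) else 0) := by
      intro n _
      rw [tk_om, sq, sum_mul_sum]
    rw [sum_congr rfl h2, sum_comm]
    exact sum_congr rfl fun p _ => sum_comm
  have h3 : ∀ p ∈ P, ∀ r ∈ P,
      ∑ n ∈ s, (if p ∣ n then (1 : ℝ) else 0) * (if r ∣ n then (1 : ℝ) else 0) ≤
        c * ((1 / p) * (1 / r)) + (if p = r then c * (1 / p) else 0) + e := by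
    intro p hp r hr
    have hp1 := (hP p hp).pos
    have hr1 := (hP r hr).pos
    have hp0 : (0 : ℝ) < p := by exact_mod_cast hp1
    have hr0 : (0 : ℝ) < r := by exact_mod_cast hr1
    by_cases hpr : p = r
    · subst hpr
      rw [if_pos rfl]
      have h4 : ∑ n ∈ s, (if p ∣ n then (1 : ℝ) else 0) * (if p ∣ n then (1 : ℝ) else 0) =
          ∑ n ∈ s, if p ∣ n then (1 : ℝ) else 0 := by
        refine sum_congr rfl fun n _ => ?_
        split_ifs <;> norm_num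
      rw [h4, tk_card]
      have h5 := hs p hp1
      have h6 : 0 ≤ c * ((1 / p) * (1 / p)) := by positivity
      have h7 : c / p = c * (1 / p) := by ring
      linarith
    · rw [if_neg hpr]
      have h4 : ∑ n ∈ s, (if p ∣ n then (1 : ℝ) else 0) * (if r ∣ n then (1 : ℝ) else 0) =
          ∑ n ∈ s, if p * r ∣ n then (1 : ℝ) else 0 := by
        refine sum_congr rfl fun n _ => ?_
        have hco : Nat.Coprime p r := (Nat.coprime_primes (hP p hp) (hP r hr)).2 hpr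
        by_cases h5 : p ∣ n
        · by_cases h6 : r ∣ n
          · rw [if_pos h5, if_pos h6, if_pos (hco.mul_dvd_of_dvd_of_dvd h5 h6), one_mul]
          · rw [if_neg h6, mul_zero, if_neg (fun h => h6 ((dvd_mul_left r p).trans h))]
        · rw [if_neg h5, zero_mul, if_neg (fun h => h5 ((dvd_mul_right p r).trans h))]
      rw [h4, tk_card]
      have h5 := hs (p * r) (Nat.mul_pos hp1 hr1)
      have h7 : c / ((p * r : ℕ) : ℝ) = c * ((1 / p) * (1 / r)) := by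
        push_cast
        field_simp
      linarith
  rw [h1]
  refine (sum_le_sum fun p hp => sum_le_sum fun r hr => h3 p hp r hr).trans (le_of_eq ?_)
  have h4 : ∀ p ∈ P, ∑ r ∈ P, (c * ((1 / (p : ℝ)) * (1 / r)) + (if p = r then c * (1 / (p : ℝ)) else 0) + e) =
      c * ((1 / p) * ∑ r ∈ P, (1 : ℝ) / r) + c * (1 / p) + P.card * e := by
    intro p hp
    rw [sum_add_distrib, sum_add_distrib, sum_const, nsmul_eq_mul, ← mul_sum, ← mul_sum]
    have h5 : ∑ r ∈ P, (if p = r then c * (1 / (p : ℝ)) else 0) = c * (1 / p) := by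
      rw [sum_ite_eq, if_pos hp]
    rw [h5]
  rw [sum_congr rfl h4, sum_add_distrib, sum_add_distrib, sum_const, nsmul_eq_mul, ← mul_sum,
    ← mul_sum, ← sum_mul]
  ring

private theorem tk_mult (x d : ℕ) : ((Ioc 0 x).filter fun n => d ∣ n).card = x / d :=
  Nat.Ioc_filter_dvd_card_eq_div x d

private theorem tk_Icc (x : ℕ) : Icc 1 x = Ioc 0 x := by
  ext n
  rw [mem_Icc, mem_Ioc]
  omega

private theorem tk_div (x d : ℕ) (hd : 1 ≤ d) : (x : ℝ) / d - 1 ≤ ((x / d : ℕ) : ℝ) := by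
  have hd0 : (0 : ℝ) < d := by exact_mod_cast hd
  have h1 : x < d * (x / d) + d := by
    have h2 := Nat.div_add_mod x d
    have h3 := Nat.mod_lt x hd
    omega
  have h4 : (x : ℝ) < d * ((x / d : ℕ) : ℝ) + d := by exact_mod_cast h1
  rw [sub_le_iff_le_add, div_le_iff₀ hd0]
  linarith

theorem tk1 (P : Finset ℕ) (hP : ∀ p ∈ P, p.Prime) (x : ℕ) :
    ∑ n ∈ Icc 1 x, ((∑ p ∈ P, (1 : ℝ) / p) - om P n) ^ 2 ≤
      x * (∑ p ∈ P, (1 : ℝ) / p) + 2 * (∑ p ∈ P, (1 : ℝ) / p) * P.card := by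
  obtain ⟨V, hV⟩ : ∃ V : ℝ, V = ∑ p ∈ P, (1 : ℝ) / p := ⟨_, rfl⟩
  have hV0 : 0 ≤ V := by rw [hV]; exact sum_nonneg fun _ _ => by positivity
  have h1 := tk_sq P hP (Icc 1 x) x 0 (Nat.cast_nonneg x) (fun d _ => by
    rw [tk_Icc, tk_mult, add_zero]
    exact Nat.cast_div_le)
  rw [← hV, mul_zero, add_zero] at h1
  have h2 : (x : ℝ) * V - P.card ≤ ∑ n ∈ Icc 1 x, (om P n : ℝ) := by
    have h3 : ∑ n ∈ Icc 1 x, (om P n : ℝ) = ∑ p ∈ P, ((x / p : ℕ) : ℝ) := by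
      rw [sum_congr rfl fun n _ => tk_om P n, sum_comm]
      refine sum_congr rfl fun p _ => ?_
      rw [tk_card, tk_Icc, tk_mult]
    have h4 : ∑ p ∈ P, ((x : ℝ) / p - 1) ≤ ∑ p ∈ P, ((x / p : ℕ) : ℝ) :=
      sum_le_sum fun p hp => tk_div x p (hP p hp).pos
    have h5 : ∑ p ∈ P, ((x : ℝ) / p - 1) = x * V - P.card := by
      rw [sum_sub_distrib, sum_const, nsmul_eq_mul, mul_one, hV, mul_sum]
      congr 1
      exact sum_congr rfl fun p _ => by ring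
    linarith
  have h3 : ∑ n ∈ Icc 1 x, (V - om P n) ^ 2 =
      x * V ^ 2 - 2 * V * ∑ n ∈ Icc 1 x, (om P n : ℝ) + ∑ n ∈ Icc 1 x, (om P n : ℝ) ^ 2 := by
    have h4 : ∀ n ∈ Icc 1 x, (V - om P n) ^ 2 = V ^ 2 - 2 * V * (om P n : ℝ) + (om P n : ℝ) ^ 2 :=
      fun n _ => by ring
    rw [sum_congr rfl h4, sum_add_distrib, sum_sub_distrib, sum_const, nsmul_eq_mul, Nat.card_Icc,
      Nat.add_sub_cancel, ← mul_sum]
  rw [← hV, h3]
  have h4 := mul_le_mul_of_nonneg_left h2 (by positivity : 0 ≤ 2 * V)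
  nlinarith [h4, h1]

theorem tk2 (P : Finset ℕ) (hP : ∀ p ∈ P, p.Prime) {x y : ℕ} (hxy : x ≤ y) :
    ∑ n ∈ Ioc x y, (om P n : ℝ) ^ 2 ≤
      ((y : ℝ) - x) * ((∑ p ∈ P, (1 : ℝ) / p) ^ 2 + ∑ p ∈ P, (1 : ℝ) / p) + (P.card : ℝ) ^ 2 := by
  have hxy' : (x : ℝ) ≤ y := by exact_mod_cast hxy
  have h1 := tk_sq P hP (Ioc x y) ((y : ℝ) - x) 1 (by linarith) (fun d hd => by
    have h2 : ((Ioc 0 y).filter fun n => d ∣ n).card =
        ((Ioc 0 x).filter fun n => d ∣ n).card + ((Ioc x y).filter fun n => d ∣ n).card := by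
      rw [← card_union_of_disjoint, ← filter_union, Ioc_union_Ioc_eq_Ioc (Nat.zero_le x) hxy]
      refine disjoint_filter_filter ?_
      rw [Finset.disjoint_left]
      intro a h3 h4
      rw [mem_Ioc] at h3 h4
      omega
    rw [tk_mult, tk_mult] at h2
    have h3 : ((y / d : ℕ) : ℝ) = ((x / d : ℕ) : ℝ) + (((Ioc x y).filter fun n => d ∣ n).card : ℝ) := by
      exact_mod_cast h2
    have h4 := tk_div x d hd
    have h5 : ((y / d : ℕ) : ℝ) ≤ (y : ℝ) / d := Nat.cast_div_le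
    have h6 : ((y : ℝ) - x) / d = y / d - x / d := by ring
    rw [h6]
    linarith)
  rw [mul_one] at h1
  exact h1

end Pool.Agent.Lib.MR
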