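import Pool.Agent.Lib.MR.Dec
import Pool.Agent.Lib.MR.MV
import Pool.Agent.Lib.MR.TK

/-!
# Module DecM (30 minutes): the mass of the error and the main inequality of a level

`decm`: `dec`, `mv` with `N = ⌊x ex H 1⌋₊ ≤ 3x` (`ex_one`), so `q + N ≤ 4x`; `∑ |c|^2 ≤ ∑_{n ≤ x} (V - om)^2 + ∑_{x < n ≤ N} om^2 ≤ xV + 2V|P| + (N - x)(V^2 + V) + |P|^2` (`tk1`, `tk2`; `x ≤ N` as `ex H 1 ≥ 1`);
`N - x ≤ 2x/H`, `|P| ≤ ex H b` (`PP_card`), `|P|^2 ≤ x/H ≤ x`, hence `|P| ≤ x`; with `V ≥ 1`: `≤ 3xV + 5 x V^2/H`; times `4x`: `12 x^2 V + 20 x^2 V^2/H`.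
`dect`: `V S = (V S - ∑) + ∑`, `|u + w|^2 ≤ 2|u|^2 + 2|w|^2`, Cauchy `|∑_v Q_v S_v|^2 ≤ (b - a) ∑_v |Q_v|^2 |S_v|^2`; divide by `V^2 ≥ 1`.
-/

set_option autoImplicit false

open Finset

namespace Pool.Agent.Lib.MR

variable {q : ℕ} [NeZero q] {f : ℕ → ℂ} {H a b x : ℕ}

theorem decm (hf : CM f) (hH : 1 ≤ H) (hab : a ≤ b) (hqx : q ≤ x) (hV : 1 ≤ VV q H a b)
    (hx : ex H b ^ 2 ≤ (x : ℝ) / H) :
    ∑ χ : DirichletCharacter ℂ q, ‖(VV q H a b : ℂ) * SS f x χ -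
        ∑ v ∈ Ico a b, QQ f H v χ * SS f (x / ex H v) χ‖ ^ 2 ≤
      VV q H a b ^ 2 * ((x : ℝ) ^ 2 * (12 / VV q H a b + 20 / H)) := by
  obtain ⟨c, hc1, hc2, hc⟩ := dec (q := q) hf hH hab x
  obtain ⟨N, hN⟩ : ∃ N, N = ⌊(x : ℝ) * ex H 1⌋₊ := ⟨_, rfl⟩
  obtain ⟨V, hVd⟩ : ∃ V, V = VV q H a b := ⟨_, rfl⟩
  obtain ⟨P, hPd⟩ : ∃ P, P = PP q H a b := ⟨_, rfl⟩
  have hVP : V = ∑ p ∈ P, (1 : ℝ) / p := by rw [hVd, hPd, VV]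
  have hPprime : ∀ p ∈ P, p.Prime := fun p hp => by
    rw [hPd, mem_PP] at hp
    exact hp.1
  simp_rw [hc]
  rw [← hN]
  refine (mv N c).trans ?_
  rw [← hVd] at hV hc1 ⊢
  rw [← hPd] at hc1 hc2
  have hH' : (1 : ℝ) ≤ H := by exact_mod_cast hH
  have hx0 : (0 : ℝ) ≤ x := Nat.cast_nonneg x
  obtain ⟨he1, he3⟩ := ex_one hH
  have he0 := ex_one_le H 1
  have hN1 : (N : ℝ) ≤ x * ex H 1 := by
    rw [hN]
    exact Nat.floor_le (mul_nonneg hx0 (ex_pos _ _).le)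
  have hxN : x ≤ N := by
    rw [hN]
    exact Nat.le_floor (le_mul_of_one_le_right hx0 he0)
  have hN3 : (N : ℝ) ≤ 3 * x := by nlinarith
  have hNx : (N : ℝ) - x ≤ 2 * (x / H) := by
    have h1 : (x : ℝ) * ex H 1 ≤ x * (1 + 2 / H) := mul_le_mul_of_nonneg_left he1 hx0
    have h2 : (x : ℝ) * (1 + 2 / H) = x + 2 * (x / H) := by ring
    linarith
  have hNx0 : (0 : ℝ) ≤ (N : ℝ) - x := by
    have : (x : ℝ) ≤ N := by exact_mod_cast hxN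
    linarith
  have hxH : (x : ℝ) / H ≤ x := div_le_self hx0 hH'
  have hcard : (P.card : ℝ) ≤ ex H b := by
    rw [hPd]
    exact PP_card q H a b
  have hcard2 : (P.card : ℝ) ^ 2 ≤ x / H :=
    (pow_le_pow_left₀ (Nat.cast_nonneg _) hcard 2).trans hx
  have hcard1 : (P.card : ℝ) ≤ x := by
    have h1 : P.card ≤ P.card ^ 2 := Nat.le_self_pow (by norm_num) _
    have h2 : (P.card : ℝ) ≤ (P.card : ℝ) ^ 2 := by exact_mod_cast h1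
    linarith
  have hsplit : ∑ n ∈ Icc 1 N, ‖c n‖ ^ 2 = ∑ n ∈ Icc 1 x, ‖c n‖ ^ 2 + ∑ n ∈ Ioc x N, ‖c n‖ ^ 2 := by
    have h1 := Finset.sum_Ioc_consecutive (fun n => ‖c n‖ ^ 2) (Nat.zero_le x) hxN
    have h2 : ∀ M : ℕ, Ioc 0 M = Icc 1 M := fun M => rfl
    rw [h2, h2] at h1
    exact h1.symm
  have h1 : ∑ n ∈ Icc 1 x, ‖c n‖ ^ 2 ≤ x * V + 2 * V * P.card := by
    have h2 := tk1 P hPprime x
    rw [← hVP] at h2
    refine le_trans (sum_le_sum fun n hn => ?_) h2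
    rw [← sq_abs (V - _)]
    exact pow_le_pow_left₀ (norm_nonneg _) (hc1 n (mem_Icc.1 hn).2) 2
  have h2 : ∑ n ∈ Ioc x N, ‖c n‖ ^ 2 ≤ ((N : ℝ) - x) * (V ^ 2 + V) + (P.card : ℝ) ^ 2 := by
    have h3 := tk2 P hPprime hxN
    rw [← hVP] at h3
    refine le_trans (sum_le_sum fun n hn => ?_) h3
    exact pow_le_pow_left₀ (norm_nonneg _) (hc2 n (mem_Ioc.1 hn).1) 2
  have hVV : V ≤ V ^ 2 := by nlinarith
  have hxH0 : (0 : ℝ) ≤ x / H := by positivity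
  have h3 : ∑ n ∈ Icc 1 N, ‖c n‖ ^ 2 ≤ 3 * x * V + 5 * (x / H) * V ^ 2 := by
    rw [hsplit]
    have h4 : ((N : ℝ) - x) * (V ^ 2 + V) ≤ 2 * (x / H) * (2 * V ^ 2) :=
      mul_le_mul hNx (by linarith) (by positivity) (by positivity)
    have h5 : 2 * V * (P.card : ℝ) ≤ 2 * V * x := mul_le_mul_of_nonneg_left hcard1 (by linarith)
    have h6 : (x : ℝ) / H ≤ x / H * V ^ 2 := le_mul_of_one_le_right hxH0 (by nlinarith)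
    linarith
  have h4 : (q : ℝ) + N ≤ 4 * x := by
    have : (q : ℝ) ≤ x := by exact_mod_cast hqx
    linarith
  have hV0 : V ≠ 0 := by
    intro h
    rw [h] at hV
    linarith
  have hH0 : (H : ℝ) ≠ 0 := by
    intro h
    rw [h] at hH'
    linarith
  calc ((q : ℝ) + N) * ∑ n ∈ Icc 1 N, ‖c n‖ ^ 2 ≤
        4 * x * (3 * x * V + 5 * (x / H) * V ^ 2) :=
        mul_le_mul h4 h3 (sum_nonneg fun _ _ => by positivity) (by positivity)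
    _ = V ^ 2 * ((x : ℝ) ^ 2 * (12 / V + 20 / H)) := by
        field_simp
        ring

theorem dect (hf : CM f) (hH : 1 ≤ H) (hab : a ≤ b) (hqx : q ≤ x) (hV : 1 ≤ VV q H a b)
    (hx : ex H b ^ 2 ≤ (x : ℝ) / H) (T : Finset (DirichletCharacter ℂ q)) :
    ∑ χ ∈ T, ‖SS f x χ‖ ^ 2 ≤ 2 * ((b : ℝ) - a) * ∑ v ∈ Ico a b, ∑ χ ∈ T,
        ‖QQ f H v χ‖ ^ 2 * ‖SS f (x / ex H v) χ‖ ^ 2 + (x : ℝ) ^ 2 * (24 / VV q H a b + 40 / H) := by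
  have h0 := decm hf hH hab hqx hV hx
  obtain ⟨V, hVd⟩ : ∃ V, V = VV q H a b := ⟨_, rfl⟩
  rw [← hVd] at h0 hV ⊢
  have hba : (0 : ℝ) ≤ (b : ℝ) - a := by
    have : (a : ℝ) ≤ b := by exact_mod_cast hab
    linarith
  obtain ⟨M, hM⟩ : ∃ M, M = ∑ v ∈ Ico a b, ∑ χ ∈ T,
      ‖QQ f H v χ‖ ^ 2 * ‖SS f (x / ex H v) χ‖ ^ 2 := ⟨_, rfl⟩
  rw [← hM]
  have hM0 : 0 ≤ M := by
    rw [hM]
    exact sum_nonneg fun _ _ => sum_nonneg fun _ _ => by positivity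
  have h1 : ∀ χ : DirichletCharacter ℂ q, V ^ 2 * ‖SS f x χ‖ ^ 2 ≤
      2 * ‖(V : ℂ) * SS f x χ - ∑ v ∈ Ico a b, QQ f H v χ * SS f (x / ex H v) χ‖ ^ 2 +
      2 * (((b : ℝ) - a) * ∑ v ∈ Ico a b, ‖QQ f H v χ‖ ^ 2 * ‖SS f (x / ex H v) χ‖ ^ 2) := by
    intro χ
    have h2 : V ^ 2 * ‖SS f x χ‖ ^ 2 = ‖(V : ℂ) * SS f x χ‖ ^ 2 := by
      rw [norm_mul, Complex.norm_real, mul_pow, Real.norm_eq_abs, sq_abs]
    have h3 : ‖(V : ℂ) * SS f x χ‖ ≤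
        ‖(V : ℂ) * SS f x χ - ∑ v ∈ Ico a b, QQ f H v χ * SS f (x / ex H v) χ‖ +
        ∑ v ∈ Ico a b, ‖QQ f H v χ‖ * ‖SS f (x / ex H v) χ‖ := by
      have h4 := norm_add_le ((V : ℂ) * SS f x χ -
        ∑ v ∈ Ico a b, QQ f H v χ * SS f (x / ex H v) χ)
        (∑ v ∈ Ico a b, QQ f H v χ * SS f (x / ex H v) χ)
      rw [sub_add_cancel] at h4
      refine h4.trans (add_le_add le_rfl ((norm_sum_le _ _).trans (le_of_eq ?_)))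
      exact sum_congr rfl fun v _ => norm_mul _ _
    have h4 : (∑ v ∈ Ico a b, ‖QQ f H v χ‖ * ‖SS f (x / ex H v) χ‖) ^ 2 ≤
        ((b : ℝ) - a) * ∑ v ∈ Ico a b, ‖QQ f H v χ‖ ^ 2 * ‖SS f (x / ex H v) χ‖ ^ 2 := by
      have h5 := sq_sum_le_card_mul_sum_sq (s := Ico a b)
        (f := fun v => ‖QQ f H v χ‖ * ‖SS f (x / ex H v) χ‖)
      rw [Nat.card_Ico, Nat.cast_sub hab] at h5
      refine h5.trans (le_of_eq ?_)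
      congr 1
      exact sum_congr rfl fun v _ => mul_pow _ _ _
    rw [h2]
    obtain ⟨A, hA⟩ : ∃ A, A = ‖(V : ℂ) * SS f x χ -
      ∑ v ∈ Ico a b, QQ f H v χ * SS f (x / ex H v) χ‖ := ⟨_, rfl⟩
    obtain ⟨B, hB⟩ : ∃ B, B = ∑ v ∈ Ico a b, ‖QQ f H v χ‖ * ‖SS f (x / ex H v) χ‖ := ⟨_, rfl⟩
    rw [← hA, ← hB] at h3
    rw [← hB] at h4
    rw [← hA]
    have h5 : ‖(V : ℂ) * SS f x χ‖ ^ 2 ≤ (A + B) ^ 2 := pow_le_pow_left₀ (norm_nonneg _) h3 2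
    have h6 : (A + B) ^ 2 ≤ 2 * A ^ 2 + 2 * B ^ 2 := by nlinarith [sq_nonneg (A - B)]
    linarith
  have h2 : V ^ 2 * ∑ χ ∈ T, ‖SS f x χ‖ ^ 2 ≤
      2 * (V ^ 2 * ((x : ℝ) ^ 2 * (12 / V + 20 / H))) + 2 * (((b : ℝ) - a) * M) := by
    rw [mul_sum]
    refine (sum_le_sum fun χ _ => h1 χ).trans ?_
    rw [sum_add_distrib, ← mul_sum, ← mul_sum, ← mul_sum, sum_comm (s := T), ← hM]
    refine add_le_add (mul_le_mul_of_nonneg_left (le_trans ?_ h0) (by norm_num)) le_rfl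
    exact sum_le_sum_of_subset_of_nonneg (subset_univ T) fun _ _ _ => by positivity
  have hV2 : 1 ≤ V ^ 2 := by nlinarith
  have hV20 : 0 < V ^ 2 := by linarith
  have h3 : V ^ 2 * ∑ χ ∈ T, ‖SS f x χ‖ ^ 2 ≤
      V ^ 2 * (2 * ((b : ℝ) - a) * M + (x : ℝ) ^ 2 * (24 / V + 40 / H)) := by
    have h4 : 2 * (((b : ℝ) - a) * M) ≤ V ^ 2 * (2 * (((b : ℝ) - a) * M)) :=
      le_mul_of_one_le_left (by positivity) hV2
    refine h2.trans ?_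
    have h5 : V ^ 2 * (2 * ((b : ℝ) - a) * M + (x : ℝ) ^ 2 * (24 / V + 40 / H)) =
        2 * (V ^ 2 * ((x : ℝ) ^ 2 * (12 / V + 20 / H))) + V ^ 2 * (2 * (((b : ℝ) - a) * M)) := by
      ring
    rw [h5]
    linarith
  exact le_of_mul_le_mul_left h3 hV20

end Pool.Agent.Lib.MR
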