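import Pool.Agent.Lib.MP_7b7e48_nt.RG.NOS

/-!
# Theorem MRq (Matomäki–Radziwiłł for the characters of one modulus): definitions

`f` is completely multiplicative with `|f| ≤ 1`, `χ` runs over the Dirichlet characters modulo `q`, `x = A q` with `A` constant.
The windows of primes are `(e^(v/H), e^((v+1)/H)]`, primes dividing `q` are left out.
A level is a natural number `E`; its windows are `v ∈ [E^2, E^3)` with `H = E`, so its primes are those in `(e^E, e^(E^2)]`.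
-/

set_option autoImplicit false

open Finset

namespace Pool.Agent.Lib.MR

/-- `e^(v/H)` -/
noncomputable def ex (H v : ℕ) : ℝ := Real.exp ((v : ℝ) / H)

/-- the primes in `(e^(v/H), e^((v+1)/H)]` which do not divide `q` -/
noncomputable def Pw (q H v : ℕ) : Finset ℕ :=
  (Icc 1 ⌊ex H (v + 1)⌋₊).filter fun p => p.Prime ∧ ¬ p ∣ q ∧ ex H v < p

/-- the primes in `(e^(a/H), e^(b/H)]` which do not divide `q` -/
noncomputable def PP (q H a b : ℕ) : Finset ℕ :=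
  (Icc 1 ⌊ex H b⌋₊).filter fun p => p.Prime ∧ ¬ p ∣ q ∧ ex H a < p

/-- the sum of their reciprocals -/
noncomputable def VV (q H a b : ℕ) : ℝ := ∑ p ∈ PP q H a b, (1 : ℝ) / p

/-- number of elements of `P` which divide `n` -/
def om (P : Finset ℕ) (n : ℕ) : ℕ := (P.filter (fun p => p ∣ n)).card

/-- number of prime factors in `P`, with multiplicity -/
def Om (P : Finset ℕ) (n : ℕ) : ℕ := ∑ p ∈ P, padicValNat p n

/-- `∑_{n ≤ y} f(n) χ(n)` -/
noncomputable def SS {q : ℕ} (f : ℕ → ℂ) (y : ℝ) (χ : DirichletCharacter ℂ q) : ℂ :=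
  ∑ n ∈ Icc 1 ⌊y⌋₊, f n * χ (n : ZMod q)

/-- `∑ f(p) χ(p)` over the primes of a window -/
noncomputable def QQ {q : ℕ} (f : ℕ → ℂ) (H v : ℕ) (χ : DirichletCharacter ℂ q) : ℂ :=
  ∑ p ∈ Pw q H v, f p * χ (p : ZMod q)

/-- completely multiplicative and bounded by one -/
structure CM (f : ℕ → ℂ) : Prop where
  mul : ∀ m n, f (m * n) = f m * f n
  le : ∀ n, ‖f n‖ ≤ 1

/-- the exponent of level `E` -/
noncomputable def al (E : ℕ) : ℝ := 1 / 5 - (E : ℝ) ^ (-(1 / 4 : ℝ))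

/-- the character is small at level `E` -/
def small {q : ℕ} (f : ℕ → ℂ) (E : ℕ) (χ : DirichletCharacter ℂ q) : Prop :=
  ∀ v ∈ Ico (E ^ 2) (E ^ 3), ‖QQ f E v χ‖ ≤ Real.exp ((1 - al E) * ((v : ℝ) / E))

theorem ex_pos (H v : ℕ) : 0 < ex H v := Real.exp_pos _

theorem ex_one_le (H v : ℕ) : 1 ≤ ex H v := Real.one_le_exp (by positivity)

theorem ex_mono {H v w : ℕ} (h : v ≤ w) : ex H v ≤ ex H w :=
  Real.exp_le_exp.mpr (div_le_div_of_nonneg_right (by exact_mod_cast h) (Nat.cast_nonneg _))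

theorem mem_Pw {q H v p : ℕ} : p ∈ Pw q H v ↔ p.Prime ∧ ¬ p ∣ q ∧ ex H v < p ∧ (p : ℝ) ≤ ex H (v + 1) := by
  unfold Pw
  rw [mem_filter, mem_Icc]
  constructor
  · rintro ⟨⟨_, h2⟩, h3, h4, h5⟩
    exact ⟨h3, h4, h5, (Nat.le_floor_iff (ex_pos _ _).le).mp h2⟩
  · rintro ⟨h3, h4, h5, h6⟩
    exact ⟨⟨h3.one_le, (Nat.le_floor_iff (ex_pos _ _).le).mpr h6⟩, h3, h4, h5⟩

theorem mem_PP {q H a b p : ℕ} : p ∈ PP q H a b ↔ p.Prime ∧ ¬ p ∣ q ∧ ex H a < p ∧ (p : ℝ) ≤ ex H b := by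
  unfold PP
  rw [mem_filter, mem_Icc]
  constructor
  · rintro ⟨⟨_, h2⟩, h3, h4, h5⟩
    exact ⟨h3, h4, h5, (Nat.le_floor_iff (ex_pos _ _).le).mp h2⟩
  · rintro ⟨h3, h4, h5, h6⟩
    exact ⟨⟨h3.one_le, (Nat.le_floor_iff (ex_pos _ _).le).mpr h6⟩, h3, h4, h5⟩

theorem VV_nonneg (q H a b : ℕ) : 0 ≤ VV q H a b := sum_nonneg fun _ _ => by positivity

theorem norm_chi_le {q : ℕ} [NeZero q] (χ : DirichletCharacter ℂ q) (x : ZMod q) : ‖χ x‖ ≤ 1 :=
  DirichletCharacter.norm_le_one χ x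

end Pool.Agent.Lib.MR
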