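import Mathlib
import Pool.Agent.Lib.MR.Defs

/-!
# Module FinN (35 minutes): numerics of the last level

`hq = ⌈log log q⌉₊`, `g1 = ⌈√(log q)⌉₊`, `g2 = ⌊log q/40⌋₊`.
`finn1`: `e^(2 g2) ≤ q^(1/20) ≤ q/hq`; `hq g2 ≤ (log q)^2`, so the last quantity is at most `6 (log q)^4/(log q)^20 → 0`.
`finn2`: `log g2 - log g1 ≥ log(log q/80) - log(2 √(log q)) = (1/2) loglog q - log 160`.
`finbn`: `l = ⌈log q/(u + 1/hq)⌉₊ ≤ √(log q) + 1 ≤ 2 √(log q)` (`u ≥ √(log q)`), `hq ≥ 1`: the left side is `≤ log 4 + 2√(log q)(loglog q + 2 + 20 loglog q) + 2 loglog q = o(log q)`.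
-/

set_option autoImplicit false

open Finset

namespace Pool.Agent.Lib.MR

/-- parameters of the last level -/
noncomputable def hq (q : ℕ) : ℕ := ⌈Real.log (Real.log q)⌉₊
/-- parameters of the last level -/
noncomputable def g1 (q : ℕ) : ℕ := ⌈Real.sqrt (Real.log q)⌉₊
/-- parameters of the last level -/
noncomputable def g2 (q : ℕ) : ℕ := ⌊Real.log q / 40⌋₊

private theorem FinN_ev (P : ℝ → Prop) (h : ∀ᶠ L : ℝ in Filter.atTop, P L) :
    ∃ q0 : ℕ, ∀ q : ℕ, q0 ≤ q → 1 ≤ q ∧ P (Real.log q) := by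
  obtain ⟨q0, h0⟩ := Filter.eventually_atTop.mp
    ((Real.tendsto_log_atTop.comp tendsto_natCast_atTop_atTop).eventually h)
  exact ⟨max q0 1, fun q hq => ⟨(le_max_right _ _).trans hq, h0 q ((le_max_left _ _).trans hq)⟩⟩

private theorem FinN_log (C a : ℝ) (ha : 0 < a) :
    ∀ᶠ L : ℝ in Filter.atTop, C * Real.log L ≤ L ^ a := by
  have h2 : ∀ᶠ L : ℝ in Filter.atTop, ‖Real.log L‖ ≤ (1 / (|C| + 1)) * ‖L ^ a‖ :=
    (isLittleO_log_rpow_atTop ha).bound (by positivity)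
  filter_upwards [Filter.eventually_ge_atTop 1, h2] with L hL e2
  have hlog : 0 ≤ Real.log L := Real.log_nonneg hL
  have hLa : 0 < L ^ a := by positivity
  rw [Real.norm_eq_abs, abs_of_nonneg hlog, Real.norm_eq_abs, abs_of_pos hLa] at e2
  calc C * Real.log L ≤ (|C| + 1) * Real.log L := by
        gcongr
        linarith [le_abs_self C]
    _ ≤ (|C| + 1) * ((1 / (|C| + 1)) * L ^ a) := by gcongr
    _ = L ^ a := by
        have : |C| + 1 ≠ 0 := by positivity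
        field_simp

/-- the basic bounds -/
private theorem FinN_base {L : ℝ} (hL : 6400 ≤ L) (hlog : 1 ≤ Real.log L) :
    1 ≤ ⌈Real.log L⌉₊ ∧ (⌈Real.log L⌉₊ : ℝ) ≤ L ∧ 1 ≤ ⌈Real.sqrt L⌉₊ ∧
      (⌈Real.sqrt L⌉₊ : ℝ) ≤ 2 * Real.sqrt L ∧ ⌈Real.sqrt L⌉₊ ≤ ⌊L / 40⌋₊ ∧
      L / 80 ≤ ⌊L / 40⌋₊ ∧ (⌊L / 40⌋₊ : ℝ) ≤ L / 40 := by
  have hL0 : 0 < L := by linarith
  have hs : 80 ≤ Real.sqrt L := Real.le_sqrt_of_sq_le (by linarith)
  have hss : Real.sqrt L * Real.sqrt L = L := Real.mul_self_sqrt hL0.le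
  have hc1 := Nat.ceil_lt_add_one (show 0 ≤ Real.log L by linarith)
  have hc2 := Nat.ceil_lt_add_one (show 0 ≤ Real.sqrt L by linarith)
  have hf := Nat.lt_floor_add_one (L / 40)
  have hll : Real.log L ≤ L - 1 := Real.log_le_sub_one_of_pos hL0
  have h5 : (⌈Real.sqrt L⌉₊ : ℝ) ≤ L / 40 := by nlinarith
  refine ⟨Nat.one_le_iff_ne_zero.2 (Nat.ceil_pos.2 (by linarith)).ne', by linarith,
    Nat.one_le_iff_ne_zero.2 (Nat.ceil_pos.2 (by linarith)).ne', by linarith,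
    Nat.le_floor h5, by linarith, Nat.floor_le (by positivity)⟩

theorem finn1 {η : ℝ} (hη : 0 < η) (M : ℕ) : ∃ q0 : ℕ, ∀ q : ℕ, q0 ≤ q → M ≤ hq q ∧ 1 ≤ g1 q ∧ M ≤ g1 q ∧ g1 q ≤ g2 q ∧
    ex (hq q) (hq q * g2 q) ^ 2 ≤ (q : ℝ) / hq q ∧ ex (hq q) (hq q * g2 q) ≤ (q : ℝ) ^ (1 / 40 : ℝ) ∧
    2 * ((hq q : ℝ) * g2 q) * (((hq q : ℝ) * g2 q) * (3 / Real.log q ^ 20)) ≤ η := by
  have hev : ∀ᶠ L : ℝ in Filter.atTop, 6400 ≤ L ∧ 1 ≤ Real.log L ∧ (M : ℝ) ≤ Real.log L ∧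
      (M : ℝ) ^ 2 ≤ L ∧ 6 / η ≤ L := by
    filter_upwards [Filter.eventually_ge_atTop 6400, Real.tendsto_log_atTop.eventually_ge_atTop 1,
      Real.tendsto_log_atTop.eventually_ge_atTop (M : ℝ),
      Filter.eventually_ge_atTop ((M : ℝ) ^ 2), Filter.eventually_ge_atTop (6 / η)]
      with L h1 h2 h3 h4 h5
    exact ⟨h1, h2, h3, h4, h5⟩
  obtain ⟨q0, h0⟩ := FinN_ev _ hev
  refine ⟨q0, fun q hqq => ?_⟩
  obtain ⟨hq1, hL, hlog, hM1, hM2, hηL⟩ := h0 q hqq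
  obtain ⟨b1, b2, b3, b4, b5, b6, b7⟩ := FinN_base hL hlog
  have hq0 : (0 : ℝ) < q := by exact_mod_cast hq1
  have e1 : hq q = ⌈Real.log (Real.log q)⌉₊ := rfl
  have e2 : g1 q = ⌈Real.sqrt (Real.log q)⌉₊ := rfl
  have e3 : g2 q = ⌊Real.log q / 40⌋₊ := rfl
  rw [← e1] at b1 b2
  rw [← e2] at b3 b4 b5
  rw [← e3] at b5 b6 b7
  have hexpL : Real.exp (Real.log q) = q := Real.exp_log hq0
  clear h0
  generalize hLd : Real.log (q : ℝ) = L at *
  have hL0 : 0 < L := by linarith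
  have hh0 : (0 : ℝ) < hq q := by exact_mod_cast b1
  have hex : ex (hq q) (hq q * g2 q) = Real.exp (g2 q) := by
    unfold ex
    congr 1
    push_cast
    field_simp
  refine ⟨?_, b3, ?_, b5, ?_, ?_, ?_⟩
  · have h1 : (M : ℝ) ≤ hq q := by
      refine hM1.trans ?_
      rw [e1]
      exact Nat.le_ceil _
    exact_mod_cast h1
  · have h1 : (M : ℝ) ≤ g1 q := by
      rw [e2]
      exact (Real.le_sqrt_of_sq_le hM2).trans (Nat.le_ceil _)
    exact_mod_cast h1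
  · rw [hex, le_div_iff₀ hh0, ← Real.exp_nat_mul]
    have h1 : (hq q : ℝ) ≤ Real.exp (L / 2) := by
      have h2 : L ≤ Real.exp (L / 2) := by
        have h3 := Real.quadratic_le_exp_of_nonneg (show 0 ≤ L / 2 by positivity)
        nlinarith
      linarith
    calc Real.exp (((2 : ℕ) : ℝ) * g2 q) * hq q ≤ Real.exp (L / 2) * Real.exp (L / 2) := by
          have h4 : ((2 : ℕ) : ℝ) * g2 q ≤ L / 2 := by
            push_cast
            linarith
          have h5 := Real.exp_le_exp.2 h4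
          gcongr
      _ = Real.exp L := by
          rw [← Real.exp_add]
          congr 1
          ring
      _ = q := hexpL
  · rw [hex, ← hexpL, ← Real.exp_mul]
    apply Real.exp_le_exp.2
    linarith
  · have h1 : (hq q : ℝ) * g2 q ≤ L * L := by
      have : (g2 q : ℝ) ≤ L := by linarith
      gcongr
    have h0' : 0 ≤ (hq q : ℝ) * g2 q := by positivity
    calc 2 * ((hq q : ℝ) * g2 q) * (((hq q : ℝ) * g2 q) * (3 / L ^ 20)) ≤
          2 * (L * L) * ((L * L) * (3 / L ^ 20)) := by gcongr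
      _ = 6 / L ^ 16 := by
          field_simp
          ring
      _ ≤ η := by
          rw [div_le_iff₀ (by positivity)]
          have h2 : L ≤ L ^ 16 := le_self_pow₀ (by linarith) (by norm_num)
          rw [div_le_iff₀ hη] at hηL
          nlinarith

theorem finn2 (M : ℝ) : ∃ q0 : ℕ, ∀ q : ℕ, q0 ≤ q → M ≤ Real.log (g2 q) - Real.log (g1 q) := by
  have hev : ∀ᶠ L : ℝ in Filter.atTop, 6400 ≤ L ∧ 1 ≤ Real.log L ∧
      2 * (M + Real.log 160) ≤ Real.log L := by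
    filter_upwards [Filter.eventually_ge_atTop 6400, Real.tendsto_log_atTop.eventually_ge_atTop 1,
      Real.tendsto_log_atTop.eventually_ge_atTop (2 * (M + Real.log 160))] with L h1 h2 h3
    exact ⟨h1, h2, h3⟩
  obtain ⟨q0, h0⟩ := FinN_ev _ hev
  refine ⟨q0, fun q hqq => ?_⟩
  obtain ⟨hq1, hL, hlog, hM⟩ := h0 q hqq
  obtain ⟨b1, b2, b3, b4, b5, b6, b7⟩ := FinN_base hL hlog
  have e2 : g1 q = ⌈Real.sqrt (Real.log q)⌉₊ := rfl
  have e3 : g2 q = ⌊Real.log q / 40⌋₊ := rfl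
  rw [← e2] at b3 b4 b5
  rw [← e3] at b5 b6 b7
  clear h0
  generalize hLd : Real.log (q : ℝ) = L at *
  have hL0 : 0 < L := by linarith
  have h1 : Real.log L - Real.log 80 ≤ Real.log (g2 q) := by
    rw [← Real.log_div hL0.ne' (by norm_num)]
    exact Real.log_le_log (by positivity) b6
  have hg1 : (0 : ℝ) < g1 q := by exact_mod_cast b3
  have h2 : Real.log (g1 q) ≤ Real.log 2 + Real.log L / 2 := by
    rw [← Real.log_sqrt hL0.le, ← Real.log_mul (by norm_num) (Real.sqrt_pos.2 hL0).ne']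
    exact Real.log_le_log hg1 b4
  have h3 : Real.log 160 = Real.log 2 + Real.log 80 := by
    rw [← Real.log_mul (by norm_num) (by norm_num)]
    norm_num
  linarith

theorem finbn {ε : ℝ} (hε : 0 < ε) : ∃ q0 : ℕ, ∀ q : ℕ, q0 ≤ q → ∀ u : ℝ, (g1 q : ℝ) ≤ u →
    Real.log 4 + ⌈Real.log q / (u + 1 / hq q)⌉₊ * Real.log ⌈Real.log q / (u + 1 / hq q)⌉₊ +
      2 * ⌈Real.log q / (u + 1 / hq q)⌉₊ / hq q + 20 * ⌈Real.log q / (u + 1 / hq q)⌉₊ * Real.log (Real.log q) +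
      Real.log ((hq q : ℝ) * g2 q) ≤ ε * Real.log q := by
  have hev : ∀ᶠ L : ℝ in Filter.atTop, 6400 ≤ L ∧ 2 ≤ Real.log L ∧
      50 / ε * Real.log L ≤ L ^ (1 / 2 : ℝ) := by
    filter_upwards [Filter.eventually_ge_atTop 6400, Real.tendsto_log_atTop.eventually_ge_atTop 2,
      FinN_log (50 / ε) (1 / 2) (by norm_num)] with L h1 h2 h3
    exact ⟨h1, h2, h3⟩
  obtain ⟨q0, h0⟩ := FinN_ev _ hev
  refine ⟨q0, fun q hqq u hu => ?_⟩
  obtain ⟨hq1, hL, hlog, hE⟩ := h0 q hqq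
  obtain ⟨b1, b2, b3, b4, b5, b6, b7⟩ := FinN_base hL (by linarith)
  have e1 : hq q = ⌈Real.log (Real.log q)⌉₊ := rfl
  have e2 : g1 q = ⌈Real.sqrt (Real.log q)⌉₊ := rfl
  have e3 : g2 q = ⌊Real.log q / 40⌋₊ := rfl
  have hgs : Real.sqrt (Real.log q) ≤ g1 q := Nat.le_ceil _
  rw [← e1] at b1 b2
  rw [← e2] at b3 b4 b5
  rw [← e3] at b5 b6 b7
  clear h0
  generalize hLd : Real.log (q : ℝ) = L at *
  have hL0 : 0 < L := by linarith
  rw [← Real.sqrt_eq_rpow] at hE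
  have hs : 80 ≤ Real.sqrt L := Real.le_sqrt_of_sq_le (by linarith)
  have hss : Real.sqrt L * Real.sqrt L = L := Real.mul_self_sqrt hL0.le
  have hh0 : (0 : ℝ) < hq q := by exact_mod_cast b1
  have hh1 : (1 : ℝ) ≤ hq q := by exact_mod_cast b1
  have hu' : Real.sqrt L ≤ u + 1 / hq q := by
    have : 0 < 1 / (hq q : ℝ) := by positivity
    linarith
  have hl1 : (⌈L / (u + 1 / hq q)⌉₊ : ℝ) ≤ 2 * Real.sqrt L := by
    have h1 : L / (u + 1 / hq q) ≤ Real.sqrt L := by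
      rw [div_le_iff₀ (by linarith)]
      nlinarith
    have h2 : 0 ≤ L / (u + 1 / hq q) := div_nonneg hL0.le (by linarith)
    have h3 := Nat.ceil_lt_add_one h2
    linarith
  generalize ⌈L / (u + 1 / hq q)⌉₊ = l at *
  clear hev
  generalize ht : Real.log L = t at *
  have h2l : Real.log 2 < 0.7 := by
    have := Real.log_two_lt_d9
    linarith
  have hl2 : Real.log l ≤ t := by
    rcases Nat.eq_zero_or_pos l with h | h
    · subst h
      simp
      linarith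
    · have h1 : Real.log l ≤ Real.log 2 + t / 2 := by
        rw [← ht, ← Real.log_sqrt hL0.le, ← Real.log_mul (by norm_num) (Real.sqrt_pos.2 hL0).ne']
        exact Real.log_le_log (by exact_mod_cast h) hl1
      linarith
  have hl0 : (0 : ℝ) ≤ l := Nat.cast_nonneg l
  have ht0 : 0 ≤ t := by linarith
  have a1 : (l : ℝ) * Real.log l ≤ 2 * Real.sqrt L * t := by
    calc (l : ℝ) * Real.log l ≤ l * t := by gcongr
      _ ≤ 2 * Real.sqrt L * t := by gcongr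
  have a2 : 2 * (l : ℝ) / hq q ≤ 4 * Real.sqrt L := by
    rw [div_le_iff₀ hh0]
    nlinarith
  have a3 : 20 * (l : ℝ) * t ≤ 40 * Real.sqrt L * t := by
    have : 20 * (l : ℝ) ≤ 40 * Real.sqrt L := by linarith
    gcongr
  have a4 : Real.log ((hq q : ℝ) * g2 q) ≤ 2 * t := by
    have h1 : (0 : ℝ) < g2 q := by
      have : (0 : ℝ) < L / 80 := by positivity
      linarith
    have h2 : (hq q : ℝ) * g2 q ≤ L * L := by
      have : (g2 q : ℝ) ≤ L := by linarith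
      gcongr
    have h3 := Real.log_le_log (by positivity) h2
    rw [Real.log_mul hL0.ne' hL0.ne', ht] at h3
    linarith
  have a5 : Real.log 4 ≤ 2 := by
    have : Real.log 4 = 2 * Real.log 2 := by
      rw [show (4 : ℝ) = 2 ^ 2 by norm_num, Real.log_pow]
      norm_num
    linarith
  have a6 : 50 * t * Real.sqrt L ≤ ε * L := by
    have h1 : 50 * t ≤ ε * Real.sqrt L := by
      have h2 : 50 / ε * t * ε = 50 * t := by
        field_simp
      nlinarith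
    calc 50 * t * Real.sqrt L ≤ ε * Real.sqrt L * Real.sqrt L := by gcongr
      _ = ε * L := by rw [mul_assoc, hss]
  have a7 : 0 ≤ (t - 2) * (Real.sqrt L - 80) := mul_nonneg (by linarith) (by linarith)
  nlinarith

end Pool.Agent.Lib.MR
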