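import Pool.Agent.Lib.MR.Defs
import Pool.Agent.Lib.MP_79499b_co.Q38MertensAP

/-!
# Module PrS (35 minutes): sums over primes

`recip_dvd`: `φ(q)/q = ∏_{p ∣ q} (1 - 1/p) ≤ exp(- ∑_{p ∣ q} 1/p)` (`Nat.totient_eq_mul_prod_factors`, `1 - t ≤ exp(-t)`), so `∑ 1/p ≤ log(q/φ(q)) ≤ log(1/κ)`.
`VV_ge`: the primes in `(e^g, e^(g')]`: Mertens (`mertens_all`, `msum_one_le` of `Q38MertensAP`, there `msum 1 0 x = ∑_{p ≤ x} 1/p` over the primes, `x` a natural number `≥ 3`): with `x' = ⌊e^(g')⌋₊`, `x = ⌊e^g⌋₊`: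
`∑_{x < p ≤ x'} 1/p ≥ log log x' - log log x - C ≥ log g' - log g - C'` (`log x ≤ g`; `log x' ≥ g' - 1`, for `g' ≥ 2` `log(g'-1) ≥ log g' - 1`; small cases `g' ≤ 2` or `x < 3` by enlarging `C`: the left side of the claim is then `≤ 0`
or use `g ≥ 2`; note `VV ≥ 0` always). A prime `p` with `e^g < p` is `> x` and conversely. Remove the primes dividing `q` (`recip_dvd`). `ex H (H g) = e^g` (`H ≥ 1`).
`VV_lev`: `g = E`, `g' = E^2` (`E^2 = E * E`, `E^3 = E * E^2`), `log E - C ≥ (1/2) log E`.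
-/

set_option autoImplicit false

open Finset

namespace Pool.Agent.Lib.MR

theorem recip_dvd {κ : ℝ} (hκ : 0 < κ) {q : ℕ} (hq : 1 ≤ q) (h : κ * q ≤ q.totient) :
    ∑ p ∈ q.primeFactors, (1 : ℝ) / p ≤ - Real.log κ := by
  have hq0 : (0 : ℝ) < q := by exact_mod_cast hq
  have h1 : (q.totient : ℝ) = q * ∏ p ∈ q.primeFactors, (1 - ((p : ℝ))⁻¹) := by
    have h2 := Nat.totient_eq_mul_prod_factors q
    have h2' : ((q.totient : ℚ) : ℝ) =
        (((q : ℚ) * ∏ p ∈ q.primeFactors, (1 - ((p : ℚ))⁻¹) : ℚ) : ℝ) := by rw [h2]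
    push_cast at h2'
    exact h2'
  have h3 : ∏ p ∈ q.primeFactors, (1 - ((p : ℝ))⁻¹) ≤
      Real.exp (-∑ p ∈ q.primeFactors, (1 : ℝ) / p) := by
    rw [← sum_neg_distrib, Real.exp_sum]
    refine prod_le_prod (fun p hp => ?_) (fun p hp => ?_)
    · have hp1 : (1 : ℝ) ≤ p := by exact_mod_cast (Nat.prime_of_mem_primeFactors hp).one_le
      have := inv_le_one_of_one_le₀ hp1
      linarith
    · have := Real.add_one_le_exp (-((1 : ℝ) / p))
      rw [one_div] at this ⊢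
      linarith
  have h4 : κ ≤ Real.exp (-∑ p ∈ q.primeFactors, (1 : ℝ) / p) := by
    rw [h1, mul_comm κ] at h
    exact (le_of_mul_le_mul_left h hq0).trans h3
  have h5 := Real.log_le_log hκ h4
  rw [Real.log_exp] at h5
  linarith

private theorem PrS_ex (H g : ℕ) (hH : 1 ≤ H) : ex H (H * g) = Real.exp g := by
  unfold ex
  have : (H : ℝ) ≠ 0 := by
    have : (0 : ℝ) < H := by exact_mod_cast hH
    exact this.ne'
  congr 1
  push_cast
  field_simp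

theorem VV_ge {κ : ℝ} (hκ : 0 < κ) : ∃ C : ℝ, ∀ q : ℕ, 1 ≤ q → κ * q ≤ q.totient → ∀ H g g' : ℕ, 1 ≤ H → 1 ≤ g →
    g ≤ g' → Real.log g' - Real.log g - C ≤ VV q H (H * g) (H * g') := by
  obtain ⟨C1, hC1⟩ := Pool.Agent.Lib.MP_79499b_co.Q38.mertens_all
  obtain ⟨C2, hC20, hC2⟩ := Pool.Agent.Lib.MP_79499b_co.Q38.msum_one_le
  refine ⟨C1 + C2 + Real.log 2 - Real.log κ, fun q hq hqκ H g g' hH hg hgg => ?_⟩
  have hg1 : (1 : ℝ) ≤ g := by exact_mod_cast hg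
  have hgg' : (g : ℝ) ≤ g' := by exact_mod_cast hgg
  have hg1' : (1 : ℝ) ≤ g' := hg1.trans hgg'
  have he : (2 : ℝ) ≤ Real.exp 1 := by
    have := Real.add_one_le_exp (1 : ℝ)
    linarith
  have hx3 : ∀ k : ℕ, (1 : ℝ) ≤ k → 3 ≤ ⌊Real.exp k⌋₊ + 1 := by
    intro k hk
    have h1 : (2 : ℝ) ≤ Real.exp k := he.trans (Real.exp_le_exp.2 hk)
    have : 2 ≤ ⌊Real.exp k⌋₊ := Nat.le_floor (by exact_mod_cast h1)
    omega
  have k1 := hC1 (⌊Real.exp g'⌋₊ + 1) (hx3 g' hg1')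
  have k2 := hC2 (⌊Real.exp g⌋₊ + 1) (hx3 g hg1)
  -- logarithms
  have l1 : Real.log g' ≤ Real.log (Real.log ((⌊Real.exp g'⌋₊ + 1 : ℕ) : ℝ)) := by
    apply Real.log_le_log (by linarith)
    rw [Real.le_log_iff_exp_le (by positivity)]
    push_cast
    exact (Nat.lt_floor_add_one _).le
  have l2 : Real.log (Real.log ((⌊Real.exp g⌋₊ + 1 : ℕ) : ℝ)) ≤ Real.log g + Real.log 2 := by
    have m1 : ((⌊Real.exp g⌋₊ + 1 : ℕ) : ℝ) ≤ Real.exp (g + 1) := by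
      push_cast
      have m2 : (⌊Real.exp g⌋₊ : ℝ) ≤ Real.exp g := Nat.floor_le (Real.exp_pos _).le
      have m3 : 1 ≤ Real.exp g := Real.one_le_exp (by linarith)
      rw [Real.exp_add]
      nlinarith
    have m4 : Real.log ((⌊Real.exp g⌋₊ + 1 : ℕ) : ℝ) ≤ g + 1 := by
      rw [Real.log_le_iff_le_exp (by positivity)]
      exact m1
    have m5 : 0 < Real.log ((⌊Real.exp g⌋₊ + 1 : ℕ) : ℝ) := by
      apply Real.log_pos
      have h3 : (3 : ℝ) ≤ ((⌊Real.exp g⌋₊ + 1 : ℕ) : ℝ) := by exact_mod_cast hx3 g hg1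
      linarith
    rw [← Real.log_mul (by linarith) (by norm_num)]
    apply Real.log_le_log m5
    linarith
  have hr := recip_dvd hκ hq hqκ
  have hsub : (range (⌊Real.exp g'⌋₊ + 1)).filter (fun p => p.Prime ∧ p % 1 = 0) ⊆
      ((range (⌊Real.exp g⌋₊ + 1)).filter (fun p => p.Prime ∧ p % 1 = 0) ∪
        PP q H (H * g) (H * g')) ∪ q.primeFactors := by
    intro p hp
    rw [mem_filter, mem_range] at hp
    obtain ⟨hp1, hpp, -⟩ := hp
    rw [mem_union, mem_union, mem_filter, mem_range]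
    by_cases h1 : p < ⌊Real.exp g⌋₊ + 1
    · exact Or.inl (Or.inl ⟨h1, hpp, Nat.mod_one p⟩)
    · by_cases h2 : p ∣ q
      · exact Or.inr (Nat.mem_primeFactors.2 ⟨hpp, h2, by omega⟩)
      · refine Or.inl (Or.inr ?_)
        rw [mem_PP, PrS_ex H g hH, PrS_ex H g' hH]
        refine ⟨hpp, h2, ?_, ?_⟩
        · have h3 : ⌊Real.exp g⌋₊ < p := by omega
          exact (Nat.floor_lt (Real.exp_pos _).le).1 h3
        · have h3 : p ≤ ⌊Real.exp g'⌋₊ := by omega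
          exact (Nat.le_floor_iff (Real.exp_pos _).le).1 h3
  have hU : ∀ A B : Finset ℕ, ∑ p ∈ A ∪ B, ((p : ℝ))⁻¹ ≤
      ∑ p ∈ A, ((p : ℝ))⁻¹ + ∑ p ∈ B, ((p : ℝ))⁻¹ := by
    intro A B
    rw [← sum_union_inter]
    have : 0 ≤ ∑ p ∈ A ∩ B, ((p : ℝ))⁻¹ := sum_nonneg fun _ _ => by positivity
    linarith
  have hs1 := sum_le_sum_of_subset_of_nonneg (f := fun p : ℕ => ((p : ℝ))⁻¹) hsub
    (fun _ _ _ => by positivity)
  have hs2 := hU ((range (⌊Real.exp g⌋₊ + 1)).filter (fun p => p.Prime ∧ p % 1 = 0) ∪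
        PP q H (H * g) (H * g')) q.primeFactors
  have hs3 := hU ((range (⌊Real.exp g⌋₊ + 1)).filter (fun p => p.Prime ∧ p % 1 = 0))
        (PP q H (H * g) (H * g'))
  unfold Pool.Agent.Lib.MP_79499b_co.Q38.msum at k1 k2
  have hV : VV q H (H * g) (H * g') = ∑ p ∈ PP q H (H * g) (H * g'), ((p : ℝ))⁻¹ := by
    unfold VV
    exact sum_congr rfl fun p _ => one_div _
  have hR : ∑ p ∈ q.primeFactors, (1 : ℝ) / p = ∑ p ∈ q.primeFactors, ((p : ℝ))⁻¹ :=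
    sum_congr rfl fun p _ => one_div _
  rw [hV]
  rw [hR] at hr
  linarith

theorem VV_lev {κ : ℝ} (hκ : 0 < κ) : ∃ E1 : ℕ, ∀ E : ℕ, E1 ≤ E → ∀ q : ℕ, 1 ≤ q → κ * q ≤ q.totient →
    1 / 2 * Real.log E ≤ VV q E (E ^ 2) (E ^ 3) := by
  obtain ⟨C, hC⟩ := VV_ge hκ
  refine ⟨max 1 ⌈Real.exp (2 * C)⌉₊, fun E hE q hq hqκ => ?_⟩
  have h1 : 1 ≤ E := (le_max_left _ _).trans hE
  have h2 : ⌈Real.exp (2 * C)⌉₊ ≤ E := (le_max_right _ _).trans hE
  have h3 : Real.exp (2 * C) ≤ E := (Nat.le_ceil _).trans (by exact_mod_cast h2)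
  have hE0 : (0 : ℝ) < E := by exact_mod_cast h1
  have h4 : 2 * C ≤ Real.log E := by
    rw [Real.le_log_iff_exp_le hE0]
    exact h3
  have h5 := hC q hq hqκ E E (E ^ 2) h1 h1 (by nlinarith)
  have h6 : E * E = E ^ 2 := by ring
  have h7 : E * E ^ 2 = E ^ 3 := by ring
  rw [h6, h7] at h5
  have h8 : Real.log ((E ^ 2 : ℕ) : ℝ) = 2 * Real.log E := by
    push_cast
    rw [Real.log_pow]
    norm_num
  rw [h8] at h5
  linarith

end Pool.Agent.Lib.MR
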