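import Pool.Agent.Lib.MR.HM
import Pool.Agent.Lib.MR.DecM
import Pool.Agent.Lib.MR.PrS
import Pool.Agent.Lib.MR.FinN

/-!
# Module Fin (35 minutes): the last level

PROOF. `dect` with `H = hq`, `a = hq g1`, `b = hq g2`: `V ≥ log g2 - log g1 - C → ∞` (`VV_ge`, `finn2`), `ex H b ^2 ≤ q/hq ≤ x/hq` (`finn1`); error `x^2(24/V + 40/hq) ≤ (η/2) x^2` for `q` large (`hq ≥ M`).
Main term: `‖Q_v‖^2 ≤ ex H v ^2/(log q)^20`; `hm` with `y = x/ex H v ≥ q^(39/40)` (`ex H v ≤ ex H b ≤ q^(1/40)`): `∑_{U} ‖S(y)‖^2 ≤ y (y + τ(q) + |U| PB q) ≤ 3 y^2` for `q` large (`RG.PB_le` with `e = 1/200`: `τ(q) ≤ C q^(1/200)`, `|U| PB q ≤ C q^(9/20 + 1/2 + 1/200)`, both `≤ q^(39/40)`);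
so the main term is at most `2(b-a) (b-a) 3 x^2/(log q)^20 ≤ (η/2) x^2` (`finn1` with `η/2`).
-/

set_option autoImplicit false

open Finset

namespace Pool.Agent.Lib.MR

theorem fin {κ η : ℝ} (hκ : 0 < κ) (hη : 0 < η) : ∃ q0 : ℕ, ∀ (q : ℕ) [NeZero q], q0 ≤ q → κ * q ≤ q.totient →
    ∀ x : ℕ, q ≤ x → ∀ f : ℕ → ℂ, CM f → ∀ U : Finset (DirichletCharacter ℂ q), (U.card : ℝ) ≤ (q : ℝ) ^ (9 / 20 : ℝ) →
    (∀ χ ∈ U, ∀ v ∈ Ico (hq q * g1 q) (hq q * g2 q), ‖QQ f (hq q) v χ‖ ≤ ex (hq q) v / Real.log q ^ 10) →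
    ∑ χ ∈ U, ‖SS f x χ‖ ^ 2 ≤ η * (x : ℝ) ^ 2 := by
  obtain ⟨C, hC⟩ := VV_ge hκ
  obtain ⟨CP, hCP, hPB⟩ := RG.PB_le (1 / 200) (by norm_num)
  obtain ⟨q1, hq1⟩ := finn1 (η := η / 2) (by positivity) (⌈160 / η⌉₊ + 1)
  obtain ⟨q2, hq2⟩ := finn2 (C + 96 / η + 1)
  have hlim : Filter.Tendsto (fun N : ℕ => (N : ℝ) ^ ((1 : ℝ) / 50)) Filter.atTop Filter.atTop :=
    (tendsto_rpow_atTop (by norm_num)).comp tendsto_natCast_atTop_atTop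
  obtain ⟨q3, hq3⟩ := Filter.eventually_atTop.1 (hlim.eventually_ge_atTop CP)
  refine ⟨q1 + q2 + q3 + 3, fun q _ hqq hφ x hqx f hf U hU hQ => ?_⟩
  obtain ⟨hMH, hg1, -, hg12, hb2, hb40, hmain⟩ := hq1 q (by omega)
  have hVlog := hq2 q (by omega)
  have hC50 := hq3 q (by omega)
  obtain ⟨hPBq, hτq⟩ := hPB q (by omega)
  set H := hq q with hH
  set a := H * g1 q with ha
  set b := H * g2 q with hb
  have hqR : (3 : ℝ) ≤ q := by exact_mod_cast (by omega : 3 ≤ q)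
  have hq0 : (0 : ℝ) < q := by linarith
  have hq1' : (1 : ℝ) ≤ q := by linarith
  have hxR : (q : ℝ) ≤ x := by exact_mod_cast hqx
  have hx0 : (0 : ℝ) < x := by linarith
  have hH1 : 1 ≤ H := by omega
  have hHR : (160 / η + 1 : ℝ) ≤ H := by
    have h1 : ((⌈160 / η⌉₊ + 1 : ℕ) : ℝ) ≤ H := by exact_mod_cast hMH
    push_cast at h1
    have h2 := Nat.le_ceil (160 / η)
    linarith
  have hH0 : (0 : ℝ) < H := by
    have : 0 < 160 / η := by positivity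
    linarith
  have hab : a ≤ b := Nat.mul_le_mul_left _ hg12
  have hV : 96 / η + 1 ≤ VV q H a b := by
    have h1 := hC q (by omega) hφ H (g1 q) (g2 q) hH1 hg1 hg12
    rw [← ha, ← hb] at h1
    linarith
  have hη96 : 0 < 96 / η := by positivity
  have hV1 : 1 ≤ VV q H a b := by linarith
  have hxb : ex H b ^ 2 ≤ (x : ℝ) / H :=
    hb2.trans (div_le_div_of_nonneg_right hxR hH0.le)
  have hL : 0 < Real.log q := Real.log_pos (by linarith)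
  have hmainU : ∀ v ∈ Ico a b, ∑ χ ∈ U, ‖QQ f H v χ‖ ^ 2 * ‖SS f (x / ex H v) χ‖ ^ 2 ≤
      3 * (x : ℝ) ^ 2 / Real.log q ^ 20 := by
    intro v hv
    have hev := ex_pos H v
    set y : ℝ := x / ex H v with hy
    have hy0 : 0 < y := div_pos hx0 hev
    have hexb : ex H v ≤ (q : ℝ) ^ (1 / 40 : ℝ) :=
      (ex_mono (mem_Ico.mp hv).2.le).trans hb40
    have hy39 : (q : ℝ) ^ (39 / 40 : ℝ) ≤ y := by
      rw [hy, le_div_iff₀ hev]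
      calc (q : ℝ) ^ (39 / 40 : ℝ) * ex H v ≤ (q : ℝ) ^ (39 / 40 : ℝ) * (q : ℝ) ^ (1 / 40 : ℝ) :=
            mul_le_mul_of_nonneg_left hexb (Real.rpow_nonneg hq0.le _)
        _ = q := by
            rw [← Real.rpow_add hq0]
            norm_num
        _ ≤ x := hxR
    have hτ : (q.divisors.card : ℝ) ≤ y := by
      refine (hτq.trans ?_).trans hy39
      calc CP * (q : ℝ) ^ (1 / 200 : ℝ) ≤ (q : ℝ) ^ (1 / 50 : ℝ) * (q : ℝ) ^ (1 / 200 : ℝ) :=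
            mul_le_mul_of_nonneg_right hC50 (Real.rpow_nonneg hq0.le _)
        _ = (q : ℝ) ^ (1 / 50 + 1 / 200 : ℝ) := (Real.rpow_add hq0 _ _).symm
        _ ≤ (q : ℝ) ^ (39 / 40 : ℝ) := Real.rpow_le_rpow_of_exponent_le hq1' (by norm_num)
    have hPU : (U.card : ℝ) * RG.PB q ≤ y := by
      refine le_trans ?_ hy39
      calc (U.card : ℝ) * RG.PB q ≤ (q : ℝ) ^ (9 / 20 : ℝ) * (CP * (q : ℝ) ^ (1 / 2 + 1 / 200 : ℝ)) :=
            mul_le_mul hU hPBq (by unfold RG.PB; positivity) (Real.rpow_nonneg hq0.le _)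
        _ ≤ (q : ℝ) ^ (9 / 20 : ℝ) * ((q : ℝ) ^ (1 / 50 : ℝ) * (q : ℝ) ^ (1 / 2 + 1 / 200 : ℝ)) := by
            refine mul_le_mul_of_nonneg_left ?_ (Real.rpow_nonneg hq0.le _)
            exact mul_le_mul_of_nonneg_right hC50 (Real.rpow_nonneg hq0.le _)
        _ = (q : ℝ) ^ (39 / 40 : ℝ) := by
            rw [← Real.rpow_add hq0, ← Real.rpow_add hq0]
            norm_num
    have hS := hm (show 2 ≤ q by omega) hf hy0.le U
    have hS3 : ∑ χ ∈ U, ‖SS f y χ‖ ^ 2 ≤ 3 * y ^ 2 := by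
      refine hS.trans ?_
      nlinarith
    have h1 : ∀ χ ∈ U, ‖QQ f H v χ‖ ^ 2 * ‖SS f y χ‖ ^ 2 ≤
        (ex H v ^ 2 / Real.log q ^ 20) * ‖SS f y χ‖ ^ 2 := by
      intro χ hχ
      refine mul_le_mul_of_nonneg_right ?_ (by positivity)
      have h2 := hQ χ hχ v hv
      calc ‖QQ f H v χ‖ ^ 2 ≤ (ex H v / Real.log q ^ 10) ^ 2 :=
            pow_le_pow_left₀ (norm_nonneg _) h2 2
        _ = ex H v ^ 2 / Real.log q ^ 20 := by
            rw [div_pow, ← pow_mul]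
    calc ∑ χ ∈ U, ‖QQ f H v χ‖ ^ 2 * ‖SS f y χ‖ ^ 2
        ≤ ∑ χ ∈ U, (ex H v ^ 2 / Real.log q ^ 20) * ‖SS f y χ‖ ^ 2 := sum_le_sum h1
      _ = (ex H v ^ 2 / Real.log q ^ 20) * ∑ χ ∈ U, ‖SS f y χ‖ ^ 2 := by rw [mul_sum]
      _ ≤ (ex H v ^ 2 / Real.log q ^ 20) * (3 * y ^ 2) :=
          mul_le_mul_of_nonneg_left hS3 (by positivity)
      _ = 3 * (x : ℝ) ^ 2 / Real.log q ^ 20 := by
          rw [hy]
          field_simp
  have hdec := dect hf hH1 hab hqx hV1 hxb U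
  refine hdec.trans ?_
  have hsum : ∑ v ∈ Ico a b, ∑ χ ∈ U, ‖QQ f H v χ‖ ^ 2 * ‖SS f (x / ex H v) χ‖ ^ 2 ≤
      (b : ℝ) * (3 * (x : ℝ) ^ 2 / Real.log q ^ 20) := by
    refine (sum_le_sum hmainU).trans ?_
    rw [sum_const, nsmul_eq_mul, Nat.card_Ico]
    refine mul_le_mul_of_nonneg_right ?_ (by positivity)
    exact_mod_cast Nat.sub_le _ _
  have hb' : (b : ℝ) = (H : ℝ) * g2 q := by
    rw [hb]
    push_cast
    ring
  have hb0 : (0 : ℝ) ≤ b := Nat.cast_nonneg _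
  have hsum0 : 0 ≤ ∑ v ∈ Ico a b, ∑ χ ∈ U, ‖QQ f H v χ‖ ^ 2 * ‖SS f (x / ex H v) χ‖ ^ 2 :=
    sum_nonneg fun _ _ => sum_nonneg fun _ _ => by positivity
  have hfirst : 2 * ((b : ℝ) - a) * ∑ v ∈ Ico a b, ∑ χ ∈ U,
      ‖QQ f H v χ‖ ^ 2 * ‖SS f (x / ex H v) χ‖ ^ 2 ≤ η / 2 * (x : ℝ) ^ 2 := by
    calc 2 * ((b : ℝ) - a) * ∑ v ∈ Ico a b, ∑ χ ∈ U,
        ‖QQ f H v χ‖ ^ 2 * ‖SS f (x / ex H v) χ‖ ^ 2
        ≤ 2 * (b : ℝ) * ∑ v ∈ Ico a b, ∑ χ ∈ U,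
          ‖QQ f H v χ‖ ^ 2 * ‖SS f (x / ex H v) χ‖ ^ 2 := by
          refine mul_le_mul_of_nonneg_right ?_ hsum0
          have : (0 : ℝ) ≤ a := Nat.cast_nonneg _
          linarith
      _ ≤ 2 * (b : ℝ) * ((b : ℝ) * (3 * (x : ℝ) ^ 2 / Real.log q ^ 20)) :=
          mul_le_mul_of_nonneg_left hsum (by positivity)
      _ = (2 * ((H : ℝ) * g2 q) * (((H : ℝ) * g2 q) * (3 / Real.log q ^ 20))) * (x : ℝ) ^ 2 := by
          rw [hb']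
          ring
      _ ≤ η / 2 * (x : ℝ) ^ 2 := mul_le_mul_of_nonneg_right hmain (by positivity)
  have h24 : 24 / VV q H a b ≤ η / 4 := by
    rw [div_le_iff₀ (by linarith)]
    have h1 : 96 / η ≤ VV q H a b := by linarith
    rw [div_le_iff₀ hη] at h1
    linarith
  have h40 : 40 / (H : ℝ) ≤ η / 4 := by
    rw [div_le_iff₀ hH0]
    have h1 : 160 / η ≤ H := by linarith
    rw [div_le_iff₀ hη] at h1
    linarith
  have hsecond : (x : ℝ) ^ 2 * (24 / VV q H a b + 40 / H) ≤ (x : ℝ) ^ 2 * (η / 2) :=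
    mul_le_mul_of_nonneg_left (by linarith) (by positivity)
  linarith

end Pool.Agent.Lib.MR
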