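import Pool.Agent.Lib.MR.FinN
import Pool.Agent.Lib.MR.Mom

/-!
# Module FinB (25 minutes): the exceptional set is small

PROOF. `B ⊆ ∪_v B_v`; `cntw` with `H = hq q ≥ 32`, `u = v/H ≥ g1` (`ex H v = e^u ≥ 16`), `T = e^u/(log q)^10`, `Z = e^(u+1/H)`, `l = ⌈log q/(u + 1/H)⌉₊` (so `Z^l ≥ q`):
`|B_v| ≤ 4 l^l e^(2l/H) (log q)^(20 l)`; the number of `v` is at most `hq g2`; `finbn`.
-/

set_option autoImplicit false

open Finset

namespace Pool.Agent.Lib.MR

private theorem finb_card {q : ℕ} (B : Finset (DirichletCharacter ℂ q)) (s : Finset ℕ)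
    (P : ℕ → DirichletCharacter ℂ q → Prop) [∀ v, DecidablePred (P v)]
    (hB : ∀ χ ∈ B, ∃ v ∈ s, P v χ) : (B.card : ℝ) ≤ ∑ v ∈ s, ((B.filter (P v)).card : ℝ) := by
  classical
  have h1 : B ⊆ s.biUnion fun v => B.filter (P v) := by
    intro χ hχ
    obtain ⟨v, hv, hp⟩ := hB χ hχ
    rw [mem_biUnion]
    exact ⟨v, hv, mem_filter.mpr ⟨hχ, hp⟩⟩
  calc (B.card : ℝ) ≤ ((s.biUnion fun v => B.filter (P v)).card : ℝ) := by exact_mod_cast card_le_card h1
    _ ≤ ((∑ v ∈ s, (B.filter (P v)).card : ℕ) : ℝ) := by exact_mod_cast card_biUnion_le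
    _ = ∑ v ∈ s, ((B.filter (P v)).card : ℝ) := by push_cast; rfl

private theorem natpow_exp (l : ℕ) : ((l : ℝ) ^ l) = Real.exp ((l : ℝ) * Real.log l) := by
  rcases Nat.eq_zero_or_pos l with h | h
  · subst h; simp
  · have hl : (0 : ℝ) < l := by exact_mod_cast h
    rw [mul_comm, ← Real.rpow_def_of_pos hl, Real.rpow_natCast]

theorem finb {ε : ℝ} (hε : 0 < ε) : ∃ q0 : ℕ, ∀ (q : ℕ) [NeZero q], q0 ≤ q → ∀ f : ℕ → ℂ, CM f →
    ∀ B : Finset (DirichletCharacter ℂ q),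
    (∀ χ ∈ B, ∃ v ∈ Ico (hq q * g1 q) (hq q * g2 q), ex (hq q) v / Real.log q ^ 10 < ‖QQ f (hq q) v χ‖) →
    (B.card : ℝ) ≤ (q : ℝ) ^ ε := by
  classical
  obtain ⟨q1, hq1⟩ := finn1 (η := 1) one_pos 32
  obtain ⟨q2, hq2⟩ := finbn hε
  refine ⟨max (max q1 q2) 3, ?_⟩
  intro q _ hq0 f hf B hB
  have hqq1 : q1 ≤ q := le_trans (le_trans (le_max_left _ _) (le_max_left _ _)) hq0
  have hqq2 : q2 ≤ q := le_trans (le_trans (le_max_right _ _) (le_max_left _ _)) hq0
  have hq3 : 3 ≤ q := le_trans (le_max_right _ _) hq0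
  obtain ⟨hH, -, hg1, hg12, -, -, -⟩ := hq1 q hqq1
  have hfn := hq2 q hqq2
  set H := hq q with hHdef
  have hH0 : (0 : ℝ) < H := by
    have : 0 < H := by omega
    exact_mod_cast this
  have hqr : (3 : ℝ) ≤ q := by exact_mod_cast hq3
  have hqpos : (0 : ℝ) < q := by linarith
  have hL1 : 1 < Real.log q := by
    rw [Real.lt_log_iff_exp_lt hqpos]
    have := Real.exp_one_lt_d9
    linarith
  have hL0 : 0 < Real.log q := by linarith
  set L := Real.log q with hLdef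
  have hg2pos : (0 : ℝ) < (H : ℝ) * g2 q := by
    have : 0 < g2 q := by omega
    have : (0 : ℝ) < g2 q := by exact_mod_cast this
    positivity
  -- the bound for each v
  have hv : ∀ v ∈ Ico (H * g1 q) (H * g2 q),
      ((B.filter fun χ => ex H v / L ^ 10 < ‖QQ f H v χ‖).card : ℝ) ≤ (q : ℝ) ^ ε / ((H : ℝ) * g2 q) := by
    intro v hv
    rw [mem_Ico] at hv
    have hu : (g1 q : ℝ) ≤ (v : ℝ) / H := by
      rw [le_div_iff₀ hH0]
      have : H * g1 q ≤ v := hv.1
      have h2 : ((H * g1 q : ℕ) : ℝ) ≤ (v : ℝ) := by exact_mod_cast this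
      push_cast at h2
      linarith
    have hg1r : (32 : ℝ) ≤ g1 q := by exact_mod_cast hg1
    set u : ℝ := (v : ℝ) / H with hudef
    have hexv : ex H v = Real.exp u := rfl
    have hex16 : 16 ≤ ex H v := by
      rw [hexv]
      have := Real.add_one_le_exp u
      linarith
    have hu1 : ex H (v + 1) = Real.exp (u + 1 / H) := by
      unfold ex
      congr 1
      push_cast
      rw [hudef]
      field_simp
    set w : ℝ := u + 1 / H with hwdef
    have hHinv : 0 < 1 / (H : ℝ) := by positivity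
    have hw : 0 < w := by linarith
    set l : ℕ := ⌈L / w⌉₊ with hldef
    have hl : L ≤ (l : ℝ) * w := by
      have h1 : L / w ≤ l := Nat.le_ceil _
      rwa [div_le_iff₀ hw] at h1
    have hZl : (q : ℝ) ≤ ex H (v + 1) ^ l := by
      rw [hu1, ← Real.exp_nat_mul]
      calc (q : ℝ) = Real.exp L := by rw [hLdef, Real.exp_log hqpos]
        _ ≤ Real.exp ((l : ℝ) * w) := Real.exp_le_exp.mpr hl
    have hT0 : 0 ≤ ex H v / L ^ 10 := by
      have := ex_pos H v
      positivity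
    have hc := cntw hf hH hex16 hZl hT0 (B.filter fun χ => ex H v / L ^ 10 < ‖QQ f H v χ‖)
      (fun χ hχ => (mem_filter.mp hχ).2.le)
    -- solve for the cardinality
    have hTpos : 0 < (ex H v / L ^ 10) ^ (2 * l) := by
      have := ex_pos H v
      positivity
    have hcard : ((B.filter fun χ => ex H v / L ^ 10 < ‖QQ f H v χ‖).card : ℝ) ≤
        4 * (l : ℝ) ^ l * ex H (v + 1) ^ (2 * l) / (ex H v / L ^ 10) ^ (2 * l) := by
      rw [le_div_iff₀ hTpos]
      exact hc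
    have hLL : L = Real.exp (Real.log L) := (Real.exp_log hL0).symm
    have heq : 4 * (l : ℝ) ^ l * ex H (v + 1) ^ (2 * l) / (ex H v / L ^ 10) ^ (2 * l) =
        Real.exp (Real.log 4 + l * Real.log l + 2 * l / H + 20 * l * Real.log L) := by
      rw [natpow_exp, hu1, hexv]
      have h4 : (4 : ℝ) = Real.exp (Real.log 4) := (Real.exp_log (by norm_num)).symm
      have hL10 : L ^ 10 = Real.exp (10 * Real.log L) := by
        rw [show (10 : ℝ) * Real.log L = ((10 : ℕ) : ℝ) * Real.log L by norm_num, Real.exp_nat_mul, Real.exp_log hL0]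
      rw [hL10, ← Real.exp_sub, ← Real.exp_nat_mul, ← Real.exp_nat_mul]
      nth_rewrite 1 [h4]
      rw [← Real.exp_add, ← Real.exp_add, ← Real.exp_sub]
      congr 1
      push_cast
      rw [hwdef]
      ring
    have hfin := hfn u hu
    rw [le_div_iff₀ hg2pos]
    calc ((B.filter fun χ => ex H v / L ^ 10 < ‖QQ f H v χ‖).card : ℝ) * ((H : ℝ) * g2 q)
        ≤ Real.exp (Real.log 4 + l * Real.log l + 2 * l / H + 20 * l * Real.log L) * ((H : ℝ) * g2 q) :=
          mul_le_mul_of_nonneg_right (hcard.trans_eq heq) hg2pos.le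
      _ = Real.exp (Real.log 4 + l * Real.log l + 2 * l / H + 20 * l * Real.log L + Real.log ((H : ℝ) * g2 q)) := by
          rw [Real.exp_add _ (Real.log ((H : ℝ) * g2 q)), Real.exp_log hg2pos]
      _ ≤ Real.exp (ε * L) := Real.exp_le_exp.mpr hfin
      _ = (q : ℝ) ^ ε := by
          rw [Real.rpow_def_of_pos hqpos, mul_comm]
  have hcardB := finb_card B (Ico (H * g1 q) (H * g2 q)) (fun v χ => ex H v / L ^ 10 < ‖QQ f H v χ‖) hB
  refine hcardB.trans ((sum_le_sum hv).trans ?_)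
  rw [sum_const, nsmul_eq_mul, Nat.card_Ico]
  have hqe : 0 ≤ (q : ℝ) ^ ε / ((H : ℝ) * g2 q) := by positivity
  calc ((H * g2 q - H * g1 q : ℕ) : ℝ) * ((q : ℝ) ^ ε / ((H : ℝ) * g2 q))
      ≤ ((H * g2 q : ℕ) : ℝ) * ((q : ℝ) ^ ε / ((H : ℝ) * g2 q)) :=
        mul_le_mul_of_nonneg_right (by exact_mod_cast Nat.sub_le _ _) hqe
    _ = (q : ℝ) ^ ε := by
        push_cast
        exact mul_div_cancel₀ _ hg2pos.ne'

end Pool.Agent.Lib.MR
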