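import Pool.Agent.Lib.MR.Defs

/-!
# Module Num (25 minutes): the exponents and the next level

`al_mem`: `(10^4)^(-1/4) = 1/10`. `al_diff`: `E^(-1/4) ≤ (16 E')^(-1/4) = (1/2) E'^(-1/4)`.
`dn_le`: `L = log E ≥ 100`: `L^2 ≤ dn E ≤ L^2 + 1 ≤ 2L^2`, `E = e^L ≥ L^10` say; so `dn E ≤ sqrt E`, `dn E ≥ 10^4`, `16 dn E ≤ E`, `dn E < E`, `2 log (dn E) ≤ log E`.
-/

set_option autoImplicit false

open Finset

namespace Pool.Agent.Lib.MR

/-- the next lower level -/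
noncomputable def dn (E : ℕ) : ℕ := ⌈Real.log E ^ 2⌉₊

theorem al_mem {E : ℕ} (hE : 10000 ≤ E) : 1 / 10 ≤ al E ∧ al E ≤ 1 / 5 := by
  unfold al
  have hE' : (10000 : ℝ) ≤ E := by exact_mod_cast hE
  have h0 : (0 : ℝ) ≤ (E : ℝ) ^ (-(1 / 4 : ℝ)) := Real.rpow_nonneg (by positivity) _
  have h1 : (E : ℝ) ^ (-(1 / 4 : ℝ)) ≤ (10000 : ℝ) ^ (-(1 / 4 : ℝ)) :=
    Real.rpow_le_rpow_of_nonpos (by norm_num) hE' (by norm_num)
  have h2 : (10000 : ℝ) ^ (-(1 / 4 : ℝ)) = 1 / 10 := by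
    have h3 : (10000 : ℝ) = (10 : ℝ) ^ (4 : ℝ) := by norm_num
    rw [h3, ← Real.rpow_mul (by norm_num)]
    norm_num
  constructor <;> linarith

theorem al_diff {E E' : ℕ} (hE' : 1 ≤ E') (h : 16 * E' ≤ E) : 1 / 2 * (E' : ℝ) ^ (-(1 / 4 : ℝ)) ≤ al E - al E' := by
  unfold al
  have h1 : (1 : ℝ) ≤ E' := by exact_mod_cast hE'
  have h2 : (16 : ℝ) * E' ≤ E := by exact_mod_cast h
  have h3 : (E : ℝ) ^ (-(1 / 4 : ℝ)) ≤ ((16 : ℝ) * E') ^ (-(1 / 4 : ℝ)) :=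
    Real.rpow_le_rpow_of_nonpos (by positivity) h2 (by norm_num)
  have h4 : ((16 : ℝ) * E') ^ (-(1 / 4 : ℝ)) = 1 / 2 * (E' : ℝ) ^ (-(1 / 4 : ℝ)) := by
    rw [Real.mul_rpow (by norm_num) (by positivity)]
    congr 1
    have h5 : (16 : ℝ) = (2 : ℝ) ^ (4 : ℝ) := by norm_num
    rw [h5, ← Real.rpow_mul (by norm_num)]
    norm_num
  rw [h4] at h3
  linarith

theorem dn_le {E : ℕ} (hE : 100 ≤ Real.log E) : (dn E : ℝ) ≤ Real.sqrt E ∧ 10000 ≤ dn E ∧ 16 * dn E ≤ E ∧ dn E < E ∧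
    2 * Real.log (dn E) ≤ Real.log E ∧ Real.log E ^ 2 ≤ dn E ∧ (dn E : ℝ) ≤ 2 * Real.log E ^ 2 := by
  have hE0 : (0 : ℝ) < E := by
    rcases Nat.eq_zero_or_pos E with h | h
    · subst h
      simp at hE
      norm_num at hE
    · exact_mod_cast h
  set L : ℝ := Real.log E with hL
  have hEL : (E : ℝ) = Real.exp L := (Real.exp_log hE0).symm
  have hL2 : (10000 : ℝ) ≤ L ^ 2 := by nlinarith
  have hlo : L ^ 2 ≤ dn E := Nat.le_ceil _
  have hhi : (dn E : ℝ) ≤ 2 * L ^ 2 := by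
    have h := Nat.ceil_lt_add_one (show (0 : ℝ) ≤ L ^ 2 by positivity)
    have h' : (dn E : ℝ) < L ^ 2 + 1 := h
    linarith
  have hL3 : (1000000 : ℝ) ≤ L ^ 3 := by
    have : (100 : ℝ) ^ 3 ≤ L ^ 3 := pow_le_pow_left₀ (by norm_num) hE 3
    norm_num at this
    exact this
  have hL5 : (1000000 : ℝ) * L ^ 2 ≤ L ^ 5 := by
    have : L ^ 5 = L ^ 3 * L ^ 2 := by ring
    rw [this]
    exact mul_le_mul_of_nonneg_right hL3 (by positivity)
  have hx1 : L ^ 5 / 120 ≤ Real.exp L := by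
    have := Real.pow_div_factorial_le_exp L (by linarith) 5
    norm_num [Nat.factorial] at this
    exact this
  have hx2 : (L / 2) ^ 5 / 120 ≤ Real.exp (L / 2) := by
    have := Real.pow_div_factorial_le_exp (L / 2) (by linarith) 5
    norm_num [Nat.factorial] at this
    exact this
  have hs : Real.sqrt E = Real.exp (L / 2) := by
    rw [hEL, Real.sqrt_eq_iff_mul_self_eq (Real.exp_nonneg _) (Real.exp_nonneg _), ← Real.exp_add]
    congr 1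
    ring
  have hA : (dn E : ℝ) ≤ Real.sqrt E := by
    rw [hs]
    have h1 : (L / 2) ^ 5 / 120 = L ^ 5 / 3840 := by ring
    rw [h1] at hx2
    linarith
  have hdn : (10000 : ℝ) ≤ dn E := hL2.trans hlo
  have hB : (16 : ℝ) * dn E ≤ E := by
    rw [hEL]
    linarith
  have hB' : 16 * dn E ≤ E := by exact_mod_cast hB
  have hdn' : 10000 ≤ dn E := by exact_mod_cast hdn
  refine ⟨hA, hdn', hB', by omega, ?_, hlo, hhi⟩
  have h1 : Real.log (dn E) ≤ Real.log (Real.sqrt E) := Real.log_le_log (by linarith) hA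
  rw [Real.log_sqrt hE0.le] at h1
  linarith

end Pool.Agent.Lib.MR
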