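import Pool.Agent.Lib.MR.Lev
import Pool.Agent.Lib.MR.Num
import Pool.Agent.Lib.MR.Mom

/-!
# Module Top (25 minutes): few characters are not small at the top level

`E = lev q ≥ 10^4`. `U ⊆ ∪_v U_v`, `U_v = {χ ∈ U : e^((1-α)u) ≤ ‖Q_v‖}`, `u = v/E ∈ [E, E^2)`; `cntw` with `H = E ≥ 32`, `Z = ex E (v+1) = e^(u+1/E)`, `l = ⌈log q/(u + 1/E)⌉₊` (so `Z^l ≥ q`), `T = e^((4/5)u) ≤ e^((1-α)u)` (`al_mem`):
`|U_v| ≤ 4 l^l e^(2l(u+1/E) - (8/5)lu)`, and `E^3` times this is `≤ q^(9/20)` by `topn`.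
-/

set_option autoImplicit false

open Finset

namespace Pool.Agent.Lib.MR

theorem top : ∃ q0 : ℕ, ∀ (q : ℕ) [NeZero q], q0 ≤ q → ∀ f : ℕ → ℂ, CM f → ∀ U : Finset (DirichletCharacter ℂ q),
    (∀ χ ∈ U, ¬ small f (lev q) χ) → (U.card : ℝ) ≤ (q : ℝ) ^ (9 / 20 : ℝ) := by
  classical
  obtain ⟨q1, h1⟩ := lev_large 10000
  obtain ⟨q2, h2⟩ := topn
  refine ⟨max (max q1 q2) 2, fun q _ hq f hf U hU => ?_⟩
  have hq1 : q1 ≤ q := (le_max_left _ _).trans ((le_max_left _ _).trans hq)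
  have hq2 : q2 ≤ q := (le_max_right _ _).trans ((le_max_left _ _).trans hq)
  have hq3 : 2 ≤ q := (le_max_right _ _).trans hq
  have hE := h1 q hq1
  set E := lev q with hEdef
  have hqr : (2 : ℝ) ≤ q := by exact_mod_cast hq3
  have hq0 : (0 : ℝ) < q := by linarith
  have hlq : 0 < Real.log q := Real.log_pos (by linarith)
  have hEr : (10000 : ℝ) ≤ E := by exact_mod_cast hE
  have hE0 : (0 : ℝ) < E := by linarith
  obtain ⟨ha1, ha2⟩ := al_mem hE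
  -- the covering
  let Uv : ℕ → Finset (DirichletCharacter ℂ q) := fun v =>
    U.filter (fun χ => Real.exp ((1 - al E) * ((v : ℝ) / E)) ≤ ‖QQ f E v χ‖)
  have hcov : U ⊆ (Ico (E ^ 2) (E ^ 3)).biUnion Uv := by
    intro χ hχ
    have h3 := hU χ hχ
    unfold small at h3
    push_neg at h3
    obtain ⟨v, hv, hlt⟩ := h3
    exact mem_biUnion.mpr ⟨v, hv, mem_filter.mpr ⟨hχ, hlt.le⟩⟩
  have hcard : (U.card : ℝ) ≤ ∑ v ∈ Ico (E ^ 2) (E ^ 3), ((Uv v).card : ℝ) := by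
    have h3 := (card_le_card hcov).trans card_biUnion_le
    calc (U.card : ℝ) ≤ ((∑ v ∈ Ico (E ^ 2) (E ^ 3), (Uv v).card : ℕ) : ℝ) := by exact_mod_cast h3
      _ = _ := by push_cast; rfl
  -- each window
  have hwin : ∀ v ∈ Ico (E ^ 2) (E ^ 3), ((Uv v).card : ℝ) ≤ (q : ℝ) ^ (9 / 20 : ℝ) / (E : ℝ) ^ 3 := by
    intro v hv
    obtain ⟨hv1, hv2⟩ := mem_Ico.mp hv
    set u : ℝ := (v : ℝ) / E with hu
    have hu1 : (E : ℝ) ≤ u := by
      rw [hu, le_div_iff₀ hE0]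
      have : ((E ^ 2 : ℕ) : ℝ) ≤ v := by exact_mod_cast hv1
      push_cast at this
      nlinarith
    have hu2 : u ≤ (E : ℝ) ^ 2 := by
      rw [hu, div_le_iff₀ hE0]
      have : (v : ℝ) ≤ ((E ^ 3 : ℕ) : ℝ) := by exact_mod_cast hv2.le
      push_cast at this
      nlinarith
    have hu0 : 0 < u := by linarith
    have htop := h2 q hq2 u hu1 hu2
    set l : ℕ := ⌈Real.log q / (u + 1 / E)⌉₊ with hl
    have hui : 0 < u + 1 / (E : ℝ) := by positivity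
    have hl1 : Real.log q ≤ l * (u + 1 / E) := by
      have := Nat.le_ceil (Real.log q / (u + 1 / (E : ℝ)))
      rw [div_le_iff₀ hui] at this
      exact this
    have hl0 : 0 < l := Nat.ceil_pos.mpr (by positivity)
    have hlr : (0 : ℝ) < l := by exact_mod_cast hl0
    have hex : ex E (v + 1) = Real.exp (u + 1 / E) := by
      unfold ex
      congr 1
      rw [hu]
      push_cast
      ring
    have hZ : (q : ℝ) ≤ ex E (v + 1) ^ l := by
      rw [hex, ← Real.exp_nat_mul, ← Real.log_le_iff_le_exp hq0]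
      exact hl1
    have hv16 : 16 ≤ ex E v := by
      unfold ex
      rw [← hu]
      have := Real.add_one_le_exp u
      linarith
    have hc := cntw hf (by omega) hv16 hZ (T := Real.exp (4 / 5 * u)) (Real.exp_pos _).le (Uv v) (by
      intro χ hχ
      refine le_trans ?_ (mem_filter.mp hχ).2
      rw [Real.exp_le_exp, ← hu]
      exact mul_le_mul_of_nonneg_right (by linarith) hu0.le)
    rw [hex, ← Real.exp_nat_mul, ← Real.exp_nat_mul] at hc
    rw [le_div_iff₀ (by positivity)]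
    have hT : 0 < Real.exp (((2 * l : ℕ) : ℝ) * (4 / 5 * u)) := Real.exp_pos _
    refine le_of_mul_le_mul_right ?_ hT
    have h4 : ((Uv v).card : ℝ) * (E : ℝ) ^ 3 * Real.exp (((2 * l : ℕ) : ℝ) * (4 / 5 * u)) ≤
        4 * (l : ℝ) ^ l * Real.exp (((2 * l : ℕ) : ℝ) * (u + 1 / E)) * (E : ℝ) ^ 3 := by
      have := mul_le_mul_of_nonneg_right hc (by positivity : (0 : ℝ) ≤ (E : ℝ) ^ 3)
      calc _ = ((Uv v).card : ℝ) * Real.exp (((2 * l : ℕ) : ℝ) * (4 / 5 * u)) * (E : ℝ) ^ 3 := by ring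
        _ ≤ _ := this
    refine h4.trans ?_
    have h5 : (4 : ℝ) = Real.exp (Real.log 4) := (Real.exp_log (by norm_num)).symm
    have h6 : (l : ℝ) ^ l = Real.exp (l * Real.log l) := by
      rw [← Real.log_pow, Real.exp_log (by positivity)]
    have h7 : (E : ℝ) ^ 3 = Real.exp (3 * Real.log E) := by
      have : (3 : ℝ) * Real.log E = Real.log ((E : ℝ) ^ 3) := by
        rw [Real.log_pow]; norm_num
      rw [this, Real.exp_log (by positivity)]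
    have h8 : (q : ℝ) ^ (9 / 20 : ℝ) = Real.exp (9 / 20 * Real.log q) := by
      rw [Real.rpow_def_of_pos hq0, mul_comm]
    rw [h6, h7, h8]
    nth_rewrite 1 [h5]
    rw [← Real.exp_add, ← Real.exp_add, ← Real.exp_add, ← Real.exp_add, Real.exp_le_exp]
    push_cast
    linarith
  have hsum : ∑ v ∈ Ico (E ^ 2) (E ^ 3), ((Uv v).card : ℝ) ≤
      ((Ico (E ^ 2) (E ^ 3)).card : ℝ) * ((q : ℝ) ^ (9 / 20 : ℝ) / (E : ℝ) ^ 3) := by
    rw [← nsmul_eq_mul]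
    exact sum_le_card_nsmul _ _ _ hwin
  refine hcard.trans (hsum.trans ?_)
  have h9 : ((Ico (E ^ 2) (E ^ 3)).card : ℝ) ≤ (E : ℝ) ^ 3 := by
    rw [Nat.card_Ico]
    calc ((E ^ 3 - E ^ 2 : ℕ) : ℝ) ≤ ((E ^ 3 : ℕ) : ℝ) := by exact_mod_cast Nat.sub_le _ _
      _ = _ := by push_cast; rfl
  calc ((Ico (E ^ 2) (E ^ 3)).card : ℝ) * ((q : ℝ) ^ (9 / 20 : ℝ) / (E : ℝ) ^ 3) ≤
      (E : ℝ) ^ 3 * ((q : ℝ) ^ (9 / 20 : ℝ) / (E : ℝ) ^ 3) := by gcongr
    _ = _ := by field_simp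

end Pool.Agent.Lib.MR
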