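import Pool.Agent.Lib.MR.Chain
import Pool.Agent.Lib.MR.Top
import Pool.Agent.Lib.MR.Fin
import Pool.Agent.Lib.MR.FinB

/-!
# Module Main (20 minutes): theorem MRq

PROOF. `E1` from `chain`; `E0 ≥ E1` with `200/log E0 ≤ η/2`; `A0` from `chain`. For `A ≥ A0`, `x = A q`, `q` large: `E = lev q ≥ E0` (`lev_large`), `ex E (E^3)^2 ≤ q/E ≤ x/E` (`lev_ok`). `B` = the characters with a large `Q_v` at the last level (classical filter), `finb`.
`univ \ B = T ∪ U`, `T` = the small ones at level `E` (`chain`: `≤ x^2 (200/log E0)`), `U` = the others (`top`, `fin` with `η/2`). `SS f (A q) χ` has `⌊((A q : ℕ) : ℝ)⌋₊ = A q`.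
-/

set_option autoImplicit false

open Finset

namespace Pool.Agent.Lib.MR

theorem MRq (κ η : ℝ) (hκ : 0 < κ) (hη : 0 < η) : ∃ A0 : ℕ, 0 < A0 ∧ ∀ A : ℕ, A0 ≤ A → ∀ ε : ℝ, 0 < ε →
    ∃ q0 : ℕ, ∀ (q : ℕ) [NeZero q], q0 ≤ q → κ * q ≤ q.totient → ∀ f : ℕ → ℂ, (∀ m n, f (m * n) = f m * f n) →
      (∀ n, ‖f n‖ ≤ 1) → ∃ B : Finset (DirichletCharacter ℂ q), (B.card : ℝ) ≤ (q : ℝ) ^ ε ∧
        ∀ T : Finset (DirichletCharacter ℂ q), (∀ χ ∈ T, χ ∉ B) →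
          ∑ χ ∈ T, ‖∑ n ∈ Icc 1 (A * q), f n * χ (n : ZMod q)‖ ^ 2 ≤ η * ((A : ℝ) * q) ^ 2 := by
  classical
  obtain ⟨E1, hE1⟩ := chain hκ
  set E0 : ℕ := max E1 ⌈Real.exp (400 / η)⌉₊ with hE0
  obtain ⟨A0, hA0, hch⟩ := hE1 E0 (le_max_left _ _)
  have hE0r : Real.exp (400 / η) ≤ E0 :=
    (Nat.le_ceil _).trans (by exact_mod_cast le_max_right _ _)
  have hlogE0 : 400 / η ≤ Real.log E0 := by
    rw [Real.le_log_iff_exp_le (lt_of_lt_of_le (Real.exp_pos _) hE0r)]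
    exact hE0r
  have hpos : 0 < 400 / η := by positivity
  have h200 : 200 / Real.log E0 ≤ η / 2 := by
    rw [div_le_div_iff₀ (by linarith) (by norm_num)]
    have := mul_le_mul_of_nonneg_left hlogE0 hη.le
    rw [mul_div_cancel₀ _ hη.ne'] at this
    linarith
  have hE0one : 1 ≤ E0 := by
    have h1 : (1 : ℝ) ≤ Real.exp (400 / η) := Real.one_le_exp hpos.le
    exact_mod_cast h1.trans hE0r
  refine ⟨A0, hA0, fun A hA ε hε => ?_⟩
  obtain ⟨q1, hq1⟩ := lev_large E0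
  obtain ⟨q2, hq2⟩ := lev_ok
  obtain ⟨q3, hq3⟩ := top
  obtain ⟨q4, hq4⟩ := fin hκ (half_pos hη)
  obtain ⟨q5, hq5⟩ := finb hε
  refine ⟨max q1 (max q2 (max q3 (max q4 q5))), fun q _ hqq hphi f hmul hle => ?_⟩
  have hm1 : q1 ≤ q := (le_max_left _ _).trans hqq
  have hr1 : max q2 (max q3 (max q4 q5)) ≤ q := (le_max_right _ _).trans hqq
  have hm2 : q2 ≤ q := (le_max_left _ _).trans hr1
  have hr2 : max q3 (max q4 q5) ≤ q := (le_max_right _ _).trans hr1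
  have hm3 : q3 ≤ q := (le_max_left _ _).trans hr2
  have hr3 : max q4 q5 ≤ q := (le_max_right _ _).trans hr2
  have hm4 : q4 ≤ q := (le_max_left _ _).trans hr3
  have hm5 : q5 ≤ q := (le_max_right _ _).trans hr3
  have hf : CM f := ⟨hmul, hle⟩
  have hApos : 1 ≤ A := lt_of_lt_of_le hA0 hA
  refine ⟨Finset.univ.filter (fun χ => ∃ v ∈ Ico (hq q * g1 q) (hq q * g2 q),
    ex (hq q) v / Real.log q ^ 10 < ‖QQ f (hq q) v χ‖), ?_, ?_⟩
  · exact hq5 q hm5 f hf _ fun χ hχ => (mem_filter.mp hχ).2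
  intro T hT
  have hTv : ∀ χ ∈ T, ∀ v ∈ Ico (hq q * g1 q) (hq q * g2 q),
      ‖QQ f (hq q) v χ‖ ≤ ex (hq q) v / Real.log q ^ 10 := by
    intro χ hχ v hv
    by_contra hcon
    exact hT χ hχ (mem_filter.mpr ⟨mem_univ _, v, hv, not_le.mp hcon⟩)
  have hSS : ∀ χ : DirichletCharacter ℂ q, SS f ((A * q : ℕ) : ℝ) χ =
      ∑ n ∈ Icc 1 (A * q), f n * χ (n : ZMod q) := by
    intro χ
    unfold SS
    rw [Nat.floor_natCast]
  have hcast : ((A * q : ℕ) : ℝ) = (A : ℝ) * q := by push_cast; ring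
  have hlev : E0 ≤ lev q := hq1 q hm1
  have hlevpos : (0 : ℝ) < lev q := by
    have : 1 ≤ lev q := hE0one.trans hlev
    exact_mod_cast this
  have hqA : (q : ℝ) ≤ ((A * q : ℕ) : ℝ) := by
    exact_mod_cast Nat.le_mul_of_pos_left q hApos
  -- the characters small at the top level
  have hfirst : ∑ χ ∈ T.filter (fun χ => small f (lev q) χ), ‖SS f ((A * q : ℕ) : ℝ) χ‖ ^ 2 ≤
      ((A * q : ℕ) : ℝ) ^ 2 * (η / 2) := by
    have h := hch q (A * q) hphi (Nat.mul_le_mul_right q hA) f hf (lev q) hlev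
      ((hq2 q hm2).trans (div_le_div_of_nonneg_right hqA hlevpos.le))
      (T.filter (fun χ => small f (lev q) χ)) (fun χ hχ => (mem_filter.mp hχ).2)
    refine h.trans (mul_le_mul_of_nonneg_left ?_ (by positivity))
    have hlog : 0 ≤ Real.log (lev q) := Real.log_natCast_nonneg _
    have : 0 ≤ 100 / Real.log (lev q) := by positivity
    linarith
  have hsecond : ∑ χ ∈ T.filter (fun χ => ¬ small f (lev q) χ), ‖SS f ((A * q : ℕ) : ℝ) χ‖ ^ 2 ≤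
      η / 2 * ((A * q : ℕ) : ℝ) ^ 2 := by
    refine hq4 q hm4 hphi (A * q) (Nat.le_mul_of_pos_left q hApos) f hf _
      (hq3 q hm3 f hf _ fun χ hχ => (mem_filter.mp hχ).2) ?_
    intro χ hχ v hv
    exact hTv χ (mem_filter.mp hχ).1 v hv
  have hsplit := Finset.sum_filter_add_sum_filter_not T (fun χ => small f (lev q) χ)
    (fun χ => ‖SS f ((A * q : ℕ) : ℝ) χ‖ ^ 2)
  calc ∑ χ ∈ T, ‖∑ n ∈ Icc 1 (A * q), f n * χ (n : ZMod q)‖ ^ 2
      = ∑ χ ∈ T, ‖SS f ((A * q : ℕ) : ℝ) χ‖ ^ 2 := by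
        refine sum_congr rfl fun χ _ => ?_
        rw [hSS]
    _ ≤ η * ((A * q : ℕ) : ℝ) ^ 2 := by
        rw [← hsplit]
        linarith
    _ = η * ((A : ℝ) * q) ^ 2 := by rw [hcast]

end Pool.Agent.Lib.MR
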