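import Pool.Agent.Lib.MR.NumC
import Pool.Agent.Lib.MR.DecM
import Pool.Agent.Lib.MR.PrS

/-!
# Module Base (30 minutes): the base of the ladder

`dect` with `H = E`, `a = E^2`, `b = E^3`, `V ≥ (1/2) log E ≥ 1` (`VV_lev`): the error is `x^2 (48/log E + 40/E)`. For `χ ∈ T`, `v`: `‖Q_v‖^2 ≤ e^(2(1-α)u)`, `u = v/E`, and `mvS` with `y = x e^(-u)`: `∑_χ ‖S(y)‖^2 ≤ (q + y) y`, `q ≤ x e^(-E^2)`:
`e^(2(1-α)u)(q+y)y ≤ x^2 (e^((1-2α)u - E^2) + e^(-2αu)) ≤ 2 x^2 e^(-2αu) ≤ 2x^2 e^(-E/5)` (`E ≤ u ≤ E^2`, `α ≥ 1/10` by `al_mem`), so the main term is at most `2E^3 · E^3 · 2 x^2 e^(-E/5) ≤ x^2/E` (`basen`).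
-/

set_option autoImplicit false

open Finset

namespace Pool.Agent.Lib.MR

theorem base {κ : ℝ} (hκ : 0 < κ) : ∃ E1 : ℕ, ∀ E : ℕ, E1 ≤ E → ∀ (q : ℕ) [NeZero q] (x : ℕ), κ * q ≤ q.totient →
    Real.exp ((E : ℝ) ^ 2) * q ≤ x → ex E (E ^ 3) ^ 2 ≤ (x : ℝ) / E → ∀ f : ℕ → ℂ, CM f →
    ∀ T : Finset (DirichletCharacter ℂ q), (∀ χ ∈ T, small f E χ) →
    ∑ χ ∈ T, ‖SS f x χ‖ ^ 2 ≤ 100 * (x : ℝ) ^ 2 / Real.log E := by
  classical
  obtain ⟨E2, hE2⟩ := VV_lev hκ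
  refine ⟨max E2 10000, fun E hE q _ x hκq hx hx2 f hf T hT => ?_⟩
  have hE2' : E2 ≤ E := (le_max_left _ _).trans hE
  have hE4 : 10000 ≤ E := (le_max_right _ _).trans hE
  have hEr : (10000 : ℝ) ≤ E := by exact_mod_cast hE4
  have hE0 : (0 : ℝ) < E := by linarith
  have hq1 : 1 ≤ q := Nat.one_le_iff_ne_zero.mpr (NeZero.ne q)
  have hq0 : (0 : ℝ) < q := by exact_mod_cast hq1
  have hlogE : 2 ≤ Real.log E := by
    rw [Real.le_log_iff_exp_le hE0]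
    have h1 : Real.exp 2 = Real.exp 1 * Real.exp 1 := by rw [← Real.exp_add]; norm_num
    have h2 := Real.exp_one_lt_d9
    have h3 := Real.exp_pos 1
    nlinarith
  have hV := hE2 E hE2' q hq1 hκq
  have hV1 : 1 ≤ VV q E (E ^ 2) (E ^ 3) := by linarith
  obtain ⟨ha1, ha2⟩ := al_mem hE4
  have hx0 : (0 : ℝ) < x := lt_of_lt_of_le (by positivity) hx
  have hqx : q ≤ x := by
    have h1 : (1 : ℝ) * q ≤ Real.exp ((E : ℝ) ^ 2) * q :=
      mul_le_mul_of_nonneg_right (Real.one_le_exp (by positivity)) hq0.le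
    have h2 : (q : ℝ) ≤ x := by linarith
    exact_mod_cast h2
  have hab : E ^ 2 ≤ E ^ 3 := Nat.pow_le_pow_right (by omega) (by norm_num)
  have hd := dect (q := q) hf (by omega : 1 ≤ E) hab hqx hV1 hx2 T
  have hwin : ∀ v ∈ Ico (E ^ 2) (E ^ 3), ∑ χ ∈ T, ‖QQ f E v χ‖ ^ 2 * ‖SS f (x / ex E v) χ‖ ^ 2 ≤
      (x : ℝ) ^ 2 * (2 * Real.exp (-(E : ℝ) / 5)) := by
    intro v hv
    obtain ⟨hv1, hv2⟩ := mem_Ico.mp hv
    set u : ℝ := (v : ℝ) / E with hu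
    have hu1 : (E : ℝ) ≤ u := by
      rw [hu, le_div_iff₀ hE0]
      have : ((E ^ 2 : ℕ) : ℝ) ≤ v := by exact_mod_cast hv1
      push_cast at this
      nlinarith
    have hu2 : u ≤ (E : ℝ) ^ 2 := by
      rw [hu, div_le_iff₀ hE0]
      have : (v : ℝ) ≤ ((E ^ 3 : ℕ) : ℝ) := by exact_mod_cast hv2.le
      push_cast at this
      nlinarith
    have hu0 : 0 < u := by linarith
    set y : ℝ := (x : ℝ) / ex E v with hy
    have hexu : ex E v = Real.exp u := rfl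
    have hy0 : 0 < y := div_pos hx0 (ex_pos _ _)
    have hyx : y = x * Real.exp (-u) := by
      rw [hy, hexu, Real.exp_neg, div_eq_mul_inv]
    have hqy : (q : ℝ) ≤ y := by
      rw [hy, le_div_iff₀ (ex_pos _ _), hexu]
      have h1 : Real.exp u ≤ Real.exp ((E : ℝ) ^ 2) := Real.exp_le_exp.mpr hu2
      calc (q : ℝ) * Real.exp u ≤ q * Real.exp ((E : ℝ) ^ 2) := by gcongr
        _ = Real.exp ((E : ℝ) ^ 2) * q := by ring
        _ ≤ x := hx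
    have h1 : ∀ χ ∈ T, ‖QQ f E v χ‖ ^ 2 * ‖SS f y χ‖ ^ 2 ≤
        Real.exp (2 * ((1 - al E) * u)) * ‖SS f y χ‖ ^ 2 := by
      intro χ hχ
      refine mul_le_mul_of_nonneg_right ?_ (by positivity)
      have h2 := hT χ hχ v hv
      calc ‖QQ f E v χ‖ ^ 2 ≤ (Real.exp ((1 - al E) * ((v : ℝ) / E))) ^ 2 :=
            pow_le_pow_left₀ (norm_nonneg _) h2 2
        _ = Real.exp (2 * ((1 - al E) * u)) := by
            rw [← Real.exp_nat_mul, ← hu]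
            norm_num
    calc ∑ χ ∈ T, ‖QQ f E v χ‖ ^ 2 * ‖SS f y χ‖ ^ 2 ≤
        ∑ χ ∈ T, Real.exp (2 * ((1 - al E) * u)) * ‖SS f y χ‖ ^ 2 := sum_le_sum h1
      _ = Real.exp (2 * ((1 - al E) * u)) * ∑ χ ∈ T, ‖SS f y χ‖ ^ 2 := by rw [mul_sum]
      _ ≤ Real.exp (2 * ((1 - al E) * u)) * (((q : ℝ) + y) * y) := by
          refine mul_le_mul_of_nonneg_left ?_ (Real.exp_pos _).le
          exact (sum_le_sum_of_subset_of_nonneg (subset_univ T) fun _ _ _ => by positivity).trans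
            (mvS hf hy0.le)
      _ ≤ Real.exp (2 * ((1 - al E) * u)) * ((y + y) * y) := by gcongr
      _ = (x : ℝ) ^ 2 * (2 * Real.exp (-(2 * (al E * u)))) := by
          rw [hyx]
          have h2 : Real.exp (-(2 * (al E * u))) =
              Real.exp (2 * ((1 - al E) * u)) * (Real.exp (-u) * Real.exp (-u)) := by
            rw [← Real.exp_add, ← Real.exp_add]
            congr 1
            ring
          rw [h2]
          ring
      _ ≤ (x : ℝ) ^ 2 * (2 * Real.exp (-(E : ℝ) / 5)) := by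
          refine mul_le_mul_of_nonneg_left ?_ (by positivity)
          refine mul_le_mul_of_nonneg_left ?_ (by norm_num)
          rw [Real.exp_le_exp]
          have h2 : 1 / 10 * (E : ℝ) ≤ al E * u := mul_le_mul ha1 hu1 hE0.le (by linarith)
          linarith
  have hsum : ∑ v ∈ Ico (E ^ 2) (E ^ 3), ∑ χ ∈ T, ‖QQ f E v χ‖ ^ 2 * ‖SS f (x / ex E v) χ‖ ^ 2 ≤
      (E : ℝ) ^ 3 * ((x : ℝ) ^ 2 * (2 * Real.exp (-(E : ℝ) / 5))) := by
    have h1 := sum_le_card_nsmul _ _ _ hwin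
    rw [nsmul_eq_mul] at h1
    refine h1.trans (mul_le_mul_of_nonneg_right ?_ (by positivity))
    rw [Nat.card_Ico]
    calc ((E ^ 3 - E ^ 2 : ℕ) : ℝ) ≤ ((E ^ 3 : ℕ) : ℝ) := by exact_mod_cast Nat.sub_le _ _
      _ = _ := by push_cast; rfl
  have hmain : 2 * (((E ^ 3 : ℕ) : ℝ) - ((E ^ 2 : ℕ) : ℝ)) * ∑ v ∈ Ico (E ^ 2) (E ^ 3), ∑ χ ∈ T,
      ‖QQ f E v χ‖ ^ 2 * ‖SS f (x / ex E v) χ‖ ^ 2 ≤ (x : ℝ) ^ 2 * (1 / E) := by
    have h1 : 2 * (((E ^ 3 : ℕ) : ℝ) - ((E ^ 2 : ℕ) : ℝ)) ≤ 2 * (E : ℝ) ^ 3 := by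
      push_cast
      have : (0 : ℝ) ≤ (E : ℝ) ^ 2 := by positivity
      linarith
    calc _ ≤ 2 * (E : ℝ) ^ 3 * ((E : ℝ) ^ 3 * ((x : ℝ) ^ 2 * (2 * Real.exp (-(E : ℝ) / 5)))) :=
          mul_le_mul h1 hsum (sum_nonneg fun _ _ => sum_nonneg fun _ _ => by positivity) (by positivity)
      _ = (x : ℝ) ^ 2 * (2 * (E : ℝ) ^ 3 * ((E : ℝ) ^ 3 * (2 * Real.exp (-(E : ℝ) / 5)))) := by ring
      _ ≤ (x : ℝ) ^ 2 * (1 / E) := mul_le_mul_of_nonneg_left (basen hE4) (by positivity)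
  have hlE : Real.log E ≤ E := (Real.log_le_sub_one_of_pos hE0).trans (by linarith)
  have hl0 : 0 < Real.log E := by linarith
  have h24 : 24 / VV q E (E ^ 2) (E ^ 3) ≤ 48 / Real.log E := by
    rw [div_le_div_iff₀ (by linarith) hl0]
    linarith
  have h1E : 1 / (E : ℝ) ≤ 1 / Real.log E := one_div_le_one_div_of_le hl0 hlE
  have hfin : (x : ℝ) ^ 2 * (1 / E) + (x : ℝ) ^ 2 * (24 / VV q E (E ^ 2) (E ^ 3) + 40 / E) ≤
      100 * (x : ℝ) ^ 2 / Real.log E := by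
    have h3 : (40 : ℝ) / E = 40 * (1 / E) := by ring
    have h4 : 1 / (E : ℝ) + (24 / VV q E (E ^ 2) (E ^ 3) + 40 / E) ≤ 100 / Real.log E := by
      rw [h3]
      calc 1 / (E : ℝ) + (24 / VV q E (E ^ 2) (E ^ 3) + 40 * (1 / E)) ≤
          1 / Real.log E + (48 / Real.log E + 40 * (1 / Real.log E)) := by linarith
        _ = 89 / Real.log E := by ring
        _ ≤ 100 / Real.log E := by gcongr; norm_num
    calc _ = (x : ℝ) ^ 2 * (1 / E + (24 / VV q E (E ^ 2) (E ^ 3) + 40 / E)) := by ring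
      _ ≤ (x : ℝ) ^ 2 * (100 / Real.log E) := mul_le_mul_of_nonneg_left h4 (by positivity)
      _ = _ := by ring
  linarith

end Pool.Agent.Lib.MR
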