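import Pool.Agent.Lib.MR.Step
import Pool.Agent.Lib.MR.Base

/-!
# Module Chain (25 minutes): the ladder

PROOF. `E1` = max of the two `E1` of `step`, `base`, and `⌈e^100⌉₊`. Given `E0 ≥ E1` let `M = ⌈exp(√E0)⌉₊`, `A0 = ⌈exp(M^2)⌉₊`. Strong induction on `E ≥ E0`, claim for all `T`.
(i) `dn E < E0`: `(log E)^2 ≤ dn E < E0`, so `E < exp(√E0) ≤ M`, `exp(E^2) q ≤ A0 q ≤ x`: `base` gives `100x^2/log E ≤ x^2(200/log E0 - 100/log E)` since `E ≥ E0`.
(ii) `E' = dn E ≥ E0`, `E' < E`: `T = T.filter (small f E') ∪ rest`; the first by induction (`ex E' (E'^3)^2 E' ≤ ex E (E^3)^2 E ≤ x`: `ex E (E^3) = e^(E^2)`), the second by `step`: `x^2 (200/log E0 - 100/log E' + 100/log E)` and `2 log E' ≤ log E` (`dn_le`).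
-/

set_option autoImplicit false

open Finset

namespace Pool.Agent.Lib.MR

private theorem chain_ex (E : ℕ) (hE : 1 ≤ E) : ex E (E ^ 3) = Real.exp ((E : ℝ) ^ 2) := by
  unfold ex
  congr 1
  have : (E : ℝ) ≠ 0 := by positivity
  push_cast
  field_simp

theorem chain {κ : ℝ} (hκ : 0 < κ) : ∃ E1 : ℕ, ∀ E0 : ℕ, E1 ≤ E0 → ∃ A0 : ℕ, 0 < A0 ∧ ∀ (q : ℕ) [NeZero q] (x : ℕ),
    κ * q ≤ q.totient → A0 * q ≤ x → ∀ f : ℕ → ℂ, CM f → ∀ E : ℕ, E0 ≤ E → ex E (E ^ 3) ^ 2 ≤ (x : ℝ) / E →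
    ∀ T : Finset (DirichletCharacter ℂ q), (∀ χ ∈ T, small f E χ) →
    ∑ χ ∈ T, ‖SS f x χ‖ ^ 2 ≤ (x : ℝ) ^ 2 * (200 / Real.log E0 - 100 / Real.log E) := by
  classical
  obtain ⟨Ea, hEa⟩ := step hκ
  obtain ⟨Eb, hEb⟩ := base hκ
  refine ⟨max (max Ea Eb) ⌈Real.exp 100⌉₊, fun E0 hE0 => ?_⟩
  have ha : Ea ≤ E0 := (le_max_left _ _).trans ((le_max_left _ _).trans hE0)
  have hb : Eb ≤ E0 := (le_max_right _ _).trans ((le_max_left _ _).trans hE0)
  have hc : Real.exp 100 ≤ E0 :=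
    (Nat.le_ceil _).trans (by exact_mod_cast (le_max_right _ _).trans hE0)
  have hE0pos : (0 : ℝ) < E0 := (Real.exp_pos _).trans_le hc
  have hlog0 : 100 ≤ Real.log E0 := (Real.le_log_iff_exp_le hE0pos).mpr hc
  set M : ℕ := ⌈Real.exp (Real.sqrt E0)⌉₊ with hM
  have hMge : Real.exp (Real.sqrt E0) ≤ M := Nat.le_ceil _
  set A0 : ℕ := ⌈Real.exp ((M : ℝ) ^ 2)⌉₊ with hA0
  have hA0ge : Real.exp ((M : ℝ) ^ 2) ≤ A0 := Nat.le_ceil _
  refine ⟨A0, Nat.ceil_pos.mpr (Real.exp_pos _), fun q _ x hκq hx f hf => ?_⟩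
  have hA0pos : 0 < A0 := Nat.ceil_pos.mpr (Real.exp_pos _)
  have hqx : q ≤ x := (Nat.le_mul_of_pos_left q hA0pos).trans hx
  intro E
  induction E using Nat.strong_induction_on with
  | _ E ih =>
    intro hE hxE T hT
    have hEE0 : (E0 : ℝ) ≤ E := by exact_mod_cast hE
    have hEpos : (0 : ℝ) < E := hE0pos.trans_le hEE0
    have hEnat : 1 ≤ E := by
      have : 0 < E := by exact_mod_cast hEpos
      omega
    have hlogE0E : Real.log E0 ≤ Real.log E := Real.log_le_log hE0pos hEE0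
    have hlogE : 100 ≤ Real.log E := hlog0.trans hlogE0E
    obtain ⟨d1, d2, d3, d4, d5, d6, d7⟩ := dn_le hlogE
    have hx2 : (0 : ℝ) ≤ (x : ℝ) ^ 2 := by positivity
    by_cases hlt : dn E < E0
    · -- base
      have h1 : Real.log E ^ 2 < E0 := d6.trans_lt (by exact_mod_cast hlt)
      have h2 : Real.log E < Real.sqrt E0 := by
        rw [Real.lt_sqrt (by linarith)]
        exact h1
      have h3 : (E : ℝ) ≤ M := by
        have : (E : ℝ) < Real.exp (Real.sqrt E0) := (Real.log_lt_iff_lt_exp hEpos).mp h2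
        linarith
      have h4 : Real.exp ((E : ℝ) ^ 2) * q ≤ x := by
        have h5 : Real.exp ((E : ℝ) ^ 2) ≤ A0 := by
          refine le_trans (Real.exp_le_exp.mpr ?_) hA0ge
          gcongr
        calc Real.exp ((E : ℝ) ^ 2) * q ≤ A0 * q := by gcongr
          _ ≤ x := by exact_mod_cast hx
      have h5 := hEb E (hb.trans hE) q x hκq h4 hxE f hf T hT
      refine h5.trans ?_
      have h6 : 100 / Real.log E ≤ 100 / Real.log E0 := by gcongr
      have h7 : 100 / Real.log E ≤ 200 / Real.log E0 - 100 / Real.log E := by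
        have h8 : 200 / Real.log E0 = 2 * (100 / Real.log E0) := by ring
        rw [h8]
        linarith
      calc 100 * (x : ℝ) ^ 2 / Real.log E = (x : ℝ) ^ 2 * (100 / Real.log E) := by ring
        _ ≤ _ := mul_le_mul_of_nonneg_left h7 hx2
    · -- step
      have hge : E0 ≤ dn E := not_lt.mp hlt
      have hd1 : 1 ≤ dn E := by omega
      have hdE : ((dn E : ℕ) : ℝ) ≤ E := by exact_mod_cast d4.le
      have hdpos : (0 : ℝ) < dn E := by exact_mod_cast hd1
      have hxE' : ex (dn E) (dn E ^ 3) ^ 2 ≤ (x : ℝ) / dn E := by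
        rw [chain_ex _ hd1]
        rw [chain_ex _ hEnat] at hxE
        have h1 : Real.exp ((dn E : ℝ) ^ 2) ^ 2 ≤ Real.exp ((E : ℝ) ^ 2) ^ 2 := by gcongr
        have h2 : (x : ℝ) / E ≤ x / dn E := by gcongr
        linarith
      have h1 := ih (dn E) d4 hge hxE' (T.filter (fun χ => small f (dn E) χ))
        (fun χ hχ => (mem_filter.mp hχ).2)
      have h2 := hEa E (ha.trans hE) q x hκq hqx hxE f hf (T.filter (fun χ => ¬ small f (dn E) χ))
        (fun χ hχ => ⟨hT χ (mem_filter.mp hχ).1, (mem_filter.mp hχ).2⟩)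
      have h3 := sum_filter_add_sum_filter_not T (fun χ => small f (dn E) χ)
        (fun χ => ‖SS f x χ‖ ^ 2)
      rw [← h3]
      have hld : 0 < Real.log (dn E) := by
        have : (10000 : ℝ) ≤ dn E := by exact_mod_cast d2
        exact Real.log_pos (by linarith)
      have h4 : 200 / Real.log E ≤ 100 / Real.log (dn E) := by
        rw [div_le_div_iff₀ (by linarith) hld]
        linarith
      have h5 : (200 / Real.log E0 - 100 / Real.log (dn E)) + 100 / Real.log E ≤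
          200 / Real.log E0 - 100 / Real.log E := by
        have h8 : 200 / Real.log E = 2 * (100 / Real.log E) := by ring
        rw [h8] at h4
        linarith
      calc _ ≤ (x : ℝ) ^ 2 * (200 / Real.log E0 - 100 / Real.log (dn E)) + 100 * (x : ℝ) ^ 2 / Real.log E :=
            add_le_add h1 h2
        _ = (x : ℝ) ^ 2 * ((200 / Real.log E0 - 100 / Real.log (dn E)) + 100 / Real.log E) := by ring
        _ ≤ _ := mul_le_mul_of_nonneg_left h5 hx2

end Pool.Agent.Lib.MR
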