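import Pool.Agent.Lib.MR.Win
import Pool.Agent.Lib.MR.WinB

/-!
# Module Dec: the decomposition

For `χ` modulo `q`, `V = VV q H a b`, `P = PP q H a b`:
`V S(x) - ∑_v Q_v S(x/e^(v/H)) = ∑_{n ≤ x e^(1/H)} c(n) χ(n)` with `c n = f n (V - om P n)` for `n ≤ x` and
`c n = - f n #{p ∈ P : p ∣ n, n/p ≤ x/e^(v(p)/H)}` for `n > x`.
-/

set_option autoImplicit false

open Finset

namespace Pool.Agent.Lib.MR

/-- number of the primes `p` of the window `v` with `n = p m`, `m ≤ x / e^(v/H)` -/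
private noncomputable def decD (q H v x n : ℕ) : ℕ :=
  ((Pw q H v).filter fun p => p ∣ n ∧ n / p ≤ ⌊(x : ℝ) / ex H v⌋₊).card

private theorem dec_inner {F : ℕ → ℂ} {p M N : ℕ} (hp : 0 < p) (h : p * M ≤ N) :
    ∑ m ∈ Icc 1 M, F (p * m) = ∑ n ∈ Icc 1 N, if p ∣ n ∧ n / p ≤ M then F n else 0 := by
  rw [← sum_filter]
  refine sum_nbij' (fun m => p * m) (fun n => n / p) ?_ ?_ ?_ ?_ ?_
  · intro m hm
    rw [mem_Icc] at hm
    rw [mem_filter, mem_Icc]
    refine ⟨⟨Nat.mul_pos hp hm.1, (Nat.mul_le_mul_left p hm.2).trans h⟩, dvd_mul_right p m, ?_⟩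
    rw [Nat.mul_div_cancel_left m hp]
    exact hm.2
  · intro n hn
    rw [mem_filter, mem_Icc] at hn
    rw [mem_Icc]
    exact ⟨Nat.div_pos (Nat.le_of_dvd hn.1.1 hn.2.1) hp, hn.2.2⟩
  · intro m _
    exact Nat.mul_div_cancel_left m hp
  · intro n hn
    rw [mem_filter] at hn
    exact Nat.mul_div_cancel' hn.2.1
  · intro m _
    rfl

private theorem dec_win {q : ℕ} [NeZero q] {f : ℕ → ℂ} (hf : CM f) {H : ℕ} (v x : ℕ)
    (χ : DirichletCharacter ℂ q) :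
    QQ f H v χ * SS f (x / ex H v) χ =
      ∑ n ∈ Icc 1 ⌊(x : ℝ) * ex H 1⌋₊, (decD q H v x n : ℂ) * (f n * χ (n : ZMod q)) := by
  have h1 : ∀ p ∈ Pw q H v, p * ⌊(x : ℝ) / ex H v⌋₊ ≤ ⌊(x : ℝ) * ex H 1⌋₊ := by
    intro p hp
    rw [mem_Pw] at hp
    refine Nat.le_floor ?_
    push_cast
    calc (p : ℝ) * (⌊(x : ℝ) / ex H v⌋₊ : ℝ) ≤ ex H (v + 1) * ((x : ℝ) / ex H v) :=
          mul_le_mul hp.2.2.2 (Nat.floor_le (div_nonneg (Nat.cast_nonneg _) (ex_pos _ _).le))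
            (Nat.cast_nonneg _) (ex_pos _ _).le
      _ = (x : ℝ) * ex H 1 := by
          rw [ex_succ]
          field_simp [(ex_pos H v).ne']
  calc QQ f H v χ * SS f (x / ex H v) χ
      = ∑ p ∈ Pw q H v, ∑ m ∈ Icc 1 ⌊(x : ℝ) / ex H v⌋₊, f (p * m) * χ ((p * m : ℕ) : ZMod q) := by
        rw [QQ, SS, sum_mul_sum]
        refine sum_congr rfl fun p _ => sum_congr rfl fun m _ => ?_
        rw [hf.mul, Nat.cast_mul, map_mul]
        ring
    _ = ∑ p ∈ Pw q H v, ∑ n ∈ Icc 1 ⌊(x : ℝ) * ex H 1⌋₊,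
          if p ∣ n ∧ n / p ≤ ⌊(x : ℝ) / ex H v⌋₊ then f n * χ (n : ZMod q) else 0 := by
        refine sum_congr rfl fun p hp => ?_
        have h2 := h1 p hp
        rw [mem_Pw] at hp
        exact dec_inner (F := fun n => f n * χ (n : ZMod q)) hp.1.pos h2
    _ = _ := by
        rw [sum_comm]
        refine sum_congr rfl fun n _ => ?_
        rw [← sum_filter, sum_const, decD, nsmul_eq_mul]

private theorem dec_om (q : ℕ) {H a b : ℕ} (hH : 1 ≤ H) (hab : a ≤ b) (n : ℕ) :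
    om (PP q H a b) n = ∑ v ∈ Ico a b, ((Pw q H v).filter fun p => p ∣ n).card := by
  have := PP_sum q hH hab (fun p => if p ∣ n then 1 else 0)
  simp only [← card_filter] at this
  rw [om, this]

private theorem dec_D_le (q : ℕ) {H a b : ℕ} (hH : 1 ≤ H) (hab : a ≤ b) (x n : ℕ) :
    ∑ v ∈ Ico a b, decD q H v x n ≤ om (PP q H a b) n := by
  rw [dec_om q hH hab]
  refine sum_le_sum fun v _ => card_le_card ?_
  intro p hp
  rw [mem_filter] at hp ⊢
  exact ⟨hp.1, hp.2.1⟩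

private theorem dec_D_eq (q : ℕ) {H a b : ℕ} (hH : 1 ≤ H) (hab : a ≤ b) {x n : ℕ} (hn : n ≤ x) :
    ∑ v ∈ Ico a b, decD q H v x n = om (PP q H a b) n := by
  rw [dec_om q hH hab]
  refine sum_congr rfl fun v _ => ?_
  rw [decD]
  refine congrArg card (filter_congr fun p hp => ?_)
  rw [mem_Pw] at hp
  refine and_iff_left_of_imp fun hpn => Nat.le_floor ?_
  calc ((n / p : ℕ) : ℝ) ≤ (n : ℝ) / p := Nat.cast_div_le
    _ ≤ (x : ℝ) / ex H v :=
        div_le_div₀ (Nat.cast_nonneg _) (by exact_mod_cast hn) (ex_pos _ _) hp.2.2.1.le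

theorem dec {q : ℕ} [NeZero q] {f : ℕ → ℂ} (hf : CM f) {H a b : ℕ} (hH : 1 ≤ H) (hab : a ≤ b) (x : ℕ) :
    ∃ c : ℕ → ℂ, (∀ n, n ≤ x → ‖c n‖ ≤ |VV q H a b - om (PP q H a b) n|) ∧
      (∀ n, x < n → ‖c n‖ ≤ om (PP q H a b) n) ∧
      ∀ χ : DirichletCharacter ℂ q, (VV q H a b : ℂ) * SS f x χ -
        ∑ v ∈ Ico a b, QQ f H v χ * SS f (x / ex H v) χ =
        ∑ n ∈ Icc 1 ⌊(x : ℝ) * ex H 1⌋₊, c n * χ (n : ZMod q) := by
  refine ⟨fun n => f n * ((if n ≤ x then (VV q H a b : ℂ) else 0) -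
      ((∑ v ∈ Ico a b, decD q H v x n : ℕ) : ℂ)), ?_, ?_, ?_⟩
  · intro n hn
    beta_reduce
    rw [if_pos hn, dec_D_eq q hH hab hn, norm_mul]
    calc ‖f n‖ * ‖(VV q H a b : ℂ) - (om (PP q H a b) n : ℂ)‖
        ≤ 1 * ‖(VV q H a b : ℂ) - (om (PP q H a b) n : ℂ)‖ :=
          mul_le_mul_of_nonneg_right (hf.le n) (norm_nonneg _)
      _ = |VV q H a b - om (PP q H a b) n| := by
          rw [one_mul, ← Complex.ofReal_natCast, ← Complex.ofReal_sub, Complex.norm_real,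
            Real.norm_eq_abs]
  · intro n hn
    beta_reduce
    rw [if_neg (not_le.mpr hn), zero_sub, norm_mul, norm_neg]
    calc ‖f n‖ * ‖((∑ v ∈ Ico a b, decD q H v x n : ℕ) : ℂ)‖
        ≤ 1 * ((∑ v ∈ Ico a b, decD q H v x n : ℕ) : ℝ) := by
          rw [Complex.norm_natCast]
          exact mul_le_mul_of_nonneg_right (hf.le n) (Nat.cast_nonneg _)
      _ ≤ om (PP q H a b) n := by
          rw [one_mul]
          exact_mod_cast dec_D_le q hH hab x n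
  · intro χ
    have hx : x ≤ ⌊(x : ℝ) * ex H 1⌋₊ := by
      refine Nat.le_floor ?_
      exact le_mul_of_one_le_right (Nat.cast_nonneg _) (ex_one_le _ _)
    have h1 : (VV q H a b : ℂ) * SS f x χ = ∑ n ∈ Icc 1 ⌊(x : ℝ) * ex H 1⌋₊,
        (if n ≤ x then (VV q H a b : ℂ) else 0) * (f n * χ (n : ZMod q)) := by
      rw [SS, Nat.floor_natCast, mul_sum]
      have h2 : (Icc 1 ⌊(x : ℝ) * ex H 1⌋₊).filter (fun n => n ≤ x) = Icc 1 x := by
        ext n
        rw [mem_filter, mem_Icc, mem_Icc]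
        constructor
        · rintro ⟨⟨h3, _⟩, h4⟩
          exact ⟨h3, h4⟩
        · rintro ⟨h3, h4⟩
          exact ⟨⟨h3, h4.trans hx⟩, h4⟩
      rw [← h2, sum_filter]
      refine sum_congr rfl fun n _ => ?_
      split_ifs <;> simp
    rw [h1, sum_congr rfl fun v _ => dec_win hf v x χ, sum_comm, ← sum_sub_distrib]
    refine sum_congr rfl fun n _ => ?_
    beta_reduce
    rw [← sum_mul, Nat.cast_sum]
    ring

end Pool.Agent.Lib.MR
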