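import Pool.Agent.Lib.MR.Defs

/-!
# Module HM (25 minutes): the Halász–Montgomery inequality (dual form)

PROOF. `c χ = conj (S χ)` (0 outside `U`). `∑_{χ ∈ U} |S χ|^2 = ∑_n f(n) ∑_{χ ∈ U} c_χ χ(n)`, Cauchy: its square is at most `(∑_{n ≤ y} |f n|^2)(∑_{n ≤ y} |∑_χ c_χ χ(n)|^2) ≤ y (y φ(q)/q + τ(q) + |U| PB q) ∑ |c|^2` (`RG.nearOrth2`, `φ(q) ≤ q`).
Divide by `∑ |c|^2 = ∑ |S|^2` (if it is `0` nothing to prove).
-/

set_option autoImplicit false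

open Finset

namespace Pool.Agent.Lib.MR

theorem hm {q : ℕ} [NeZero q] (h2q : 2 ≤ q) {f : ℕ → ℂ} (hf : CM f) {y : ℝ} (hy : 0 ≤ y)
    (U : Finset (DirichletCharacter ℂ q)) :
    ∑ χ ∈ U, ‖SS f y χ‖ ^ 2 ≤ y * (y + q.divisors.card + U.card * RG.PB q) := by
  classical
  set W : ℝ := ∑ χ ∈ U, ‖SS f y χ‖ ^ 2 with hW
  have hPB : 0 ≤ RG.PB q := by
    have h1 : 0 ≤ Real.log q := Real.log_natCast_nonneg q
    unfold RG.PB
    positivity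
  have hR : 0 ≤ y * (y + q.divisors.card + U.card * RG.PB q) := by positivity
  have hW0 : 0 ≤ W := sum_nonneg fun _ _ => by positivity
  let c : DirichletCharacter ℂ q → ℂ := fun χ => (starRingEnd ℂ) (SS f y χ)
  have hc : ∑ χ ∈ U, ‖c χ‖ ^ 2 = W := by
    rw [hW]
    refine sum_congr rfl fun χ _ => ?_
    simp only [c, RCLike.norm_conj]
  -- the sum as a bilinear form
  have h1 : (W : ℂ) = ∑ n ∈ Icc 1 ⌊y⌋₊, f n * ∑ χ ∈ U, c χ * χ (n : ZMod q) := by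
    have h2 : (W : ℂ) = ∑ χ ∈ U, c χ * SS f y χ := by
      rw [hW, Complex.ofReal_sum]
      refine sum_congr rfl fun χ _ => ?_
      simp only [c]
      rw [← Complex.normSq_eq_conj_mul_self, Complex.normSq_eq_norm_sq]
    rw [h2]
    unfold SS
    simp_rw [mul_sum]
    rw [sum_comm]
    refine sum_congr rfl fun n _ => sum_congr rfl fun χ _ => ?_
    ring
  have h3 : W ^ 2 ≤ (∑ n ∈ Icc 1 ⌊y⌋₊, ‖f n‖ ^ 2) *
      ∑ n ∈ Icc 1 ⌊y⌋₊, ‖∑ χ ∈ U, c χ * χ (n : ZMod q)‖ ^ 2 := by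
    have h4 : W ≤ ∑ n ∈ Icc 1 ⌊y⌋₊, ‖f n‖ * ‖∑ χ ∈ U, c χ * χ (n : ZMod q)‖ := by
      have h5 : W = ‖(W : ℂ)‖ := by rw [Complex.norm_real, Real.norm_eq_abs, abs_of_nonneg hW0]
      rw [h5, h1]
      refine (norm_sum_le _ _).trans (sum_le_sum fun n _ => ?_)
      rw [norm_mul]
    exact (pow_le_pow_left₀ hW0 h4 2).trans (sum_mul_sq_le_sq_mul_sq _ _ _)
  have h6 : ∑ n ∈ Icc 1 ⌊y⌋₊, ‖f n‖ ^ 2 ≤ y := by
    calc ∑ n ∈ Icc 1 ⌊y⌋₊, ‖f n‖ ^ 2 ≤ ∑ n ∈ Icc 1 ⌊y⌋₊, (1 : ℝ) := by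
          refine sum_le_sum fun n _ => ?_
          exact pow_le_one₀ (norm_nonneg _) (hf.le n)
      _ = (⌊y⌋₊ : ℝ) := by simp
      _ ≤ y := Nat.floor_le hy
  have h7 : ∑ n ∈ Icc 1 ⌊y⌋₊, ‖∑ χ ∈ U, c χ * χ (n : ZMod q)‖ ^ 2 ≤
      (y + q.divisors.card + U.card * RG.PB q) * W := by
    have h8 := (abs_le.mp (RG.nearOrth2 h2q U c y hy)).2
    rw [hc] at h8
    have h9 : (q.totient : ℝ) / q ≤ 1 := by
      rw [div_le_one (by positivity)]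
      exact_mod_cast Nat.totient_le q
    have h10 : y * ((q.totient : ℝ) / q) * W ≤ y * W := by
      have : y * ((q.totient : ℝ) / q) ≤ y * 1 := mul_le_mul_of_nonneg_left h9 hy
      nlinarith
    nlinarith
  have h11 : W ^ 2 ≤ y * ((y + q.divisors.card + U.card * RG.PB q) * W) :=
    h3.trans (mul_le_mul h6 h7 (sum_nonneg fun _ _ => by positivity) hy)
  rcases hW0.eq_or_lt with h | h
  · rw [← h]; exact hR
  · have h12 : W * W ≤ (y * (y + q.divisors.card + U.card * RG.PB q)) * W := by nlinarith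
    exact le_of_mul_le_mul_right h12 h

end Pool.Agent.Lib.MR
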