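import Pool.Agent.Lib.MR.Defs

/-!
# Module MomA (35 minutes): the coefficients of `(∑_P a_p χ(p))^l ∑_m b_m χ(m)`

`cc_supp`: induction on `l`: if `n` is not in `Icc 1 (Z^(l+1) Y)` then for every `p ∈ P`, `p ∣ n`, `n / p` is not in `Icc 1 (Z^l Y)` (`n = 0` gives `n/p = 0`; `n > Z^(l+1) Y ≥ p Z^l Y` gives `n/p > Z^l Y`).
`cc_expand`: induction: `∑_{p ∈ P} ∑_{m ∈ Icc 1 (Z^l Y)} a_p cc_l(m) χ(pm)`, regroup by `n = p m ≤ Z^(l+1) Y` (for given `p ∣ n` the `m` is `n/p`; the terms with `n/p > Z^l Y` vanish by `cc_supp`).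
-/

set_option autoImplicit false

open Finset

namespace Pool.Agent.Lib.MR

/-- the coefficients -/
def cc (P : Finset ℕ) (a b : ℕ → ℂ) : ℕ → ℕ → ℂ
  | 0, n => b n
  | l + 1, n => ∑ p ∈ P.filter (fun p => p ∣ n), a p * cc P a b l (n / p)

variable {P : Finset ℕ} {a b : ℕ → ℂ} {Z Y : ℕ}

/-- regrouping the multiples of `p` -/
theorem cc_regroup {M : Type*} [AddCommMonoid M] {p W V : ℕ} (hp : 0 < p) (hV : p * W ≤ V) (g : ℕ → M)
    (hg : ∀ m, m ∉ Icc 1 W → g m = 0) :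
    ∑ n ∈ (Icc 1 V).filter (fun n => p ∣ n), g (n / p) = ∑ m ∈ Icc 1 W, g m := by
  have h1 : ∑ m ∈ Icc 1 W, g m = ∑ n ∈ (Icc 1 W).image (fun m => p * m), g (n / p) := by
    rw [sum_image (fun x _ y _ h => Nat.eq_of_mul_eq_mul_left hp h)]
    refine sum_congr rfl fun m _ => ?_
    rw [Nat.mul_div_cancel_left _ hp]
  rw [h1]
  symm
  apply sum_subset
  · intro n hn
    rw [mem_image] at hn
    obtain ⟨m, hm, rfl⟩ := hn
    rw [mem_Icc] at hm
    rw [mem_filter, mem_Icc]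
    exact ⟨⟨Nat.mul_pos hp hm.1, (Nat.mul_le_mul_left p hm.2).trans hV⟩, Dvd.intro _ rfl⟩
  · intro n hn hn'
    rw [mem_filter] at hn
    obtain ⟨m, rfl⟩ := hn.2
    rw [Nat.mul_div_cancel_left _ hp]
    apply hg
    intro hm
    exact hn' (mem_image.mpr ⟨m, hm, rfl⟩)

theorem cc_supp (hP : ∀ p ∈ P, p.Prime ∧ p ≤ Z) (hb : ∀ n, n ∉ Icc 1 Y → b n = 0) (l n : ℕ)
    (hn : n ∉ Icc 1 (Z ^ l * Y)) : cc P a b l n = 0 := by
  induction l generalizing n with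
  | zero => exact hb n (by simpa using hn)
  | succ l ih =>
    simp only [cc]
    apply sum_eq_zero
    intro p hp
    rw [mem_filter] at hp
    obtain ⟨hpP, hpn⟩ := hp
    obtain ⟨hpp, hpZ⟩ := hP p hpP
    have h : n / p ∉ Icc 1 (Z ^ l * Y) := by
      intro h
      apply hn
      rw [mem_Icc] at h ⊢
      obtain ⟨m, rfl⟩ := hpn
      rw [Nat.mul_div_cancel_left _ hpp.pos] at h
      refine ⟨Nat.mul_pos hpp.pos h.1, ?_⟩
      calc p * m ≤ Z * (Z ^ l * Y) := Nat.mul_le_mul hpZ h.2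
        _ = Z ^ (l + 1) * Y := by ring
    rw [ih _ h, mul_zero]

theorem cc_expand {q : ℕ} [NeZero q] (hP : ∀ p ∈ P, p.Prime ∧ p ≤ Z) (hb : ∀ n, n ∉ Icc 1 Y → b n = 0)
    (χ : DirichletCharacter ℂ q) (l : ℕ) :
    (∑ p ∈ P, a p * χ (p : ZMod q)) ^ l * ∑ m ∈ Icc 1 Y, b m * χ (m : ZMod q) =
      ∑ n ∈ Icc 1 (Z ^ l * Y), cc P a b l n * χ (n : ZMod q) := by
  induction l with
  | zero => simp [cc]
  | succ l ih =>
    have e1 : (∑ p ∈ P, a p * χ (p : ZMod q)) ^ (l + 1) * ∑ m ∈ Icc 1 Y, b m * χ (m : ZMod q) =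
        (∑ p ∈ P, a p * χ (p : ZMod q)) * ∑ n ∈ Icc 1 (Z ^ l * Y), cc P a b l n * χ (n : ZMod q) := by
      rw [← ih]; ring
    rw [e1, sum_mul]
    have e2 : ∀ p ∈ P, a p * χ (p : ZMod q) * ∑ n ∈ Icc 1 (Z ^ l * Y), cc P a b l n * χ (n : ZMod q) =
        ∑ n ∈ (Icc 1 (Z ^ (l + 1) * Y)).filter (fun n => p ∣ n),
          a p * cc P a b l (n / p) * χ (n : ZMod q) := by
      intro p hp
      obtain ⟨hpp, hpZ⟩ := hP p hp
      have hV : p * (Z ^ l * Y) ≤ Z ^ (l + 1) * Y := by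
        calc p * (Z ^ l * Y) ≤ Z * (Z ^ l * Y) := Nat.mul_le_mul_right _ hpZ
          _ = Z ^ (l + 1) * Y := by ring
      have h := cc_regroup (M := ℂ) hpp.pos hV (fun m => a p * cc P a b l m * χ ((p * m : ℕ) : ZMod q))
        (fun m hm => by
          rw [cc_supp hP hb l m hm, mul_zero, zero_mul])
      rw [mul_sum]
      have h2 : ∑ n ∈ (Icc 1 (Z ^ (l + 1) * Y)).filter (fun n => p ∣ n),
          a p * cc P a b l (n / p) * χ (n : ZMod q) =
          ∑ n ∈ (Icc 1 (Z ^ (l + 1) * Y)).filter (fun n => p ∣ n),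
            a p * cc P a b l (n / p) * χ ((p * (n / p) : ℕ) : ZMod q) := by
        refine sum_congr rfl fun n hn => ?_
        rw [mem_filter] at hn
        rw [Nat.mul_div_cancel' hn.2]
      rw [h2, h]
      refine sum_congr rfl fun m _ => ?_
      push_cast
      rw [map_mul]
      ring
    rw [sum_congr rfl e2]
    simp only [cc]
    have e3 : ∀ n, (∑ p ∈ P.filter (fun p => p ∣ n), a p * cc P a b l (n / p)) * χ (n : ZMod q) =
        ∑ p ∈ P, if p ∣ n then a p * cc P a b l (n / p) * χ (n : ZMod q) else 0 := by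
      intro n
      rw [sum_mul, sum_filter]
    simp only [e3]
    rw [sum_comm]
    refine sum_congr rfl fun p _ => ?_
    rw [sum_filter]

end Pool.Agent.Lib.MR
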