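import Pool.Agent.Lib.MR.MomA

/-!
# Module MomB (35 minutes): the second moment of the coefficients

More generally for every `G : ℕ → ℝ`, `G ≥ 0`:
`∑_{n ≤ Z^l Y} |cc_l n|^2 G(Om P n) ≤ |P|^l ∑_{m ≤ Y} (∏_{i<l} (Om P m + i + 1)) G(Om P m + l)` by induction on `l` (all `G`; `l = 0`: `|b| ≤ 1`):
`|cc_(l+1) n|^2 ≤ om P n ∑_{p ∣ n} |cc_l(n/p)|^2` (Cauchy, `|a| ≤ 1`), `om P n ≤ Om P n` for `n ≥ 1`, `Om P (p m) = Om P m + 1` for `p ∈ P`, `m ≥ 1` (`padicValNat.mul`): so the left side for `l+1` is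
`≤ ∑_{p ∈ P} ∑_{m ≤ Z^l Y} |cc_l m|^2 (Om P m + 1) G(Om P m + 1) ≤ |P| ∑_m |cc_l m|^2 G'(Om P m)`, `G' t = (t+1) G(t+1)` (as in `cc_expand`, `cc_supp` for the terms with `n/p > Z^l Y`). With `G = 1`: `∏_{i<l}(Om P m + i + 1) ≤ (Om P m + l)^l`.
-/

set_option autoImplicit false

open Finset

namespace Pool.Agent.Lib.MR

variable {P : Finset ℕ} {a b : ℕ → ℂ} {Z Y : ℕ}

theorem om_le_Om (hP : ∀ p ∈ P, p.Prime) {n : ℕ} (hn : 1 ≤ n) : (P.filter (fun p => p ∣ n)).card ≤ Om P n := by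
  unfold Om
  rw [card_eq_sum_ones, sum_filter]
  refine sum_le_sum fun p hp => ?_
  have hpp := hP p hp
  split_ifs with h
  · haveI : Fact p.Prime := ⟨hpp⟩
    exact one_le_padicValNat_of_dvd (by omega) h
  · exact Nat.zero_le _

theorem Om_mul (hP : ∀ p ∈ P, p.Prime) {p m : ℕ} (hp : p ∈ P) (hm : 1 ≤ m) : Om P (p * m) = Om P m + 1 := by
  unfold Om
  have h : ∀ r ∈ P, padicValNat r (p * m) = padicValNat r m + if r = p then 1 else 0 := by
    intro r hr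
    haveI : Fact r.Prime := ⟨hP r hr⟩
    have hpp := hP p hp
    rw [padicValNat.mul hpp.ne_zero (by omega)]
    split_ifs with h
    · subst h
      rw [padicValNat_self, add_comm]
    · haveI : Fact p.Prime := ⟨hpp⟩
      rw [padicValNat_primes h, zero_add, add_zero]
  rw [sum_congr rfl h, sum_add_distrib, sum_ite_eq', if_pos hp]

theorem cc_sq_gen (hP : ∀ p ∈ P, p.Prime ∧ p ≤ Z) (hb : ∀ n, n ∉ Icc 1 Y → b n = 0)
    (ha1 : ∀ n, ‖a n‖ ≤ 1) (hb1 : ∀ n, ‖b n‖ ≤ 1) (l : ℕ) :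
    ∀ G : ℕ → ℝ, (∀ t, 0 ≤ G t) →
    ∑ n ∈ Icc 1 (Z ^ l * Y), ‖cc P a b l n‖ ^ 2 * G (Om P n) ≤
      (P.card : ℝ) ^ l * ∑ m ∈ Icc 1 Y, (∏ i ∈ range l, ((Om P m : ℝ) + i + 1)) * G (Om P m + l) := by
  induction l with
  | zero =>
    intro G hG
    simp only [pow_zero, one_mul, range_zero, prod_empty, add_zero]
    refine sum_le_sum fun n _ => ?_
    have h1 : ‖cc P a b 0 n‖ ^ 2 ≤ 1 := by
      have := hb1 n
      have h0 : 0 ≤ ‖b n‖ := norm_nonneg _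
      simp only [cc]
      nlinarith
    calc ‖cc P a b 0 n‖ ^ 2 * G (Om P n) ≤ 1 * G (Om P n) := mul_le_mul_of_nonneg_right h1 (hG _)
      _ = G (Om P n) := one_mul _
  | succ l ih =>
    intro G hG
    have hPp : ∀ p ∈ P, p.Prime := fun p hp => (hP p hp).1
    -- pointwise
    have e1 : ∀ n ∈ Icc 1 (Z ^ (l + 1) * Y), ‖cc P a b (l + 1) n‖ ^ 2 * G (Om P n) ≤
        ∑ p ∈ P, if p ∣ n then ‖cc P a b l (n / p)‖ ^ 2 * ((Om P n : ℝ) * G (Om P n)) else 0 := by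
      intro n hn
      rw [mem_Icc] at hn
      have h1 : ‖cc P a b (l + 1) n‖ ≤ ∑ p ∈ P.filter (fun p => p ∣ n), ‖cc P a b l (n / p)‖ := by
        simp only [cc]
        refine (norm_sum_le _ _).trans (sum_le_sum fun p _ => ?_)
        rw [norm_mul]
        calc ‖a p‖ * ‖cc P a b l (n / p)‖ ≤ 1 * ‖cc P a b l (n / p)‖ :=
              mul_le_mul_of_nonneg_right (ha1 p) (norm_nonneg _)
          _ = _ := one_mul _
      have h2 : ‖cc P a b (l + 1) n‖ ^ 2 ≤ (∑ p ∈ P.filter (fun p => p ∣ n), ‖cc P a b l (n / p)‖) ^ 2 :=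
        pow_le_pow_left₀ (norm_nonneg _) h1 2
      have h3 := sq_sum_le_card_mul_sum_sq (s := P.filter (fun p => p ∣ n)) (f := fun p => ‖cc P a b l (n / p)‖)
      have h4 : ((P.filter (fun p => p ∣ n)).card : ℝ) ≤ (Om P n : ℝ) := by
        exact_mod_cast om_le_Om hPp hn.1
      have h5 : 0 ≤ ∑ p ∈ P.filter (fun p => p ∣ n), ‖cc P a b l (n / p)‖ ^ 2 :=
        sum_nonneg fun _ _ => by positivity
      have h6 : ‖cc P a b (l + 1) n‖ ^ 2 ≤ (Om P n : ℝ) * ∑ p ∈ P.filter (fun p => p ∣ n), ‖cc P a b l (n / p)‖ ^ 2 :=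
        (h2.trans h3).trans (mul_le_mul_of_nonneg_right h4 h5)
      calc ‖cc P a b (l + 1) n‖ ^ 2 * G (Om P n)
          ≤ ((Om P n : ℝ) * ∑ p ∈ P.filter (fun p => p ∣ n), ‖cc P a b l (n / p)‖ ^ 2) * G (Om P n) :=
            mul_le_mul_of_nonneg_right h6 (hG _)
        _ = ∑ p ∈ P.filter (fun p => p ∣ n), ‖cc P a b l (n / p)‖ ^ 2 * ((Om P n : ℝ) * G (Om P n)) := by
            rw [← sum_mul]; ring
        _ = _ := by rw [sum_filter]
    refine (sum_le_sum e1).trans ?_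
    rw [sum_comm]
    have e2 : ∀ p ∈ P, (∑ n ∈ Icc 1 (Z ^ (l + 1) * Y),
        if p ∣ n then ‖cc P a b l (n / p)‖ ^ 2 * ((Om P n : ℝ) * G (Om P n)) else 0) =
        ∑ m ∈ Icc 1 (Z ^ l * Y), ‖cc P a b l m‖ ^ 2 * (((Om P m : ℝ) + 1) * G (Om P m + 1)) := by
      intro p hp
      obtain ⟨hpp, hpZ⟩ := hP p hp
      have hV : p * (Z ^ l * Y) ≤ Z ^ (l + 1) * Y := by
        calc p * (Z ^ l * Y) ≤ Z * (Z ^ l * Y) := Nat.mul_le_mul_right _ hpZ
          _ = Z ^ (l + 1) * Y := by ring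
      rw [← sum_filter]
      have h := cc_regroup (M := ℝ) hpp.pos hV
        (fun m => ‖cc P a b l m‖ ^ 2 * ((Om P (p * m) : ℝ) * G (Om P (p * m))))
        (fun m hm => by
          rw [cc_supp hP hb l m hm, norm_zero]
          ring)
      have h2 : ∑ n ∈ (Icc 1 (Z ^ (l + 1) * Y)).filter (fun n => p ∣ n),
          ‖cc P a b l (n / p)‖ ^ 2 * ((Om P n : ℝ) * G (Om P n)) =
          ∑ n ∈ (Icc 1 (Z ^ (l + 1) * Y)).filter (fun n => p ∣ n),
          ‖cc P a b l (n / p)‖ ^ 2 * ((Om P (p * (n / p)) : ℝ) * G (Om P (p * (n / p)))) := by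
        refine sum_congr rfl fun n hn => ?_
        rw [mem_filter] at hn
        rw [Nat.mul_div_cancel' hn.2]
      rw [h2, h]
      refine sum_congr rfl fun m hm => ?_
      rw [mem_Icc] at hm
      rw [Om_mul hPp hp hm.1]
      push_cast
      ring
    rw [sum_congr rfl e2, sum_const, nsmul_eq_mul]
    have h7 := ih (fun t => ((t : ℝ) + 1) * G (t + 1)) (fun t => mul_nonneg (by positivity) (hG _))
    calc (P.card : ℝ) * ∑ m ∈ Icc 1 (Z ^ l * Y), ‖cc P a b l m‖ ^ 2 * (((Om P m : ℝ) + 1) * G (Om P m + 1))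
        ≤ (P.card : ℝ) * ((P.card : ℝ) ^ l * ∑ m ∈ Icc 1 Y, (∏ i ∈ range l, ((Om P m : ℝ) + i + 1)) *
            ((((Om P m + l : ℕ) : ℝ) + 1) * G (Om P m + l + 1))) :=
          mul_le_mul_of_nonneg_left h7 (Nat.cast_nonneg _)
      _ = (P.card : ℝ) ^ (l + 1) * ∑ m ∈ Icc 1 Y, (∏ i ∈ range (l + 1), ((Om P m : ℝ) + i + 1)) *
            G (Om P m + (l + 1)) := by
          rw [← mul_assoc, ← pow_succ']
          congr 1
          refine sum_congr rfl fun m _ => ?_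
          rw [prod_range_succ]
          push_cast
          rw [← add_assoc (Om P m) l 1]
          ring

theorem cc_sq (hP : ∀ p ∈ P, p.Prime ∧ p ≤ Z) (hb : ∀ n, n ∉ Icc 1 Y → b n = 0)
    (ha1 : ∀ n, ‖a n‖ ≤ 1) (hb1 : ∀ n, ‖b n‖ ≤ 1) (l : ℕ) :
    ∑ n ∈ Icc 1 (Z ^ l * Y), ‖cc P a b l n‖ ^ 2 ≤
      (P.card : ℝ) ^ l * ∑ m ∈ Icc 1 Y, ((Om P m : ℝ) + l) ^ l := by
  have h := cc_sq_gen hP hb ha1 hb1 l (fun _ => 1) (fun _ => zero_le_one)
  simp only [mul_one] at h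
  refine h.trans (mul_le_mul_of_nonneg_left (sum_le_sum fun m _ => ?_) (by positivity))
  calc ∏ i ∈ range l, ((Om P m : ℝ) + i + 1) ≤ ∏ _i ∈ range l, ((Om P m : ℝ) + l) := by
        refine prod_le_prod (fun i _ => by positivity) fun i hi => ?_
        rw [mem_range] at hi
        have : (i : ℝ) + 1 ≤ l := by exact_mod_cast hi
        linarith
    _ = ((Om P m : ℝ) + l) ^ l := by rw [prod_const, card_range]

end Pool.Agent.Lib.MR
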