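import Pool.Agent.Lib.MR.Num

/-!
# Module NumB (35 minutes): the exponent of a step

`L = log E ≥ 100`, `E' = dn E`, `L^2 ≤ E' ≤ 2L^2` (`dn_le`), `l = ⌈u/u'⌉₊`, `1 ≤ l ≤ u/E' + 1 ≤ E^2` (`u' ≥ E'`), `log l ≤ 2L`:
`l log l ≤ (u/E' + 1) 2L ≤ 2u/√E' + 2√E'` (`L ≤ √E'`), `2u' ≤ 2E'^2`, `2l/E' ≤ 2u/E'^2 + 2`, `2(al E - al E')u ≥ u E'^(-1/4)` (`al_diff`). With `E' ≥ 10^4`: `2/√E' + 2/E'^2 ≤ (1/4) E'^(-1/4)`; `2√E' + 2E'^2 + 4 ≤ (1/4) u E'^(-1/4)` as `u ≥ E = e^L`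
and `E' ≤ 2L^2`; remains `-(1/2) u E'^(-1/4) ≤ -(1/2) E/(2 √L) ≤ -√E`.
-/

set_option autoImplicit false

open Finset

namespace Pool.Agent.Lib.MR

theorem pairn {E : ℕ} (hE : 100 ≤ Real.log E) {u u' : ℝ} (hu : (E : ℝ) ≤ u) (hu2 : u ≤ (E : ℝ) ^ 2)
    (hu' : (dn E : ℝ) ≤ u') (hu2' : u' ≤ (dn E : ℝ) ^ 2) :
    Real.log 4 + ⌈u / u'⌉₊ * Real.log ⌈u / u'⌉₊ + 2 * u' + 2 * ⌈u / u'⌉₊ / dn E - 2 * (al E - al (dn E)) * u ≤
      - Real.sqrt E := by
  obtain ⟨h1, h2, h3, h4, h5, h6, h7⟩ := dn_le hE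
  have hE0 : 0 < E := by omega
  have hEr : (0 : ℝ) < E := by exact_mod_cast hE0
  have hdiff := al_diff (E := E) (E' := dn E) (by omega) h3
  have h3' : 16 * (dn E : ℝ) ≤ E := by exact_mod_cast h3
  have ha4 : (10000 : ℝ) ≤ (dn E : ℝ) := by exact_mod_cast h2
  set a : ℝ := (dn E : ℝ) with ha
  have ha0 : 0 < a := by linarith
  set L := Real.log E with hL
  have hEe : (E : ℝ) = Real.exp L := (Real.exp_log hEr).symm
  have hu0 : 0 < u := by linarith
  have hu'0 : 0 < u' := by linarith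
  have hx0 : 0 < u / u' := by positivity
  have hl1 : (1 : ℝ) ≤ (⌈u / u'⌉₊ : ℝ) := by exact_mod_cast Nat.ceil_pos.mpr hx0
  have hl2 : (⌈u / u'⌉₊ : ℝ) ≤ u / a + 1 := by
    have h8 := (Nat.ceil_lt_add_one hx0.le).le
    have h9 : u / u' ≤ u / a := div_le_div_of_nonneg_left hu0.le ha0 hu'
    linarith
  set l : ℝ := (⌈u / u'⌉₊ : ℝ) with hl
  have hlE : l ≤ (E : ℝ) ^ 2 := by
    have h8 : u / a ≤ (E : ℝ) ^ 2 / 10000 := by
      calc u / a ≤ (E : ℝ) ^ 2 / a := div_le_div_of_nonneg_right hu2 ha0.le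
        _ ≤ (E : ℝ) ^ 2 / 10000 := div_le_div_of_nonneg_left (by positivity) (by norm_num) ha4
    have h9 : (E : ℝ) ≤ (E : ℝ) ^ 2 := le_self_pow₀ (by linarith) (by norm_num)
    linarith
  have hlog : Real.log l ≤ 2 * L := by
    calc Real.log l ≤ Real.log ((E : ℝ) ^ 2) := Real.log_le_log (by linarith) hlE
      _ = 2 * L := by
          rw [Real.log_pow, ← hL]
          norm_num
  set t : ℝ := a ^ (-(1 / 4 : ℝ)) with ht
  have ht0 : 0 < t := Real.rpow_pos_of_pos ha0 _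
  have ht4 : t ^ 4 * a = 1 := by
    have h8 : t ^ 4 = a⁻¹ := by
      rw [ht, ← Real.rpow_natCast, ← Real.rpow_mul ha0.le, ← Real.rpow_neg_one]
      norm_num
    rw [h8]
    exact inv_mul_cancel₀ ha0.ne'
  have ht10 : t ≤ 1 / 10 := by
    by_contra hcon
    push Not at hcon
    have h8 : (1 / 10 : ℝ) ^ 4 < t ^ 4 := pow_lt_pow_left₀ hcon (by norm_num) (by norm_num)
    nlinarith
  have hL0 : 0 < L := by linarith
  have htL : 1 / (2 * L) ≤ t := by
    by_contra hcon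
    push Not at hcon
    have h8 : t ^ 4 < (1 / (2 * L)) ^ 4 := pow_lt_pow_left₀ hcon ht0.le (by norm_num)
    have h9 : t ^ 4 * a ≤ (1 / (2 * L)) ^ 4 * (2 * L ^ 2) :=
      mul_le_mul h8.le h7 ha0.le (by positivity)
    have h10 : (1 / (2 * L)) ^ 4 * (2 * L ^ 2) = 1 / (8 * L ^ 2) := by
      field_simp
      ring
    rw [h10, ht4] at h9
    have h11 : 1 / (8 * L ^ 2) < 1 := by
      rw [div_lt_one (by positivity)]
      nlinarith
    linarith
  have hs : Real.sqrt a * t ^ 2 = 1 := by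
    have h8 : Real.sqrt a = (t ^ 2)⁻¹ := by
      have h9 : a = ((t ^ 2)⁻¹) ^ 2 := by
        rw [inv_pow, ← pow_mul]
        exact eq_inv_of_mul_eq_one_right ht4
      rw [h9, Real.sqrt_sq (by positivity)]
    rw [h8]
    exact inv_mul_cancel₀ (by positivity)
  have hLs : L ≤ Real.sqrt a := Real.le_sqrt_of_sq_le h6
  have hs1 : Real.sqrt a ≤ a := by
    rw [Real.sqrt_le_left (by linarith), pow_two]
    have h8 := mul_le_mul_of_nonneg_right ha4 ha0.le
    linarith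
  have hua : u / a = u * t ^ 4 := by
    rw [div_eq_iff ha0.ne', mul_assoc, ht4, mul_one]
  rw [hua] at hl2
  have hut : 0 < u * t := by positivity
  have e1 : l * Real.log l ≤ 2 * (u * t ^ 2) + 2 * Real.sqrt a := by
    have h8 : Real.log l ≤ 2 * Real.sqrt a := by linarith
    have h9 : 0 ≤ Real.log l := Real.log_nonneg hl1
    calc l * Real.log l ≤ (u * t ^ 4 + 1) * (2 * Real.sqrt a) :=
          mul_le_mul hl2 h8 h9 (by positivity)
      _ = 2 * (u * t ^ 2) * (Real.sqrt a * t ^ 2) + 2 * Real.sqrt a := by ring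
      _ = _ := by rw [hs, mul_one]
  have e2 : 2 * l / a ≤ 2 * (u * t ^ 8) + 2 := by
    have h8 : a⁻¹ = t ^ 4 := by
      rw [inv_eq_of_mul_eq_one_left ht4]
    have h9 : t ^ 4 ≤ 1 := pow_le_one₀ ht0.le (by linarith)
    calc 2 * l / a = 2 * l * t ^ 4 := by rw [div_eq_mul_inv, h8]
      _ ≤ 2 * (u * t ^ 4 + 1) * t ^ 4 := by
          refine mul_le_mul_of_nonneg_right ?_ (by positivity)
          linarith
      _ = 2 * (u * t ^ 8) + 2 * t ^ 4 := by ring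
      _ ≤ _ := by linarith
  have e3 : u * t ≤ 2 * (al E - al (dn E)) * u := by
    have h8 : t ≤ 2 * (al E - al (dn E)) := by linarith
    have h9 := mul_le_mul_of_nonneg_right h8 hu0.le
    linarith
  have e4 : 2 * (u * t ^ 2) + 2 * (u * t ^ 8) ≤ 1 / 4 * (u * t) := by
    have h8 : t ^ 7 ≤ (1 / 10) ^ 7 := pow_le_pow_left₀ ht0.le ht10 7
    have h9 : 2 * t + 2 * t ^ 7 ≤ 1 / 4 := by
      norm_num at h8 ⊢
      linarith
    calc 2 * (u * t ^ 2) + 2 * (u * t ^ 8) = (u * t) * (2 * t + 2 * t ^ 7) := by ring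
      _ ≤ (u * t) * (1 / 4) := mul_le_mul_of_nonneg_left h9 hut.le
      _ = _ := by ring
  have hlog4 : Real.log 4 ≤ 2 := by
    have h8 : (4 : ℝ) = 2 ^ 2 := by norm_num
    rw [h8, Real.log_pow]
    have := Real.log_two_lt_d9
    norm_num at this ⊢
    linarith
  have e5 : Real.log 4 + 2 * Real.sqrt a + 2 * u' + 2 ≤ 1 / 4 * (u * t) := by
    have h20 : 10000 * a ≤ a ^ 2 := by
      rw [pow_two]
      exact mul_le_mul_of_nonneg_right ha4 ha0.le
    have h8 : Real.log 4 + 2 * Real.sqrt a + 2 * u' + 2 ≤ 3 * a ^ 2 := by linarith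
    have h9 : a ^ 2 ≤ (2 * L ^ 2) ^ 2 := pow_le_pow_left₀ ha0.le h7 2
    have h10 : L ^ 10 / (Nat.factorial 10 : ℝ) ≤ Real.exp L := Real.pow_div_factorial_le_exp L hL0.le 10
    have h11 : ((Nat.factorial 10 : ℕ) : ℝ) = 3628800 := by norm_num [Nat.factorial]
    rw [h11, ← hEe] at h10
    have h12 : (L ^ 10 / 3628800) * (1 / (2 * L)) ≤ u * t :=
      mul_le_mul (h10.trans hu) htL (by positivity) hu0.le
    have h13 : (L ^ 10 / 3628800) * (1 / (2 * L)) = L ^ 9 / 7257600 := by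
      field_simp
      norm_num
    rw [h13] at h12
    have h14 : (100 : ℝ) ^ 5 ≤ L ^ 5 := pow_le_pow_left₀ (by norm_num) hE 5
    have h15 : L ^ 9 = L ^ 4 * L ^ 5 := by ring
    have h16 : 0 < L ^ 4 := by positivity
    have h17 : 48 * L ^ 4 ≤ L ^ 9 / 7257600 := by
      rw [h15, le_div_iff₀ (by norm_num)]
      have h21 := mul_le_mul_of_nonneg_left h14 h16.le
      norm_num at h21
      linarith
    have h18 : (2 * L ^ 2) ^ 2 = 4 * L ^ 4 := by ring
    rw [h18] at h9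
    linarith
  have e6 : Real.sqrt E ≤ 1 / 2 * (u * t) := by
    have h8 : Real.sqrt E * Real.sqrt E = E := Real.mul_self_sqrt hEr.le
    have h9 : 0 ≤ Real.sqrt E := Real.sqrt_nonneg _
    have h10 : 1000 ≤ a * t := by
      have h11 : t ^ 3 ≤ (1 / 10) ^ 3 := pow_le_pow_left₀ ht0.le ht10 3
      have h12 : t ^ 3 * (a * t) = 1 := by rw [← ht4]; ring
      have h13 : 0 < a * t := by positivity
      have h14 := mul_le_mul_of_nonneg_right h11 h13.le
      rw [h12] at h14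
      norm_num at h14
      linarith
    have h11 : a * t ≤ Real.sqrt E * t := mul_le_mul_of_nonneg_right h1 ht0.le
    have h12 : (E : ℝ) * t ≤ u * t := mul_le_mul_of_nonneg_right hu ht0.le
    have h13 : Real.sqrt E * (Real.sqrt E * t) = E * t := by rw [← mul_assoc, h8]
    have h14 := mul_le_mul_of_nonneg_left (h10.trans h11) h9
    linarith
  linarith

end Pool.Agent.Lib.MR
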