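import Pool.Agent.Lib.MR.Num

/-!
# Module NumC (20 minutes): numerics of the step and of the base

`stepn`: `2 E^3 E^3 E'^3 e^(-√E) ≤ 1/E` for `log E ≥ 100` (`dn E ≤ √E`, so it is enough that `2 E^9 ≤ e^(√E)`: `√E ≥ E^(1/4) e^25`, `e^t ≥ t^k/k!`, or take logarithms: `log 2 + 9 log E ≤ √E`, `log E = 2 log √E ≤ ...`).
`basen`: `4 E^6 e^(-E/5) ≤ 1/E` (`e^(E/5) ≥ 4 E^7` for `E ≥ 10^4`).
-/

set_option autoImplicit false

open Finset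

namespace Pool.Agent.Lib.MR

private theorem pow_lt_exp {t : ℝ} (ht : 0 ≤ t) (n : ℕ) : t ^ n / n.factorial ≤ Real.exp t :=
  Real.pow_div_factorial_le_exp t ht n

theorem stepn {E : ℕ} (hE : 100 ≤ Real.log E) :
    2 * (E : ℝ) ^ 3 * ((E : ℝ) ^ 3 * ((dn E : ℝ) ^ 3 * Real.exp (- Real.sqrt E))) ≤ 1 / E := by
  have hE0 : (0 : ℝ) < E := by
    by_contra h
    have h1 : (E : ℝ) = 0 := le_antisymm (not_lt.mp h) (Nat.cast_nonneg _)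
    rw [h1, Real.log_zero] at hE
    norm_num at hE
  obtain ⟨hd, -⟩ := dn_le hE
  set s : ℝ := Real.sqrt E with hs
  have hs0 : 0 < s := Real.sqrt_pos.mpr hE0
  have hss : s ^ 2 = E := Real.sq_sqrt hE0.le
  -- s ≥ e^50
  have h50 : 50 ≤ Real.log s := by
    rw [hs, Real.log_sqrt hE0.le]
    linarith
  have hs50 : Real.exp 50 ≤ s := by
    rw [← Real.exp_log hs0]
    exact Real.exp_le_exp.mpr h50
  have hbig : (2 : ℝ) * (18).factorial ≤ s := by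
    refine le_trans ?_ hs50
    have h1 := Real.pow_div_factorial_le_exp 50 (by norm_num) 30
    refine le_trans ?_ h1
    rw [le_div_iff₀ (by positivity)]
    norm_num [Nat.factorial]
  have hexp := Real.pow_div_factorial_le_exp s hs0.le 18
  rw [le_div_iff₀ hE0, ← hss]
  have h2 : (dn E : ℝ) ^ 3 ≤ s ^ 3 := pow_le_pow_left₀ (Nat.cast_nonneg _) hd 3
  have h3 : 2 * (s ^ 2) ^ 3 * ((s ^ 2) ^ 3 * ((dn E : ℝ) ^ 3 * Real.exp (-s))) * s ^ 2 ≤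
      2 * s ^ 17 * Real.exp (-s) := by
    calc 2 * (s ^ 2) ^ 3 * ((s ^ 2) ^ 3 * ((dn E : ℝ) ^ 3 * Real.exp (-s))) * s ^ 2
        ≤ 2 * (s ^ 2) ^ 3 * ((s ^ 2) ^ 3 * (s ^ 3 * Real.exp (-s))) * s ^ 2 := by gcongr
      _ = 2 * s ^ 17 * Real.exp (-s) := by ring
  refine h3.trans ?_
  rw [Real.exp_neg, mul_inv_le_iff₀ (Real.exp_pos _), one_mul]
  refine le_trans ?_ hexp
  rw [le_div_iff₀ (by positivity)]
  calc 2 * s ^ 17 * (18 : ℕ).factorial = (2 * (18 : ℕ).factorial) * s ^ 17 := by ring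
    _ ≤ s * s ^ 17 := by gcongr
    _ = s ^ 18 := by ring

theorem basen {E : ℕ} (hE : 10000 ≤ E) : 2 * (E : ℝ) ^ 3 * ((E : ℝ) ^ 3 * (2 * Real.exp (-(E : ℝ) / 5))) ≤ 1 / E := by
  have hE1 : (10000 : ℝ) ≤ E := by exact_mod_cast hE
  have hE0 : (0 : ℝ) < E := by linarith
  rw [le_div_iff₀ hE0]
  have h1 := Real.pow_div_factorial_le_exp ((E : ℝ) / 5) (by positivity) 14
  have h2 : 2 * (E : ℝ) ^ 3 * ((E : ℝ) ^ 3 * (2 * Real.exp (-(E : ℝ) / 5))) * E =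
      4 * (E : ℝ) ^ 7 * Real.exp (-((E : ℝ) / 5)) := by
    rw [neg_div]; ring
  rw [h2, Real.exp_neg, mul_inv_le_iff₀ (Real.exp_pos _), one_mul]
  refine le_trans ?_ h1
  rw [div_pow, div_div, le_div_iff₀ (by positivity)]
  have h3 : (10000 : ℝ) ^ 7 ≤ (E : ℝ) ^ 7 := pow_le_pow_left₀ (by norm_num) hE1 7
  calc 4 * (E : ℝ) ^ 7 * (5 ^ 14 * ((14 : ℕ).factorial : ℝ)) = (4 * 5 ^ 14 * ((14 : ℕ).factorial : ℝ)) * (E : ℝ) ^ 7 := by ring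
    _ ≤ (10000 : ℝ) ^ 7 * (E : ℝ) ^ 7 := by
        gcongr
        norm_num [Nat.factorial]
    _ ≤ (E : ℝ) ^ 7 * (E : ℝ) ^ 7 := by gcongr
    _ = (E : ℝ) ^ 14 := by ring

end Pool.Agent.Lib.MR
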