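import Pool.Agent.Lib.MR.NumB
import Pool.Agent.Lib.MR.Mom

/-!
# Module Pair (35 minutes): one pair of windows

PROOF. `u = v/E ∈ [E, E^2)`, `E' = dn E`, `u' = v'/E' ∈ [E', E'^2)`, `l = ⌈u/u'⌉₊`, so `u ≤ l u' ≤ u + u'`. For `χ ∈ T`: `‖Q_v‖^2 ≤ e^(2(1-α)u)` and `1 ≤ (‖Q'‖ e^(-(1-α')u'))^(2l)`, hence the sum is at most
`e^(2(1-α)u) e^(-2l(1-α')u') ∑_χ ‖Q'‖^(2l) ‖S(x/e^u)‖^2`, and `momw` (`H = E' ≥ 10^4`, `ex E' v' ≥ e^(E') ≥ 16`) with `y = x e^(-u)`, `Z = ex E' (v'+1) = e^(u' + 1/E')`: `Z^l y ≤ x e^(u' + l/E')`, `q ≤ x ≤ x e^(..)`: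
`≤ 2 x e^(u' + l/E') · 2 l^l x e^(u' + l/E')`. Total exponent (`l^l = e^(l log l)`): `log 4 + l log l + 2u' + 2l/E' + 2(1-α)u - 2(1-α')l u' ≤ log 4 + l log l + 2u' + 2l/E' - 2(α-α')u` (`l u' ≥ u`, `1 - α' ≥ 0` by `al_mem`), `pairn`.
-/

set_option autoImplicit false

open Finset

namespace Pool.Agent.Lib.MR

variable {q : ℕ} [NeZero q] {f : ℕ → ℂ}

theorem pair (hf : CM f) {E : ℕ} (hE : 100 ≤ Real.log E) {x : ℕ} (hqx : q ≤ x) {v v' : ℕ}
    (hv : v ∈ Ico (E ^ 2) (E ^ 3)) (hv' : v' ∈ Ico (dn E ^ 2) (dn E ^ 3)) (T : Finset (DirichletCharacter ℂ q))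
    (hT : ∀ χ ∈ T, ‖QQ f E v χ‖ ≤ Real.exp ((1 - al E) * ((v : ℝ) / E)) ∧
      Real.exp ((1 - al (dn E)) * ((v' : ℝ) / dn E)) ≤ ‖QQ f (dn E) v' χ‖) :
    ∑ χ ∈ T, ‖QQ f E v χ‖ ^ 2 * ‖SS f (x / ex E v) χ‖ ^ 2 ≤ (x : ℝ) ^ 2 * Real.exp (- Real.sqrt E) := by
  obtain ⟨_, hd2, hd3, _, _, _, _⟩ := dn_le hE
  have hEpos : (0 : ℝ) < E := by
    have : 0 < E := by omega
    exact_mod_cast this
  have hDpos : (0 : ℝ) < dn E := by
    have : 0 < dn E := by omega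
    exact_mod_cast this
  obtain ⟨hv1, hv2⟩ := mem_Ico.mp hv
  obtain ⟨hw1, hw2⟩ := mem_Ico.mp hv'
  set u : ℝ := (v : ℝ) / E with hu
  set u' : ℝ := (v' : ℝ) / dn E with hu'
  have hv1' : (E : ℝ) ^ 2 ≤ v := by exact_mod_cast hv1
  have hv2' : (v : ℝ) ≤ (E : ℝ) ^ 3 := by exact_mod_cast hv2.le
  have hw1' : (dn E : ℝ) ^ 2 ≤ v' := by exact_mod_cast hw1
  have hw2' : (v' : ℝ) ≤ (dn E : ℝ) ^ 3 := by exact_mod_cast hw2.le
  have u1 : (E : ℝ) ≤ u := by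
    rw [hu, le_div_iff₀ hEpos]; nlinarith
  have u2 : u ≤ (E : ℝ) ^ 2 := by
    rw [hu, div_le_iff₀ hEpos]; nlinarith
  have w1 : (dn E : ℝ) ≤ u' := by
    rw [hu', le_div_iff₀ hDpos]; nlinarith
  have w2 : u' ≤ (dn E : ℝ) ^ 2 := by
    rw [hu', div_le_iff₀ hDpos]; nlinarith
  have upos : 0 < u := lt_of_lt_of_le hEpos u1
  have wpos : 0 < u' := lt_of_lt_of_le hDpos w1
  have hpn := pairn hE u1 u2 w1 w2
  set l : ℕ := ⌈u / u'⌉₊ with hl
  have hl0 : 0 < l := Nat.ceil_pos.mpr (div_pos upos wpos)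
  have hlR : (0 : ℝ) < l := by exact_mod_cast hl0
  have l1 : u ≤ l * u' := by
    have h := Nat.le_ceil (u / u')
    rw [← hl, div_le_iff₀ wpos] at h
    exact h
  have l2 : l * u' ≤ u + u' := by
    have h := Nat.ceil_lt_add_one (div_pos upos wpos).le
    rw [← hl] at h
    have h3 : (l : ℝ) * u' ≤ (u / u' + 1) * u' := mul_le_mul_of_nonneg_right h.le wpos.le
    have h4 : (u / u' + 1) * u' = u + u' := by
      field_simp
    linarith
  obtain ⟨_, al2⟩ := al_mem hd2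
  have hxpos : (0 : ℝ) ≤ x := Nat.cast_nonneg _
  set y : ℝ := (x : ℝ) / ex E v with hy
  have hy0 : 0 ≤ y := div_nonneg hxpos (ex_pos _ _).le
  -- moment
  have h16 : (16 : ℝ) ≤ ex (dn E) v' := by
    unfold ex
    rw [← hu']
    have h1 : (10000 : ℝ) ≤ u' := le_trans (by exact_mod_cast hd2) w1
    have h2 := Real.add_one_le_exp u'
    linarith
  have hmom := momw (q := q) hf (H := dn E) (v := v') (by omega) h16 l hy0
  -- bounds for Z ^ l * y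
  have hZ : ex (dn E) (v' + 1) ^ l * y ≤ x * Real.exp (u' + l / dn E) := by
    have h1 : ex (dn E) (v' + 1) ^ l = Real.exp (l * u' + l / dn E) := by
      unfold ex
      rw [← Real.exp_nat_mul, hu']
      congr 1
      push_cast
      ring
    have h2 : y = x * Real.exp (-u) := by
      rw [hy]
      unfold ex
      rw [← hu, Real.exp_neg, div_eq_mul_inv]
    rw [h1, h2]
    have h3 : Real.exp (l * u' + l / dn E) * (x * Real.exp (-u)) =
        x * Real.exp (l * u' + l / dn E - u) := by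
      rw [sub_eq_add_neg, Real.exp_add (l * u' + l / dn E)]
      ring
    rw [h3]
    refine mul_le_mul_of_nonneg_left (Real.exp_le_exp.mpr ?_) hxpos
    linarith
  have hq1 : (q : ℝ) ≤ x * Real.exp (u' + l / dn E) := by
    have h1 : (q : ℝ) ≤ x := by exact_mod_cast hqx
    have h2 : 1 ≤ Real.exp (u' + l / dn E) := Real.one_le_exp (by positivity)
    calc (q : ℝ) ≤ x * 1 := by linarith
      _ ≤ x * Real.exp (u' + l / dn E) := mul_le_mul_of_nonneg_left h2 hxpos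
  have hmom2 : ∑ χ : DirichletCharacter ℂ q, ‖QQ f (dn E) v' χ‖ ^ (2 * l) * ‖SS f y χ‖ ^ 2 ≤
      (2 * (x * Real.exp (u' + l / dn E))) * (2 * (l : ℝ) ^ l * (x * Real.exp (u' + l / dn E))) := by
    refine hmom.trans ?_
    have h1 : 2 * (l : ℝ) ^ l * ex (dn E) (v' + 1) ^ l * y = 2 * (l : ℝ) ^ l * (ex (dn E) (v' + 1) ^ l * y) := by
      ring
    rw [h1]
    have h2 : 0 ≤ ex (dn E) (v' + 1) ^ l * y := mul_nonneg (pow_nonneg (ex_pos _ _).le _) hy0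
    gcongr
    linarith
  -- each term
  have hterm : ∀ χ ∈ T, ‖QQ f E v χ‖ ^ 2 * ‖SS f y χ‖ ^ 2 ≤
      Real.exp (2 * (1 - al E) * u - 2 * (1 - al (dn E)) * u) *
        (‖QQ f (dn E) v' χ‖ ^ (2 * l) * ‖SS f y χ‖ ^ 2) := by
    intro χ hχ
    obtain ⟨t1, t2⟩ := hT χ hχ
    have h1 : ‖QQ f E v χ‖ ^ 2 ≤ Real.exp (2 * (1 - al E) * u) := by
      have h := pow_le_pow_left₀ (norm_nonneg _) t1 2
      rw [← Real.exp_nat_mul] at h
      refine h.trans (le_of_eq ?_)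
      congr 1
      push_cast
      ring
    have h2 : Real.exp (2 * (1 - al (dn E)) * u) ≤ ‖QQ f (dn E) v' χ‖ ^ (2 * l) := by
      have h := pow_le_pow_left₀ (Real.exp_pos _).le t2 (2 * l)
      rw [← Real.exp_nat_mul] at h
      refine le_trans (Real.exp_le_exp.mpr ?_) h
      push_cast
      have h3 : 0 ≤ 1 - al (dn E) := by linarith
      have h4 : 2 * (1 - al (dn E)) * u ≤ 2 * (1 - al (dn E)) * (l * u') :=
        mul_le_mul_of_nonneg_left l1 (by linarith)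
      have h5 : 2 * (1 - al (dn E)) * (l * u') = 2 * l * ((1 - al (dn E)) * u') := by ring
      linarith
    have h3 : ‖QQ f E v χ‖ ^ 2 ≤ Real.exp (2 * (1 - al E) * u - 2 * (1 - al (dn E)) * u) *
        ‖QQ f (dn E) v' χ‖ ^ (2 * l) := by
      refine h1.trans ?_
      have h4 : Real.exp (2 * (1 - al E) * u) = Real.exp (2 * (1 - al E) * u - 2 * (1 - al (dn E)) * u) *
          Real.exp (2 * (1 - al (dn E)) * u) := by
        rw [← Real.exp_add]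
        congr 1
        ring
      rw [h4]
      exact mul_le_mul_of_nonneg_left h2 (Real.exp_pos _).le
    calc ‖QQ f E v χ‖ ^ 2 * ‖SS f y χ‖ ^ 2 ≤ (Real.exp (2 * (1 - al E) * u - 2 * (1 - al (dn E)) * u) *
        ‖QQ f (dn E) v' χ‖ ^ (2 * l)) * ‖SS f y χ‖ ^ 2 := mul_le_mul_of_nonneg_right h3 (by positivity)
      _ = _ := by ring
  refine (sum_le_sum hterm).trans ?_
  rw [← mul_sum]
  have hsub : ∑ χ ∈ T, ‖QQ f (dn E) v' χ‖ ^ (2 * l) * ‖SS f y χ‖ ^ 2 ≤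
      ∑ χ : DirichletCharacter ℂ q, ‖QQ f (dn E) v' χ‖ ^ (2 * l) * ‖SS f y χ‖ ^ 2 :=
    sum_le_univ_sum_of_nonneg fun χ => by positivity
  have hll : (l : ℝ) ^ l = Real.exp (l * Real.log l) := by
    rw [Real.exp_nat_mul, Real.exp_log hlR]
  have h4 : (4 : ℝ) = Real.exp (Real.log 4) := (Real.exp_log (by norm_num)).symm
  calc Real.exp (2 * (1 - al E) * u - 2 * (1 - al (dn E)) * u) *
        ∑ χ ∈ T, ‖QQ f (dn E) v' χ‖ ^ (2 * l) * ‖SS f y χ‖ ^ 2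
      ≤ Real.exp (2 * (1 - al E) * u - 2 * (1 - al (dn E)) * u) *
        ((2 * (x * Real.exp (u' + l / dn E))) * (2 * (l : ℝ) ^ l * (x * Real.exp (u' + l / dn E)))) :=
        mul_le_mul_of_nonneg_left (hsub.trans hmom2) (Real.exp_pos _).le
    _ = (x : ℝ) ^ 2 * (Real.exp (2 * (1 - al E) * u - 2 * (1 - al (dn E)) * u) *
        (4 * (l : ℝ) ^ l * (Real.exp (u' + l / dn E) * Real.exp (u' + l / dn E)))) := by ring
    _ = (x : ℝ) ^ 2 * Real.exp (Real.log 4 + l * Real.log l + 2 * u' + 2 * l / dn E -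
        2 * (al E - al (dn E)) * u) := by
        congr 1
        rw [hll]
        conv_lhs => rw [h4]
        rw [← Real.exp_add, ← Real.exp_add, ← Real.exp_add, ← Real.exp_add]
        congr 1
        ring
    _ ≤ (x : ℝ) ^ 2 * Real.exp (- Real.sqrt E) :=
        mul_le_mul_of_nonneg_left (Real.exp_le_exp.mpr hpn) (by positivity)

end Pool.Agent.Lib.MR
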