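import Pool.Agent.Lib.MR.Pair
import Pool.Agent.Lib.MR.NumC
import Pool.Agent.Lib.MR.DecM
import Pool.Agent.Lib.MR.PrS

/-!
# Module Step (30 minutes): one step of the ladder

`dect` with `H = E`, `a = E^2`, `b = E^3`, `V ≥ (1/2) log E ≥ 1` (`VV_lev`): the error is `x^2 (48/log E + 40/E)`. Main: for every `v` the sum over `χ ∈ T` is at most the sum over `v' ∈ Ico (E'^2) (E'^3)`, `E' = dn E`, of the sum over
`T.filter (e^((1-α')v'/E') ≤ ‖Q'_{v'}‖)` (every `χ ∈ T` is not small at `E'`: some `v'` has `>`), each `≤ x^2 e^(-√E)` by `pair`; the total is at most `2 E^3 · E^3 · E'^3 x^2 e^(-√E) ≤ x^2/E` (`stepn`). `48/log E + 41/E ≤ 100/log E`.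
-/

set_option autoImplicit false

open Finset

namespace Pool.Agent.Lib.MR

private theorem step_cover {q : ℕ} [NeZero q] {f : ℕ → ℂ} (E' : ℕ) (T : Finset (DirichletCharacter ℂ q))
    (hT : ∀ χ ∈ T, ¬ small f E' χ) (g : DirichletCharacter ℂ q → ℝ) (hg : ∀ χ, 0 ≤ g χ) (C : ℝ)
    (hC : ∀ v' ∈ Ico (E' ^ 2) (E' ^ 3),
      ∑ χ ∈ T.filter (fun χ => Real.exp ((1 - al E') * ((v' : ℝ) / E')) ≤ ‖QQ f E' v' χ‖), g χ ≤ C) (hC0 : 0 ≤ C) :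
    ∑ χ ∈ T, g χ ≤ (E' : ℝ) ^ 3 * C := by
  classical
  have h1 : ∑ χ ∈ T, g χ ≤ ∑ v' ∈ Ico (E' ^ 2) (E' ^ 3),
      ∑ χ ∈ T.filter (fun χ => Real.exp ((1 - al E') * ((v' : ℝ) / E')) ≤ ‖QQ f E' v' χ‖), g χ := by
    have h2 : ∀ v' ∈ Ico (E' ^ 2) (E' ^ 3),
        ∑ χ ∈ T.filter (fun χ => Real.exp ((1 - al E') * ((v' : ℝ) / E')) ≤ ‖QQ f E' v' χ‖), g χ =
        ∑ χ ∈ T, if Real.exp ((1 - al E') * ((v' : ℝ) / E')) ≤ ‖QQ f E' v' χ‖ then g χ else 0 := by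
      intro v' _
      rw [sum_filter]
    rw [sum_congr rfl h2, sum_comm]
    refine sum_le_sum fun χ hχ => ?_
    have h3 := hT χ hχ
    unfold small at h3
    push Not at h3
    obtain ⟨v', hv', hlt⟩ := h3
    have h4 := single_le_sum (f := fun v' : ℕ => if Real.exp ((1 - al E') * ((v' : ℝ) / E')) ≤ ‖QQ f E' v' χ‖ then g χ else 0)
      (fun i _ => by
        split_ifs
        · exact hg χ
        · exact le_rfl) hv'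
    rw [if_pos hlt.le] at h4
    exact h4
  refine h1.trans ((sum_le_sum hC).trans ?_)
  rw [sum_const, nsmul_eq_mul, Nat.card_Ico]
  refine mul_le_mul_of_nonneg_right ?_ hC0
  calc (((E' ^ 3 - E' ^ 2 : ℕ)) : ℝ) ≤ ((E' ^ 3 : ℕ) : ℝ) := by exact_mod_cast Nat.sub_le _ _
    _ = (E' : ℝ) ^ 3 := by push_cast; ring

theorem step {κ : ℝ} (hκ : 0 < κ) : ∃ E1 : ℕ, ∀ E : ℕ, E1 ≤ E → ∀ (q : ℕ) [NeZero q] (x : ℕ), κ * q ≤ q.totient → q ≤ x →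
    ex E (E ^ 3) ^ 2 ≤ (x : ℝ) / E → ∀ f : ℕ → ℂ, CM f → ∀ T : Finset (DirichletCharacter ℂ q),
    (∀ χ ∈ T, small f E χ ∧ ¬ small f (dn E) χ) →
    ∑ χ ∈ T, ‖SS f x χ‖ ^ 2 ≤ 100 * (x : ℝ) ^ 2 / Real.log E := by
  classical
  obtain ⟨E0, hE0⟩ := VV_lev hκ
  refine ⟨max E0 ⌈Real.exp 100⌉₊, ?_⟩
  intro E hE q _ x hq hqx hx f hf T hT
  have hE0' : E0 ≤ E := le_trans (le_max_left _ _) hE
  have hEr : Real.exp 100 ≤ E := (Nat.le_ceil _).trans (by exact_mod_cast (le_max_right _ _).trans hE)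
  have hEpos : (0 : ℝ) < E := (Real.exp_pos _).trans_le hEr
  have hE1 : 1 ≤ E := by
    have : (0 : ℝ) < E := hEpos
    exact_mod_cast this
  have hlog : 100 ≤ Real.log E := by
    rw [Real.le_log_iff_exp_le hEpos]
    exact hEr
  have hlogE : Real.log E ≤ E := (Real.log_le_sub_one_of_pos hEpos).trans (by linarith)
  have hlpos : 0 < Real.log E := by linarith
  have hV := hE0 E hE0' q (Nat.one_le_iff_ne_zero.mpr (NeZero.ne q)) hq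
  have hV1 : 1 ≤ VV q E (E ^ 2) (E ^ 3) := by linarith
  have hab : E ^ 2 ≤ E ^ 3 := Nat.pow_le_pow_right hE1 (by norm_num)
  have hd := dect hf hE1 hab hqx hV1 hx T
  -- the main term
  set X : ℝ := (x : ℝ) ^ 2 * Real.exp (- Real.sqrt E) with hX
  have hX0 : 0 ≤ X := by positivity
  have hmain : ∀ v ∈ Ico (E ^ 2) (E ^ 3), ∑ χ ∈ T, ‖QQ f E v χ‖ ^ 2 * ‖SS f (x / ex E v) χ‖ ^ 2 ≤
      ((dn E : ℕ) : ℝ) ^ 3 * X := by
    intro v hv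
    refine step_cover (f := f) (dn E) T (fun χ hχ => (hT χ hχ).2) _ (fun χ => by positivity) X ?_ hX0
    intro v' hv'
    refine pair hf hlog hqx hv hv' _ ?_
    intro χ hχ
    rw [mem_filter] at hχ
    exact ⟨(hT χ hχ.1).1 v hv, hχ.2⟩
  have hsum : ∑ v ∈ Ico (E ^ 2) (E ^ 3), ∑ χ ∈ T, ‖QQ f E v χ‖ ^ 2 * ‖SS f (x / ex E v) χ‖ ^ 2 ≤
      (E : ℝ) ^ 3 * (((dn E : ℕ) : ℝ) ^ 3 * X) := by
    refine (sum_le_sum hmain).trans ?_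
    rw [sum_const, nsmul_eq_mul, Nat.card_Ico]
    refine mul_le_mul_of_nonneg_right ?_ (by positivity)
    calc (((E ^ 3 - E ^ 2 : ℕ)) : ℝ) ≤ ((E ^ 3 : ℕ) : ℝ) := by exact_mod_cast Nat.sub_le _ _
      _ = (E : ℝ) ^ 3 := by push_cast; ring
  have hS0 : 0 ≤ ∑ v ∈ Ico (E ^ 2) (E ^ 3), ∑ χ ∈ T, ‖QQ f E v χ‖ ^ 2 * ‖SS f (x / ex E v) χ‖ ^ 2 :=
    sum_nonneg fun _ _ => sum_nonneg fun _ _ => by positivity
  have hfirst : 2 * (((E ^ 3 : ℕ) : ℝ) - ((E ^ 2 : ℕ) : ℝ)) *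
      ∑ v ∈ Ico (E ^ 2) (E ^ 3), ∑ χ ∈ T, ‖QQ f E v χ‖ ^ 2 * ‖SS f (x / ex E v) χ‖ ^ 2 ≤ (x : ℝ) ^ 2 * (1 / E) := by
    have h1 : 2 * (((E ^ 3 : ℕ) : ℝ) - ((E ^ 2 : ℕ) : ℝ)) ≤ 2 * (E : ℝ) ^ 3 := by
      push_cast
      have : (0 : ℝ) ≤ (E : ℝ) ^ 2 := by positivity
      linarith
    calc 2 * (((E ^ 3 : ℕ) : ℝ) - ((E ^ 2 : ℕ) : ℝ)) *
        ∑ v ∈ Ico (E ^ 2) (E ^ 3), ∑ χ ∈ T, ‖QQ f E v χ‖ ^ 2 * ‖SS f (x / ex E v) χ‖ ^ 2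
        ≤ 2 * (E : ℝ) ^ 3 * ((E : ℝ) ^ 3 * (((dn E : ℕ) : ℝ) ^ 3 * X)) :=
          mul_le_mul h1 hsum hS0 (by positivity)
      _ = (x : ℝ) ^ 2 * (2 * (E : ℝ) ^ 3 * ((E : ℝ) ^ 3 * ((dn E : ℝ) ^ 3 * Real.exp (- Real.sqrt E)))) := by
          rw [hX]; ring
      _ ≤ (x : ℝ) ^ 2 * (1 / E) := mul_le_mul_of_nonneg_left (stepn hlog) (by positivity)
  have h24 : 24 / VV q E (E ^ 2) (E ^ 3) ≤ 48 / Real.log E := by
    rw [div_le_div_iff₀ (by linarith) hlpos]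
    linarith
  have h41 : (41 : ℝ) / E ≤ 41 / Real.log E := div_le_div_of_nonneg_left (by norm_num) hlpos hlogE
  have hx2 : (0 : ℝ) ≤ (x : ℝ) ^ 2 := by positivity
  calc ∑ χ ∈ T, ‖SS f x χ‖ ^ 2 ≤ (x : ℝ) ^ 2 * (1 / E) + (x : ℝ) ^ 2 * (24 / VV q E (E ^ 2) (E ^ 3) + 40 / E) := by
        refine hd.trans ?_
        linarith
    _ = (x : ℝ) ^ 2 * (24 / VV q E (E ^ 2) (E ^ 3) + 41 / E) := by ring
    _ ≤ (x : ℝ) ^ 2 * (48 / Real.log E + 41 / Real.log E) := mul_le_mul_of_nonneg_left (by linarith) hx2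
    _ ≤ (x : ℝ) ^ 2 * (100 / Real.log E) := by
        refine mul_le_mul_of_nonneg_left ?_ hx2
        rw [← add_div]
        exact div_le_div_of_nonneg_right (by norm_num) hlpos.le
    _ = 100 * (x : ℝ) ^ 2 / Real.log E := by ring

end Pool.Agent.Lib.MR
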