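import Pool.Agent.Lib.MR.Defs

/-!
# Module Win (25 minutes): every prime of the level lies in exactly one window

PROOF. `Finset.sum_biUnion`: `PP q H a b = (Ico a b).biUnion (Pw q H)`, pairwise disjoint. `⊇`: `ex_mono`. `⊆`: for `p` in `PP` let `v` be the largest
natural number with `ex H v < p` (`Nat.findGreatest` on `v ≤ b`, or induction on `b`: `PP q H a (b+1) = PP q H a b ∪ Pw q H b` for `a ≤ b`); then `a ≤ v`, `v < b` (as `p ≤ ex H b`) and `p ≤ ex H (v+1)`. Disjoint: if `v < w` then `p ≤ ex H (v+1) ≤ ex H w < p`.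
`PP_card`: `PP ⊆ Icc 1 ⌊ex H b⌋₊`.
-/

set_option autoImplicit false

open Finset

namespace Pool.Agent.Lib.MR

theorem PP_sum {M : Type*} [AddCommMonoid M] (q : ℕ) {H a b : ℕ} (hH : 1 ≤ H) (hab : a ≤ b) (g : ℕ → M) :
    ∑ p ∈ PP q H a b, g p = ∑ v ∈ Ico a b, ∑ p ∈ Pw q H v, g p := by
  induction b, hab using Nat.le_induction with
  | base =>
    have h1 : PP q H a a = ∅ := by
      ext p
      rw [mem_PP]
      simp only [notMem_empty, iff_false]
      rintro ⟨_, _, h3, h4⟩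
      linarith
    rw [h1, Ico_self, sum_empty, sum_empty]
  | succ b hab ih =>
    have h1 : PP q H a (b + 1) = PP q H a b ∪ Pw q H b := by
      ext p
      rw [mem_union, mem_PP, mem_PP, mem_Pw]
      constructor
      · rintro ⟨h1, h2, h3, h4⟩
        rcases le_or_gt (p : ℝ) (ex H b) with h5 | h5
        · exact Or.inl ⟨h1, h2, h3, h5⟩
        · exact Or.inr ⟨h1, h2, h5, h4⟩
      · rintro (⟨h1, h2, h3, h4⟩ | ⟨h1, h2, h3, h4⟩)
        · exact ⟨h1, h2, h3, h4.trans (ex_mono (Nat.le_succ b))⟩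
        · exact ⟨h1, h2, (ex_mono hab).trans_lt h3, h4⟩
    have h2 : Disjoint (PP q H a b) (Pw q H b) := by
      rw [Finset.disjoint_left]
      intro p h3 h4
      rw [mem_PP] at h3
      rw [mem_Pw] at h4
      exact absurd h3.2.2.2 (not_le.2 h4.2.2.1)
    rw [h1, sum_union h2, sum_Ico_succ_top hab, ih]

theorem PP_card (q H a b : ℕ) : ((PP q H a b).card : ℝ) ≤ ex H b := by
  have h1 : (PP q H a b).card ≤ ⌊ex H b⌋₊ := by
    have h2 := card_filter_le (Icc 1 ⌊ex H b⌋₊) (fun p => p.Prime ∧ ¬ p ∣ q ∧ ex H a < p)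
    rw [Nat.card_Icc] at h2
    unfold PP
    omega
  exact (by exact_mod_cast h1 : ((PP q H a b).card : ℝ) ≤ (⌊ex H b⌋₊ : ℝ)).trans
    (Nat.floor_le (ex_pos H b).le)

end Pool.Agent.Lib.MR
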